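import Mathlib

/-!
# Chains on lists of pairwise adjacent elements

`filtration`: if `G ⊆ S` is such that the complexes of the elements of `G` adjacent to a given
clique are exact, and cycles in `G` bound in `S`, then the complex of `S` is exact.  It is applied
to dual pairs `(v, w)` with `v ⬝ᵥ w = 1` and orthogonality (`exact_const`, `exact_vec`).
-/

namespace Pool.Agent.Helper607.Cliques

open Finset

section Basic

variable {X B : Type*} [AddCommGroup B]

/-- boundary of a list with coefficient -/
noncomputable def dS (l : List X) : B →+ (List X →₀ B) :=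
  ∑ i ∈ range l.length, (((-1 : ℤ) ^ i) • Finsupp.singleAddHom (l.eraseIdx i))

/-- the boundary -/
noncomputable def D : (List X →₀ B) →+ (List X →₀ B) := Finsupp.liftAddHom dS

lemma D_single (l : List X) (b : B) : D (Finsupp.single l b)
    = ∑ i ∈ range l.length, ((-1 : ℤ) ^ i) • Finsupp.single (l.eraseIdx i) b := by
  simp only [D, dS, Finsupp.liftAddHom_apply_single, AddMonoidHom.finsetSum_apply]
  rfl

/-- adding an element in front -/
noncomputable def consC (x : X) : (List X →₀ B) →+ (List X →₀ B) :=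
  Finsupp.mapDomain.addMonoidHom (fun l => x :: l)

lemma consC_single (x : X) (l : List X) (b : B) :
    consC x (Finsupp.single l b) = Finsupp.single (x :: l) b := by
  simp [consC]

/-- cone formula -/
lemma D_consC (x : X) (c : List X →₀ B) : D (consC x c) = c - consC x (D c) := by
  have : (D.comp (consC x) : (List X →₀ B) →+ (List X →₀ B))
      = AddMonoidHom.id _ - (consC x).comp D := by
    apply Finsupp.addHom_ext
    intro l b
    simp only [AddMonoidHom.comp_apply, AddMonoidHom.sub_apply, AddMonoidHom.id_apply, consC_single,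
      D_single, List.length_cons, map_sum, map_zsmul]
    rw [Finset.sum_range_succ']
    simp only [List.eraseIdx_cons_succ, List.eraseIdx_cons_zero, pow_zero, one_smul, pow_succ,
      mul_neg, mul_one, neg_smul, Finset.sum_neg_distrib]
    abel
  exact DFunLike.congr_fun this c

lemma D_D (c : List X →₀ B) : D (D c) = 0 := by
  have h : ∀ (l : List X) (b : B), D (D (Finsupp.single l b)) = 0 := by
    intro l b
    induction l with
    | nil => rw [D_single]; simp
    | cons x l ih =>
      rw [← consC_single, D_consC, map_sub, D_consC, ih, map_zero, sub_zero, sub_self]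
  rw [← Finsupp.sum_single c, Finsupp.sum, map_sum, map_sum]
  exact Finset.sum_eq_zero fun l _ => h l _

/-- adding a list in front -/
noncomputable def appC (τ : List X) : (List X →₀ B) →+ (List X →₀ B) :=
  Finsupp.mapDomain.addMonoidHom (fun l => τ ++ l)

lemma appC_single (τ : List X) (l : List X) (b : B) :
    appC τ (Finsupp.single l b) = Finsupp.single (τ ++ l) b := by
  simp [appC]

lemma appC_apply (τ ρ : List X) (c : List X →₀ B) : appC τ c (τ ++ ρ) = c ρ :=
  Finsupp.mapDomain_apply (List.append_right_injective τ) c ρ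

lemma appC_ne {τ l : List X} {c : List X →₀ B} (h : appC τ c l ≠ 0) : ∃ ρ, l = τ ++ ρ ∧ c ρ ≠ 0 := by
  by_contra hcon
  push Not at hcon
  apply h
  by_cases hr : l ∈ Set.range (fun l => τ ++ l)
  · obtain ⟨ρ, rfl⟩ := hr
    simp only at *
    rw [appC_apply, hcon ρ rfl]
  · exact Finsupp.mapDomain_of_notMem_range c l hr

/-- the part of a chain with given beginning -/
noncomputable def prC (τ : List X) (c : List X →₀ B) : List X →₀ B :=
  Finsupp.comapDomain (fun l => τ ++ l) c ((List.append_right_injective τ).injOn)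

lemma prC_apply (τ ρ : List X) (c : List X →₀ B) : prC τ c ρ = c (τ ++ ρ) := rfl

lemma prC_add (τ : List X) (c d : List X →₀ B) : prC τ (c + d) = prC τ c + prC τ d := by
  ext ρ; rfl

lemma prC_zero (τ : List X) : prC τ (0 : List X →₀ B) = 0 := by
  ext ρ; rfl

/-- as an additive map -/
noncomputable def prH (τ : List X) : (List X →₀ B) →+ (List X →₀ B) where
  toFun := prC τ
  map_zero' := prC_zero τ
  map_add' := prC_add τ

lemma erase_ne {G : Set X} {l τ ρ : List X} {M i : ℕ} (hl : ∀ x ∈ l.drop (M + 1), x ∈ G)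
    (hτ : τ.length = M + 1) (hlast : ∀ x ∈ τ.getLast?, x ∉ G) (hi : i ≤ M) :
    l.eraseIdx i ≠ τ ++ ρ := by
  intro h
  have h1 : (l.eraseIdx i).drop M = l.drop (M + 1) := by
    rw [List.eraseIdx_eq_take_drop_succ, List.drop_append, List.drop_drop]
    have : (List.take i l).drop M = [] := by
      apply List.drop_eq_nil_of_le
      rw [List.length_take]; omega
    rw [this, List.nil_append, List.length_take]
    by_cases hil : i ≤ l.length
    · congr 1; omega
    · have h2 : l.drop (M + 1) = [] := List.drop_eq_nil_of_le (by omega)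
      rw [h2]
      apply List.drop_eq_nil_of_le; omega
  have hne : τ ≠ [] := by rintro rfl; simp at hτ
  have h2 : (τ ++ ρ).drop M = [τ.getLast hne] ++ ρ := by
    conv_lhs => rw [← List.dropLast_append_getLast hne]
    rw [List.append_assoc, List.drop_append, List.length_dropLast, hτ]
    simp
    exact hτ.le
  rw [h] at h1
  rw [h1] at h2
  have h3 : τ.getLast hne ∈ l.drop (M + 1) := by rw [h2]; simp
  exact hlast _ (by rw [List.getLast?_eq_some_getLast hne]; rfl) (hl _ h3)

/-- evaluation of the boundary at lists beginning with `τ` -/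
lemma eval (G : Set X) (M : ℕ) (τ : List X) (hτ : τ.length = M + 1)
    (hlast : ∀ x ∈ τ.getLast?, x ∉ G) (c : List X →₀ B)
    (hc : ∀ l, c l ≠ 0 → ∀ x ∈ l.drop (M + 1), x ∈ G) (ρ : List X) :
    D c (τ ++ ρ) = ((-1 : ℤ) ^ (M + 1)) • D (prC τ c) ρ := by
  classical
  have hsingle : ∀ (l : List X) (b : B), (∀ x ∈ l.drop (M + 1), x ∈ G) →
      D (Finsupp.single l b) (τ ++ ρ) = ((-1 : ℤ) ^ (M + 1)) • D (prC τ (Finsupp.single l b)) ρ := by
    intro l b hl
    by_cases hp : ∃ ρl, l = τ ++ ρl
    · obtain ⟨ρl, rfl⟩ := hp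
      have e1 : prC τ (Finsupp.single (τ ++ ρl) b) = Finsupp.single ρl b := by
        ext ρ'
        rw [prC_apply, Finsupp.single_apply, Finsupp.single_apply]
        simp
      rw [e1, D_single, D_single, List.length_append, hτ, Finset.sum_range_add]
      rw [Finsupp.add_apply, Finsupp.finsetSum_apply, Finset.sum_eq_zero, zero_add,
        Finsupp.finsetSum_apply, Finsupp.finsetSum_apply, Finset.smul_sum]
      · refine Finset.sum_congr rfl fun j _ => ?_
        have e2 : (τ ++ ρl).eraseIdx (M + 1 + j) = τ ++ ρl.eraseIdx j := by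
          rw [List.eraseIdx_append_of_length_le (by omega), hτ]
          congr 2; omega
        rw [e2, pow_add, mul_smul, Finsupp.smul_apply, Finsupp.smul_apply, Finsupp.smul_apply,
          Finsupp.single_apply, Finsupp.single_apply]
        simp
      · intro i hi
        rw [Finsupp.smul_apply, Finsupp.single_apply, if_neg, smul_zero]
        exact erase_ne hl hτ hlast (by have := Finset.mem_range.1 hi; omega)
    · have e1 : prC τ (Finsupp.single l b) = 0 := by
        ext ρ'
        rw [prC_apply, Finsupp.single_apply, if_neg]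
        · rfl
        · intro h; exact hp ⟨ρ', h⟩
      rw [e1, map_zero, Finsupp.zero_apply, smul_zero, D_single, Finsupp.finsetSum_apply]
      refine Finset.sum_eq_zero fun i hi => ?_
      rw [Finsupp.smul_apply, Finsupp.single_apply, if_neg, smul_zero]
      by_cases hiM : i ≤ M
      · exact erase_ne hl hτ hlast hiM
      · intro h
        apply hp
        refine ⟨l.drop (M + 1), ?_⟩
        have h1 : (l.eraseIdx i).take (M + 1) = l.take (M + 1) := by
          rw [List.eraseIdx_eq_take_drop_succ, List.take_append, List.take_take,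
            List.length_take]
          have := Finset.mem_range.1 hi
          have e : min (M+1) i = M + 1 := by omega
          have e2 : M + 1 - min i l.length = 0 := by omega
          rw [e, e2]; simp
        rw [h, List.take_append_of_le_length (by omega), List.take_of_length_le (by omega)] at h1
        conv_lhs => rw [← List.take_append_drop (M + 1) l, ← h1]
  have key : D c (τ ++ ρ) - ((-1 : ℤ) ^ (M + 1)) • D (prC τ c) ρ = 0 := by
    let F : (List X →₀ B) →+ B :=
      (Finsupp.applyAddHom (τ ++ ρ)).comp D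
        - ((-1 : ℤ) ^ (M + 1)) • ((Finsupp.applyAddHom ρ).comp (D.comp (prH τ)))
    have hF : ∀ c, F c = D c (τ ++ ρ) - ((-1 : ℤ) ^ (M + 1)) • D (prC τ c) ρ := fun c => rfl
    rw [← hF]
    rw [← Finsupp.sum_single c, Finsupp.sum, map_sum]
    refine Finset.sum_eq_zero fun l hl => ?_
    rw [hF, hsingle l (c l) (hc l (Finsupp.mem_support_iff.1 hl)), sub_self]
  exact sub_eq_zero.1 key

/-- admissible lists: length `q`, pairwise adjacent, all elements in `S` -/
def Adm (r : X → X → Prop) (S : Set X) (q : ℕ) (l : List X) : Prop :=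
  l.length = q ∧ l.Pairwise r ∧ ∀ x ∈ l, x ∈ S

/-- the chains supported on admissible lists with coefficients in the groups `N l` -/
def K (r : X → X → Prop) (S : Set X) (N : List X → AddSubgroup B) (q : ℕ) :
    AddSubgroup (List X →₀ B) where
  carrier := {c | ∀ l, c l ≠ 0 → Adm r S q l ∧ c l ∈ N l}
  zero_mem' := fun l h => absurd rfl h
  add_mem' := by
    intro a b ha hb l h
    by_cases h0 : a l = 0
    · have : (a + b) l = b l := by rw [Finsupp.add_apply, h0, zero_add]
      rw [this] at h ⊢
      exact hb l h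
    · by_cases h1 : b l = 0
      · have : (a + b) l = a l := by rw [Finsupp.add_apply, h1, add_zero]
        rw [this] at h ⊢
        exact ha l h
      · exact ⟨(ha l h0).1, (N l).add_mem (ha l h0).2 (hb l h1).2⟩
  neg_mem' := by
    intro a ha l h
    have h' : a l ≠ 0 := by
      intro h0; apply h; rw [Finsupp.neg_apply, h0, neg_zero]
    exact ⟨(ha l h').1, by rw [Finsupp.neg_apply]; exact (N l).neg_mem (ha l h').2⟩

variable {r : X → X → Prop} {S : Set X} {N : List X → AddSubgroup B} {q : ℕ}

lemma mem_K {c : List X →₀ B} : c ∈ K r S N q ↔ ∀ l, c l ≠ 0 → Adm r S q l ∧ c l ∈ N l := Iff.rfl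

lemma single_mem_K {l : List X} {b : B} (h : Adm r S q l) (hb : b ∈ N l) :
    Finsupp.single l b ∈ K r S N q := by
  classical
  intro l' h'
  rw [Finsupp.single_apply] at h' ⊢
  by_cases e : l = l'
  · subst e; rw [if_pos rfl]; exact ⟨h, hb⟩
  · rw [if_neg e] at h'; exact absurd rfl h'

lemma Adm.erase {l : List X} (h : Adm r S (q + 1) l) {i : ℕ} (hi : i < l.length) :
    Adm r S q (l.eraseIdx i) := by
  obtain ⟨h1, h2, h3⟩ := h
  refine ⟨?_, h2.sublist (List.eraseIdx_sublist l i), fun x hx =>
    h3 x ((List.eraseIdx_sublist l i).subset hx)⟩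
  rw [List.length_eraseIdx, if_pos hi]; omega

lemma D_mem (hN : ∀ l l' : List X, List.Sublist l' l → N l ≤ N l') {c : List X →₀ B}
    (hc : c ∈ K r S N (q + 1)) : D c ∈ K r S N q := by
  rw [← Finsupp.sum_single c, Finsupp.sum, map_sum]
  refine AddSubgroup.sum_mem _ fun l hl => ?_
  have h := hc l (Finsupp.mem_support_iff.1 hl)
  rw [D_single]
  refine AddSubgroup.sum_mem _ fun i hi => AddSubgroup.zsmul_mem _ ?_ _
  exact single_mem_K (h.1.erase (Finset.mem_range.1 hi))
    (hN l _ (List.eraseIdx_sublist l i) h.2)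

/-- exactness at size `q` -/
def Ex (r : X → X → Prop) (S : Set X) (N : List X → AddSubgroup B) (q : ℕ) : Prop :=
  ∀ c ∈ K r S N q, D c = 0 → ∃ b ∈ K r S N (q + 1), D b = c

lemma drop_D {G : Set X} {M : ℕ} {c : List X →₀ B}
    (hc : ∀ l, c l ≠ 0 → ∀ x ∈ l.drop M, x ∈ G) :
    ∀ l, D c l ≠ 0 → ∀ x ∈ l.drop M, x ∈ G := by
  intro l hl
  by_contra hcon
  apply hl
  rw [← Finsupp.sum_single c, Finsupp.sum, map_sum, Finsupp.finsetSum_apply]
  refine Finset.sum_eq_zero fun l' hl' => ?_
  rw [D_single, Finsupp.finsetSum_apply]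
  refine Finset.sum_eq_zero fun i _ => ?_
  classical
  rw [Finsupp.smul_apply, Finsupp.single_apply, if_neg, smul_zero]
  rintro rfl
  apply hcon
  intro x hx
  exact hc l' (Finsupp.mem_support_iff.1 hl') x (((List.eraseIdx_sublist l' i).drop M).subset hx)

lemma appC_mem {τ : List X} {G : Set X} {p : ℕ} (hGS : G ⊆ S) (hτ : τ.Pairwise r)
    (hτS : ∀ x ∈ τ, x ∈ S) {b : List X →₀ B}
    (hb : b ∈ K r (G ∩ {y | ∀ x ∈ τ, r x y}) (fun l => N (τ ++ l)) p) :
    appC τ b ∈ K r S N (τ.length + p) := by
  intro l hl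
  obtain ⟨ρ, rfl, hρ⟩ := appC_ne hl
  rw [appC_apply]
  obtain ⟨⟨h1, h2, h3⟩, h4⟩ := hb ρ hρ
  refine ⟨⟨by rw [List.length_append, h1], ?_, ?_⟩, h4⟩
  · rw [List.pairwise_append]
    exact ⟨hτ, h2, fun x hx y hy => (h3 y hy).2 x hx⟩
  · intro x hx
    rcases List.mem_append.1 hx with h | h
    · exact hτS x h
    · exact hGS (h3 x h).1

/-- The filtration lemma: filter by the position of the last vertex outside `G`. -/
theorem filtration (G : Set X) (hGS : G ⊆ S) (hN : ∀ l l' : List X, List.Sublist l' l → N l ≤ N l')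
    (ha : ∀ τ : List X, τ ≠ [] → τ.Pairwise r → (∀ x ∈ τ, x ∈ S) → τ.length ≤ q →
      Ex r (G ∩ {y | ∀ x ∈ τ, r x y}) (fun l => N (τ ++ l)) (q - τ.length))
    (hb : ∀ c ∈ K r G N q, D c = 0 → ∃ b ∈ K r S N (q + 1), D b = c) : Ex r S N q := by
  classical
  have main : ∀ M : ℕ, ∀ c ∈ K r S N q, D c = 0 → (∀ l, c l ≠ 0 → ∀ x ∈ l.drop M, x ∈ G) →
      ∃ b ∈ K r S N (q + 1), D b = c := by
    intro M
    induction M with
    | zero =>
      intro c hc hD hG
      refine hb c (fun l hl => ?_) hD
      obtain ⟨⟨h1, h2, h3⟩, h4⟩ := hc l hl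
      exact ⟨⟨h1, h2, fun x hx => hG l hl x (by simpa using hx)⟩, h4⟩
    | succ M ihM =>
      -- prefixes of length M + 1 with last element outside G
      have inner : ∀ (k : ℕ), ∀ c ∈ K r S N q, D c = 0 →
          (∀ l, c l ≠ 0 → ∀ x ∈ l.drop (M + 1), x ∈ G) →
          ((c.support.filter fun l => ¬ ∀ x ∈ l.drop M, x ∈ G).image
            (fun l => l.take (M + 1))).card ≤ k → ∃ b ∈ K r S N (q + 1), D b = c := by
        intro k
        induction k with
        | zero =>
          intro c hc hD hG hT
          refine ihM c hc hD fun l hl => ?_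
          by_contra hcon
          have h1 : l.take (M + 1) ∈ ((c.support.filter fun l => ¬ ∀ x ∈ l.drop M, x ∈ G).image
            (fun l => l.take (M + 1))) :=
            Finset.mem_image.2 ⟨l, Finset.mem_filter.2 ⟨Finsupp.mem_support_iff.2 hl, hcon⟩, rfl⟩
          have h2 : _ = ∅ := Finset.card_eq_zero.1 (Nat.le_zero.1 hT)
          rw [h2] at h1
          simp at h1
        | succ k ihk =>
          intro c hc hD hG hT
          set T := ((c.support.filter fun l => ¬ ∀ x ∈ l.drop M, x ∈ G).image
            (fun l => l.take (M + 1))) with hTdef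
          by_cases hTe : T = ∅
          · exact ihk c hc hD hG (by rw [← hTdef, hTe]; simp)
          obtain ⟨τ, hτT⟩ := Finset.nonempty_iff_ne_empty.2 hTe
          obtain ⟨l0, hl0, hl0τ⟩ := Finset.mem_image.1 hτT
          obtain ⟨hl0s, hl0b⟩ := Finset.mem_filter.1 hl0
          have hl0c := Finsupp.mem_support_iff.1 hl0s
          -- facts about lists with a bad element at position M
          have hbad : ∀ l : List X, (∀ x ∈ l.drop (M + 1), x ∈ G) → (¬ ∀ x ∈ l.drop M, x ∈ G) →
              (l.take (M + 1)).length = M + 1 ∧ ∀ x ∈ (l.take (M + 1)).getLast?, x ∉ G := by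
            intro l h1 h2
            have hlen : M < l.length := by
              by_contra h3
              apply h2
              intro x hx
              rw [List.drop_eq_nil_of_le (by omega)] at hx
              simp at hx
            have h3 : l.drop M = l[M] :: l.drop (M + 1) := List.drop_eq_getElem_cons hlen
            have h4 : l[M] ∉ G := by
              intro h5
              apply h2
              rw [h3]
              intro x hx
              rcases List.mem_cons.1 hx with h6 | h6
              · rw [h6]; exact h5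
              · exact h1 x h6
            refine ⟨by rw [List.length_take]; omega, ?_⟩
            intro x hx
            rw [List.take_succ_eq_append_getElem hlen, List.getLast?_concat,
              Option.mem_some_iff] at hx
            rw [← hx]; exact h4
          obtain ⟨hτlen, hτlast⟩ := hbad l0 (hG l0 hl0c) hl0b
          rw [hl0τ] at hτlen hτlast
          have hl0τ' : l0 = τ ++ l0.drop (M + 1) := by
            rw [← hl0τ, List.take_append_drop]
          obtain ⟨⟨hq0, hp0, hs0⟩, -⟩ := hc l0 hl0c
          have hτne : τ ≠ [] := by rintro rfl; simp at hτlen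
          have hτpw : τ.Pairwise r := by
            rw [hl0τ'] at hp0; exact (List.pairwise_append.1 hp0).1
          have hτS : ∀ x ∈ τ, x ∈ S := fun x hx => hs0 x (by rw [hl0τ']; simp [hx])
          have hτq : τ.length ≤ q := by
            rw [← hq0, hl0τ', List.length_append]; omega
          -- the leading part
          set cτ := prC τ c with hcτ
          have hcτK : cτ ∈ K r (G ∩ {y | ∀ x ∈ τ, r x y}) (fun l => N (τ ++ l)) (q - τ.length) := by
            intro ρ hρ
            rw [hcτ, prC_apply] at hρ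
            obtain ⟨⟨h1, h2, h3⟩, h4⟩ := hc _ hρ
            rw [List.pairwise_append] at h2
            refine ⟨⟨?_, h2.2.1, fun y hy => ⟨?_, fun x hx => h2.2.2 x hx y hy⟩⟩, h4⟩
            · rw [List.length_append] at h1; omega
            · apply hG _ hρ
              rw [← hτlen, List.drop_append_of_le_length le_rfl]
              simp [hy]
          have hcτD : D cτ = 0 := by
            ext ρ
            have h1 := eval G M τ hτlen hτlast c hG ρ
            rw [hD, Finsupp.zero_apply] at h1
            rw [Finsupp.zero_apply]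
            have h2 : ((-1 : ℤ) ^ (M + 1)) • (((-1 : ℤ) ^ (M + 1)) • D (prC τ c) ρ) = 0 := by
              rw [← h1, smul_zero]
            rw [smul_smul, ← mul_pow] at h2
            simpa using h2
          obtain ⟨bτ, hbτK, hbτ⟩ := ha τ hτne hτpw hτS hτq cτ hcτK hcτD
          have happK : appC τ bτ ∈ K r S N (q + 1) := by
            have := appC_mem hGS hτpw hτS hbτK
            have e : τ.length + (q - τ.length + 1) = q + 1 := by omega
            rwa [e] at this
          have happG : ∀ l, (appC τ bτ) l ≠ 0 → ∀ x ∈ l.drop (M + 1), x ∈ G := by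
            intro l hl x hx
            obtain ⟨ρ, rfl, hρ⟩ := appC_ne hl
            rw [← hτlen, List.drop_append_of_le_length le_rfl] at hx
            simp at hx
            exact ((hbτK ρ hρ).1.2.2 x hx).1
          have hpr : prC τ (appC τ bτ) = bτ := by
            ext ρ; rw [prC_apply, appC_apply]
          set c1 := c - ((-1 : ℤ) ^ (M + 1)) • D (appC τ bτ) with hc1
          have hc1K : c1 ∈ K r S N q :=
            AddSubgroup.sub_mem _ hc (AddSubgroup.zsmul_mem _ (D_mem hN happK) _)
          have hc1D : D c1 = 0 := by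
            rw [hc1, map_sub, map_zsmul, hD, D_D, smul_zero, sub_zero]
          have hc1G : ∀ l, c1 l ≠ 0 → ∀ x ∈ l.drop (M + 1), x ∈ G := by
            intro l hl
            by_cases h0 : c l = 0
            · refine drop_D happG l fun h => hl ?_
              rw [hc1, Finsupp.sub_apply, Finsupp.smul_apply, h0, h, smul_zero, sub_zero]
            · exact hG l h0
          -- values of c1 at lists with a bad element at position M
          have hval : ∀ (τ' ρ : List X), τ'.length = M + 1 → (∀ x ∈ τ'.getLast?, x ∉ G) →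
              c1 (τ' ++ ρ) = if τ' = τ then 0 else c (τ' ++ ρ) := by
            intro τ' ρ h1 h2
            have h3 := eval G M τ' h1 h2 (appC τ bτ) happG ρ
            rw [hc1, Finsupp.sub_apply, Finsupp.smul_apply, h3, smul_smul, ← mul_pow]
            have h4 : ((-1 : ℤ) * -1) ^ (M + 1) = 1 := by simp
            rw [h4, one_smul]
            split_ifs with h5
            · subst h5
              rw [hpr, hbτ, hcτ, prC_apply, sub_self]
            · have h6 : prC τ' (appC τ bτ) = 0 := by
                ext ρ'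
                rw [prC_apply, Finsupp.zero_apply]
                by_contra h7
                obtain ⟨ρ'', h8, -⟩ := appC_ne h7
                have := List.append_inj h8 (by rw [h1, hτlen])
                exact h5 this.1
              rw [h6, map_zero, Finsupp.zero_apply, sub_zero]
          have hT1 : ((c1.support.filter fun l => ¬ ∀ x ∈ l.drop M, x ∈ G).image
              (fun l => l.take (M + 1))) ⊆ T.erase τ := by
            intro τ' hτ'
            obtain ⟨l, hl, rfl⟩ := Finset.mem_image.1 hτ'
            obtain ⟨hl1, hl2⟩ := Finset.mem_filter.1 hl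
            have hl3 := Finsupp.mem_support_iff.1 hl1
            obtain ⟨h1, h2⟩ := hbad l (hc1G l hl3) hl2
            have h3 := hval (l.take (M + 1)) (l.drop (M + 1)) h1 h2
            rw [List.take_append_drop] at h3
            rw [h3] at hl3
            split_ifs at hl3 with h4
            · exact absurd rfl hl3
            · exact Finset.mem_erase.2 ⟨h4, Finset.mem_image.2 ⟨l, Finset.mem_filter.2
                ⟨Finsupp.mem_support_iff.2 hl3, hl2⟩, rfl⟩⟩
          have hcard := Finset.card_le_card hT1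
          rw [Finset.card_erase_of_mem hτT] at hcard
          obtain ⟨b, hbK, hbD⟩ := ihk c1 hc1K hc1D hc1G (by omega)
          refine ⟨b + ((-1 : ℤ) ^ (M + 1)) • appC τ bτ,
            AddSubgroup.add_mem _ hbK (AddSubgroup.zsmul_mem _ happK _), ?_⟩
          rw [map_add, map_zsmul, hbD, hc1, sub_add_cancel]
      intro c hc hD hG
      exact inner _ c hc hD hG le_rfl
  intro c hc hD
  refine main q c hc hD fun l hl x hx => ?_
  obtain ⟨⟨h1, -, -⟩, -⟩ := hc l hl
  rw [List.drop_eq_nil_of_le (by omega)] at hx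
  simp at hx

end Basic



section Coeff

variable {X B B' : Type*} [AddCommGroup B] [AddCommGroup B']

/-- change of coefficients -/
noncomputable def mapC (f : B →+ B') : (List X →₀ B) →+ (List X →₀ B') :=
  Finsupp.mapRange.addMonoidHom f

lemma mapC_apply (f : B →+ B') (c : List X →₀ B) (l : List X) : mapC f c l = f (c l) := rfl

lemma mapC_single (f : B →+ B') (l : List X) (b : B) :
    mapC f (Finsupp.single l b) = Finsupp.single l (f b) :=
  Finsupp.mapRange_single (hf := map_zero f)

lemma D_mapC (f : B →+ B') (c : List X →₀ B) : D (mapC f c) = mapC f (D c) := by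
  rw [← Finsupp.sum_single c, Finsupp.sum, map_sum, map_sum, map_sum, map_sum]
  refine Finset.sum_congr rfl fun l _ => ?_
  rw [mapC_single, D_single, D_single, map_sum]
  refine Finset.sum_congr rfl fun i _ => ?_
  rw [map_zsmul, mapC_single]

end Coeff

section Frames

open Matrix

variable {R : Type*} [Ring R] {n : ℕ}

/-- every column of length `c + g` can be reduced so that only the first `c` entries are nonzero -/
def ColRed (R : Type*) [Ring R] (c : ℕ) : Prop :=
  ∀ (g : ℕ) (x : Fin (c + g) → R), ∃ Q : (Matrix (Fin (c + g)) (Fin (c + g)) R)ˣ,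
    ∀ i : Fin g, ((Q : Matrix (Fin (c + g)) (Fin (c + g)) R) *ᵥ x) (Fin.natAdd c i) = 0

/-- every row of length `c + g` can be reduced so that only the first `c` entries are nonzero -/
def RowRed (R : Type*) [Ring R] (c : ℕ) : Prop :=
  ∀ (g : ℕ) (x : Fin (c + g) → R), ∃ Q : (Matrix (Fin (c + g)) (Fin (c + g)) R)ˣ,
    ∀ i : Fin g, (x ᵥ* (Q : Matrix (Fin (c + g)) (Fin (c + g)) R)) (Fin.natAdd c i) = 0

/-- pairs (vector, functional) -/
abbrev Pr (R : Type*) (n : ℕ) := (Fin n → R) × (Fin n → R)

/-- orthogonality -/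
def orth (x y : Pr R n) : Prop := x.1 ⬝ᵥ y.2 = 0 ∧ y.1 ⬝ᵥ x.2 = 0

/-- dual pairs orthogonal to a list -/
def SS (L : List (Pr R n)) : Set (Pr R n) :=
  {x | x.1 ⬝ᵥ x.2 = 1 ∧ ∀ y ∈ L, orth y x}

/-- frames annihilated by a list of conditions -/
lemma exists_frame {c : ℕ} (hcol : ColRed R c) (hrow : RowRed R c) (L : List (Pr R n)) :
    ∀ g : ℕ, g + 2 * c * L.length ≤ n → ∃ (P : Matrix (Fin g) (Fin n) R)
      (T : Matrix (Fin n) (Fin g) R), P * T = 1 ∧ ∀ y ∈ L, P *ᵥ y.2 = 0 ∧ y.1 ᵥ* T = 0 := by
  induction L with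
  | nil =>
    intro g hg
    simp only [List.length_nil, mul_zero, add_zero] at hg
    refine ⟨(1 : Matrix (Fin n) (Fin n) R).submatrix (Fin.castLE hg) id,
      (1 : Matrix (Fin n) (Fin n) R).submatrix id (Fin.castLE hg), ?_, by simp⟩
    ext i j
    rw [Matrix.mul_apply, Finset.sum_eq_single (Fin.castLE hg j)]
    · simp [Matrix.one_apply, Matrix.submatrix_apply, Fin.ext_iff]
    · intro x _ hx
      simp [Matrix.one_apply, Matrix.submatrix_apply, hx]
    · intro h; exact absurd (Finset.mem_univ _) h
  | cons y L ih =>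
    intro g hg
    obtain ⟨P, T, hPT, hL⟩ := ih (c + (c + g)) (by
      simp only [List.length_cons] at hg
      have : 2 * c * (L.length + 1) = 2 * c * L.length + 2 * c := by ring
      omega)
    -- first reduce the column `P *ᵥ y.2`
    obtain ⟨Q, hQ⟩ := hcol (c + g) (P *ᵥ y.2)
    set Qm : Matrix (Fin (c + (c + g))) (Fin (c + (c + g))) R := Q.val with hQm
    set Qi : Matrix (Fin (c + (c + g))) (Fin (c + (c + g))) R := (Q⁻¹).val with hQi
    have hQQ : Qm * Qi = 1 := Units.mul_inv Q
    set P1 : Matrix (Fin (c + g)) (Fin n) R := (Qm * P).submatrix (Fin.natAdd c) id with hP1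
    set T1 : Matrix (Fin n) (Fin (c + g)) R := (T * Qi).submatrix id (Fin.natAdd c) with hT1
    have hPT1 : P1 * T1 = 1 := by
      have h1 : (Qm * P) * (T * Qi) = 1 := by
        rw [Matrix.mul_assoc, ← Matrix.mul_assoc P, hPT, Matrix.one_mul, hQQ]
      ext i j
      have h2 := congrFun (congrFun h1 (Fin.natAdd c i)) (Fin.natAdd c j)
      rw [Matrix.mul_apply] at h2 ⊢
      simp only [hP1, hT1, Matrix.submatrix_apply, id]
      rw [h2]
      simp [Matrix.one_apply]
    have hP1y : P1 *ᵥ y.2 = 0 := by
      ext i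
      have := hQ i
      rw [Matrix.mulVec_mulVec] at this
      exact this
    have hP1L : ∀ z ∈ L, P1 *ᵥ z.2 = 0 := by
      intro z hz
      ext i
      have h2 : (Qm * P) *ᵥ z.2 = 0 := by
        rw [← Matrix.mulVec_mulVec, (hL z hz).1, Matrix.mulVec_zero]
      exact congrFun h2 (Fin.natAdd c i)
    have hT1L : ∀ z ∈ L, z.1 ᵥ* T1 = 0 := by
      intro z hz
      ext i
      have h2 : z.1 ᵥ* (T * Qi) = 0 := by
        rw [← Matrix.vecMul_vecMul, (hL z hz).2, Matrix.zero_vecMul]
      exact congrFun h2 (Fin.natAdd c i)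
    -- then reduce the row `y.1 ᵥ* T1`
    obtain ⟨Q', hQ'⟩ := hrow g (y.1 ᵥ* T1)
    set Q'm : Matrix (Fin (c + g)) (Fin (c + g)) R := Q'.val with hQ'm
    set Q'i : Matrix (Fin (c + g)) (Fin (c + g)) R := (Q'⁻¹).val with hQ'i
    have hQQ' : Q'i * Q'm = 1 := Units.inv_mul Q'
    set T2 : Matrix (Fin n) (Fin g) R := (T1 * Q'm).submatrix id (Fin.natAdd c) with hT2
    set P2 : Matrix (Fin g) (Fin n) R := (Q'i * P1).submatrix (Fin.natAdd c) id with hP2
    refine ⟨P2, T2, ?_, ?_⟩
    · have h1 : (Q'i * P1) * (T1 * Q'm) = 1 := by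
        rw [Matrix.mul_assoc, ← Matrix.mul_assoc P1, hPT1, Matrix.one_mul, hQQ']
      ext i j
      have h2 := congrFun (congrFun h1 (Fin.natAdd c i)) (Fin.natAdd c j)
      rw [Matrix.mul_apply] at h2 ⊢
      simp only [hP2, hT2, Matrix.submatrix_apply, id]
      rw [h2]
      simp [Matrix.one_apply]
    · have hPz : ∀ z : Pr R n, P1 *ᵥ z.2 = 0 → P2 *ᵥ z.2 = 0 := by
        intro z hz
        ext i
        have h2 : (Q'i * P1) *ᵥ z.2 = 0 := by
          rw [← Matrix.mulVec_mulVec, hz, Matrix.mulVec_zero]
        exact congrFun h2 (Fin.natAdd c i)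
      intro z hz
      rcases List.mem_cons.1 hz with rfl | hz
      · refine ⟨hPz _ hP1y, ?_⟩
        ext i
        have := hQ' i
        rw [Matrix.vecMul_vecMul] at this
        exact this
      · refine ⟨hPz _ (hP1L z hz), ?_⟩
        ext i
        have h2 : z.1 ᵥ* (T1 * Q'm) = 0 := by
          rw [← Matrix.vecMul_vecMul, hT1L z hz, Matrix.zero_vecMul]
        exact congrFun h2 (Fin.natAdd c i)

lemma exists_mem_SS {c : ℕ} (hcol : ColRed R c) (hrow : RowRed R c) (L : List (Pr R n))
    (h : 1 + 2 * c * L.length ≤ n) : ∃ x, x ∈ SS L := by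
  obtain ⟨P, T, hPT, hL⟩ := exists_frame hcol hrow L 1 h
  refine ⟨(P 0, fun i => T i 0), ?_, fun y hy => ⟨?_, ?_⟩⟩
  · have := congrFun (congrFun hPT 0) 0
    rw [Matrix.mul_apply, Matrix.one_apply_eq] at this
    exact this
  · exact congrFun (hL y hy).2 0
  · exact congrFun (hL y hy).1 0

lemma SS_inter (y0 : Pr R n) (τ L : List (Pr R n)) :
    SS (y0 :: L) ∩ {y | ∀ x ∈ τ, orth x y} = SS (τ ++ y0 :: L) := by
  ext y
  simp only [SS, Set.mem_inter_iff, Set.mem_ofPred_eq, List.mem_append, List.mem_cons]
  constructor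
  · rintro ⟨⟨h1, h2⟩, h3⟩
    refine ⟨h1, fun z hz => ?_⟩
    rcases hz with hz | hz
    · exact h3 z hz
    · exact h2 z hz
  · rintro ⟨h1, h2⟩
    exact ⟨⟨h1, fun z hz => h2 z (Or.inr hz)⟩, fun z hz => h2 z (Or.inl hz)⟩

/-- constant coefficients -/
theorem exact_const {c : ℕ} (hcol : ColRed R c) (hrow : RowRed R c) (q : ℕ) :
    ∀ L : List (Pr R n), 2 * c * L.length + 4 * c * q + 1 ≤ n →
      Ex orth (SS L) (fun _ => (⊤ : AddSubgroup R)) q := by
  induction q using Nat.strong_induction_on with
  | _ q ih =>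
    intro L hL
    obtain ⟨y0, hy0⟩ := exists_mem_SS hcol hrow L (by
      have : 0 ≤ 4 * c * q := Nat.zero_le _
      omega)
    have hsub : SS (y0 :: L) ⊆ SS L := fun x hx =>
      ⟨hx.1, fun y hy => hx.2 y (List.mem_cons_of_mem _ hy)⟩
    refine filtration (SS (y0 :: L)) hsub (fun _ _ _ => le_rfl) ?_ ?_
    · intro τ hτ _ _ hτq
      rw [SS_inter]
      have hpos : 1 ≤ τ.length := List.length_pos_iff.2 hτ
      apply ih (q - τ.length) (by omega)
      obtain ⟨q', hq'⟩ : ∃ q', q = τ.length + q' := ⟨q - τ.length, by omega⟩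
      have e : q - τ.length = q' := by omega
      rw [e]
      rw [hq'] at hL
      simp only [List.length_append, List.length_cons]
      nlinarith
    · intro d hd hD
      refine ⟨consC y0 d, ?_, by rw [D_consC, hD, map_zero, sub_zero]⟩
      intro l hl
      obtain ⟨ρ, rfl, hρ⟩ : ∃ ρ, l = y0 :: ρ ∧ d ρ ≠ 0 := by
        obtain ⟨ρ, h1, h2⟩ := appC_ne (τ := [y0]) (c := d) hl
        exact ⟨ρ, h1, h2⟩
      obtain ⟨⟨h1, h2, h3⟩, -⟩ := hd ρ hρ
      refine ⟨⟨by rw [List.length_cons, h1], ?_, ?_⟩, trivial⟩
      · rw [List.pairwise_cons]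
        exact ⟨fun x hx => (h3 x hx).2 y0 (List.mem_cons_self), h2⟩
      · intro x hx
        rcases List.mem_cons.1 hx with rfl | hx
        · exact hy0
        · exact hsub (h3 x hx)

/-- the coefficient groups: vectors annihilated by the functionals of two lists -/
def NV (L0 : List (Pr R n)) (l : List (Pr R n)) : AddSubgroup (Fin n → R) where
  carrier := {x | (∀ y ∈ L0, x ⬝ᵥ y.2 = 0) ∧ ∀ y ∈ l, x ⬝ᵥ y.2 = 0}
  zero_mem' := by simp
  add_mem' := by
    rintro a b ⟨h1, h2⟩ ⟨h3, h4⟩
    exact ⟨fun y hy => by rw [add_dotProduct, h1 y hy, h3 y hy, add_zero],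
      fun y hy => by rw [add_dotProduct, h2 y hy, h4 y hy, add_zero]⟩
  neg_mem' := by
    rintro a ⟨h1, h2⟩
    exact ⟨fun y hy => by rw [neg_dotProduct, h1 y hy, neg_zero],
      fun y hy => by rw [neg_dotProduct, h2 y hy, neg_zero]⟩

lemma mem_NV {L0 l : List (Pr R n)} {x : Fin n → R} :
    x ∈ NV L0 l ↔ (∀ y ∈ L0, x ⬝ᵥ y.2 = 0) ∧ ∀ y ∈ l, x ⬝ᵥ y.2 = 0 := Iff.rfl

lemma NV_append (L0 τ : List (Pr R n)) :
    (fun l => NV L0 (τ ++ l)) = NV (L0 ++ τ) := by
  ext l x
  simp only [mem_NV, List.mem_append]
  constructor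
  · rintro ⟨h1, h2⟩
    refine ⟨fun y hy => ?_, fun y hy => h2 y (Or.inr hy)⟩
    rcases hy with hy | hy
    · exact h1 y hy
    · exact h2 y (Or.inl hy)
  · rintro ⟨h1, h2⟩
    refine ⟨fun y hy => h1 y (Or.inl hy), fun y hy => ?_⟩
    rcases hy with hy | hy
    · exact h1 y (Or.inr hy)
    · exact h2 y hy

/-- vector coefficients -/
theorem exact_vec {c : ℕ} (hcol : ColRed R c) (hrow : RowRed R c) (q : ℕ) :
    ∀ L L0 : List (Pr R n), (∀ y ∈ L0, y ∈ L) → 2 * c * L.length + 4 * c * q + 2 * c + 1 ≤ n →
      Ex orth (SS L) (NV L0) q := by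
  induction q using Nat.strong_induction_on with
  | _ q ih =>
    intro L L0 hL0 hL
    obtain ⟨y0, hy0⟩ := exists_mem_SS hcol hrow L (by
      have : 0 ≤ 4 * c * q := Nat.zero_le _
      omega)
    have hsub : SS (y0 :: L) ⊆ SS L := fun x hx =>
      ⟨hx.1, fun y hy => hx.2 y (List.mem_cons_of_mem _ hy)⟩
    have hmono : ∀ l l' : List (Pr R n), List.Sublist l' l → NV L0 l ≤ NV L0 l' := by
      intro l l' hll x hx
      exact ⟨hx.1, fun y hy => hx.2 y (hll.subset hy)⟩
    refine filtration (SS (y0 :: L)) hsub hmono ?_ ?_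
    · intro τ hτ _ _ hτq
      rw [SS_inter, NV_append]
      have hpos : 1 ≤ τ.length := List.length_pos_iff.2 hτ
      apply ih (q - τ.length) (by omega)
      · intro y hy
        rcases List.mem_append.1 hy with h | h
        · exact List.mem_append.2 (Or.inr (List.mem_cons_of_mem _ (hL0 y h)))
        · exact List.mem_append.2 (Or.inl h)
      obtain ⟨q', hq'⟩ : ∃ q', q = τ.length + q' := ⟨q - τ.length, by omega⟩
      have e : q - τ.length = q' := by omega
      rw [e]
      rw [hq'] at hL
      simp only [List.length_append, List.length_cons]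
      nlinarith
    · intro z hz hD
      -- the two coefficient maps
      let f1 : (Fin n → R) →+ (Fin n → R) :=
        { toFun := fun x => x - (x ⬝ᵥ y0.2) • y0.1
          map_zero' := by simp
          map_add' := fun x y => by rw [add_dotProduct, add_smul]; abel }
      let f2 : (Fin n → R) →+ R :=
        { toFun := fun x => x ⬝ᵥ y0.2
          map_zero' := by simp
          map_add' := fun x y => add_dotProduct _ _ _ }
      let f3 : R →+ (Fin n → R) :=
        { toFun := fun r => r • y0.1
          map_zero' := by simp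
          map_add' := fun x y => add_smul _ _ _ }
      have hz2 : mapC f2 z ∈ K orth (SS (y0 :: L)) (fun _ => (⊤ : AddSubgroup R)) q := by
        intro l hl
        have : z l ≠ 0 := by
          intro h; apply hl; rw [mapC_apply, h, map_zero]
        exact ⟨(hz l this).1, trivial⟩
      obtain ⟨b2, hb2, hDb2⟩ := exact_const (n := n) hcol hrow q (y0 :: L) (by
        simp only [List.length_cons]
        nlinarith) (mapC f2 z) hz2 (by rw [D_mapC, hD, map_zero])
      refine ⟨consC y0 (mapC f1 z) + mapC f3 b2, ?_, ?_⟩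
      · refine AddSubgroup.add_mem _ ?_ ?_
        · intro l hl
          obtain ⟨ρ, rfl, hρ⟩ : ∃ ρ, l = y0 :: ρ ∧ mapC f1 z ρ ≠ 0 := by
            obtain ⟨ρ, h1, h2⟩ := appC_ne (τ := [y0]) (c := mapC f1 z) hl
            exact ⟨ρ, h1, h2⟩
          have hval : consC y0 (mapC f1 z) (y0 :: ρ) = mapC f1 z ρ :=
            appC_apply [y0] ρ (mapC f1 z)
          have hρ' : z ρ ≠ 0 := by
            intro h; apply hρ; rw [mapC_apply, h, map_zero]
          obtain ⟨⟨h1, h2, h3⟩, h4, h5⟩ := hz ρ hρ'
          refine ⟨⟨by rw [List.length_cons, h1], ?_, ?_⟩, ?_⟩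
          · rw [List.pairwise_cons]
            exact ⟨fun x hx => (h3 x hx).2 y0 (List.mem_cons_self), h2⟩
          · intro x hx
            rcases List.mem_cons.1 hx with rfl | hx
            · exact hy0
            · exact hsub (h3 x hx)
          · rw [hval, mapC_apply]
            change (∀ y ∈ L0, (z ρ - (z ρ ⬝ᵥ y0.2) • y0.1) ⬝ᵥ y.2 = 0) ∧
              ∀ y ∈ y0 :: ρ, (z ρ - (z ρ ⬝ᵥ y0.2) • y0.1) ⬝ᵥ y.2 = 0
            constructor
            · intro y hy
              rw [sub_dotProduct, smul_dotProduct, h4 y hy, (hy0.2 y (hL0 y hy)).2, smul_zero,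
                sub_zero]
            · intro y hy
              rcases List.mem_cons.1 hy with rfl | hy
              · rw [sub_dotProduct, smul_dotProduct, hy0.1, smul_eq_mul, mul_one, sub_self]
              · rw [sub_dotProduct, smul_dotProduct, h5 y hy,
                  ((h3 y hy).2 y0 (List.mem_cons_self)).1, smul_zero, sub_zero]
        · intro l hl
          have hl' : b2 l ≠ 0 := by
            intro h; apply hl; rw [mapC_apply, h, map_zero]
          obtain ⟨⟨h1, h2, h3⟩, -⟩ := hb2 l hl'
          refine ⟨⟨h1, h2, fun x hx => hsub (h3 x hx)⟩, ?_⟩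
          change (∀ y ∈ L0, (b2 l • y0.1) ⬝ᵥ y.2 = 0) ∧ ∀ y ∈ l, (b2 l • y0.1) ⬝ᵥ y.2 = 0
          constructor
          · intro y hy
            rw [smul_dotProduct, (hy0.2 y (hL0 y hy)).2, smul_zero]
          · intro y hy
            rw [smul_dotProduct, ((h3 y hy).2 y0 (List.mem_cons_self)).1, smul_zero]
      · rw [map_add, D_consC, D_mapC, hD, map_zero, map_zero, sub_zero, D_mapC, hDb2]
        ext1 l
        rw [Finsupp.add_apply, mapC_apply, mapC_apply, mapC_apply]
        change z l - (z l ⬝ᵥ y0.2) • y0.1 + (z l ⬝ᵥ y0.2) • y0.1 = z l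
        rw [sub_add_cancel]

end Frames
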