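import Pool.Agent.Helper607.Bases.Disproof
import Pool.Agent.Helper607.Bases.Cliques

/-!
# High acyclicity for rings with bounded reduction, in particular for principal ideal domains

Tuples with complement are translated into lists of pairwise orthogonal dual pairs
(`PBC.toList`), where the acyclicity is the theorem `Cliques.exact_vec`.
-/

namespace Pool.Agent.Helper607.Bases

open Pool.Agent.Helper607.Cliques

universe u

section Translate

variable {R : Type u} [Ring R] {n q : ℕ}

/-- the dual functionals -/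
noncomputable def PBC.w (σ : PBC R n q) : Fin q → (Fin n → R) := σ.exists_dual.choose

lemma PBC.w_spec (σ : PBC R n q) (i j : Fin q) : σ.v i ⬝ᵥ σ.w j = if i = j then 1 else 0 :=
  σ.exists_dual.choose_spec.1 i j

lemma PBC.w_C (σ : PBC R n q) {x : Fin n → R} (hx : x ∈ σ.C) (j : Fin q) : x ⬝ᵥ σ.w j = 0 :=
  σ.exists_dual.choose_spec.2 x hx j

lemma PBC.decomp (σ : PBC R n q) (x : Fin n → R) :
    ∃ (a : Fin q → R) (d : Fin n → R), d ∈ σ.C ∧ x = ∑ i, a i • σ.v i + d := by
  have : x ∈ Submodule.span R (Set.range σ.v) ⊔ σ.C := by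
    rw [σ.compl.sup_eq_top]; trivial
  obtain ⟨y, hy, c, hc, hyc⟩ := Submodule.mem_sup.1 this
  obtain ⟨r, hr⟩ := (Submodule.mem_span_range_iff_exists_fun R).1 hy
  exact ⟨r, c, hc, by rw [hr, hyc]⟩

lemma PBC.w_unique (σ : PBC R n q) (w' : Fin q → (Fin n → R))
    (h1 : ∀ i j, σ.v i ⬝ᵥ w' j = if i = j then 1 else 0) (h2 : ∀ x ∈ σ.C, ∀ j, x ⬝ᵥ w' j = 0) :
    w' = σ.w := by
  classical
  have key : ∀ (x : Fin n → R) (j : Fin q), x ⬝ᵥ w' j = x ⬝ᵥ σ.w j := by
    intro x j
    obtain ⟨a, d, hd, rfl⟩ := σ.decomp x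
    rw [add_dotProduct, add_dotProduct, h2 d hd j, σ.w_C hd j, sum_dotProduct, sum_dotProduct]
    simp only [smul_dotProduct, h1, σ.w_spec]
  funext j l
  have := key (Pi.single l 1) j
  simpa using this

lemma PBC.mem_C_iff (σ : PBC R n q) {x : Fin n → R} : x ∈ σ.C ↔ ∀ j, x ⬝ᵥ σ.w j = 0 := by
  classical
  refine ⟨fun h j => σ.w_C h j, fun h => ?_⟩
  obtain ⟨a, d, hd, rfl⟩ := σ.decomp x
  have h0 : ∀ j, a j = 0 := by
    intro j
    have h1 := h j
    rw [add_dotProduct, σ.w_C hd j, sum_dotProduct, add_zero] at h1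
    simpa [smul_dotProduct, σ.w_spec] using h1
  have : ∑ i, a i • σ.v i = 0 := Finset.sum_eq_zero fun i _ => by rw [h0 i, zero_smul]
  rw [this, zero_add]; exact hd

/-- the list of dual pairs of a tuple with complement -/
noncomputable def PBC.toList (σ : PBC R n q) : List (Pr R n) :=
  List.ofFn fun i => (σ.v i, σ.w i)

lemma PBC.toList_injective : Function.Injective (PBC.toList : PBC R n q → List (Pr R n)) := by
  intro σ τ h
  have h1 := List.ofFn_injective h
  have hv : σ.v = τ.v := by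
    funext i; exact congrArg Prod.fst (congrFun h1 i)
  have hw : σ.w = τ.w := by
    funext i; exact congrArg Prod.snd (congrFun h1 i)
  apply PBC.ext hv
  ext x
  rw [σ.mem_C_iff, τ.mem_C_iff, hw]

lemma PBC.face_w (σ : PBC R n (q + 1)) (i : Fin (q + 1)) :
    (fun j => σ.w (i.succAbove j)) = (σ.face i).w := by
  apply PBC.w_unique
  · intro a b
    change σ.v (i.succAbove a) ⬝ᵥ σ.w (i.succAbove b) = _
    rw [σ.w_spec]
    simp [Fin.succAbove_right_injective.eq_iff]
  · intro x hx j
    obtain ⟨y, hy, z, hz, rfl⟩ := Submodule.mem_sup.1 (show x ∈ σ.C ⊔ Submodule.span R {σ.v i} from hx)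
    obtain ⟨r, rfl⟩ := Submodule.mem_span_singleton.1 hz
    rw [add_dotProduct, σ.w_C hy, smul_dotProduct, σ.w_spec, if_neg, smul_zero, add_zero]
    exact (Fin.succAbove_ne i j).symm

lemma PBC.toList_face (σ : PBC R n (q + 1)) (i : Fin (q + 1)) :
    (σ.face i).toList = σ.toList.eraseIdx i := by
  have h1 : (σ.face i).toList = List.ofFn fun j => (σ.v (i.succAbove j), σ.w (i.succAbove j)) := by
    unfold PBC.toList
    rw [← PBC.face_w]
    rfl
  rw [h1]
  apply List.ext_getElem
  · simp [PBC.toList, List.length_eraseIdx]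
    omega
  · intro k h2 h3
    rw [List.getElem_eraseIdx]
    simp only [PBC.toList, List.getElem_ofFn]
    split_ifs with h4
    · rw [Fin.succAbove_of_castSucc_lt _ _ (by simpa [Fin.lt_def] using h4)]
      rfl
    · rw [Fin.succAbove_of_le_castSucc _ _ (by simpa [Fin.le_def] using h4)]
      rfl

lemma PBC.toList_adm (σ : PBC R n q) : Adm orth (SS ([] : List (Pr R n))) q σ.toList := by
  refine ⟨by simp [PBC.toList], ?_, ?_⟩
  · rw [PBC.toList, List.pairwise_ofFn]
    intro i j hij
    refine ⟨?_, ?_⟩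
    · simp only [σ.w_spec, if_neg hij.ne]
    · simp only [σ.w_spec, if_neg hij.ne']
  · intro x hx
    obtain ⟨i, rfl⟩ := (List.mem_ofFn' _ _).1 hx
    refine ⟨?_, by simp⟩
    simp [σ.w_spec]

lemma PBC.mem_NV_iff (σ : PBC R n q) {x : Fin n → R} : x ∈ NV [] σ.toList ↔ x ∈ σ.C := by
  rw [mem_NV, σ.mem_C_iff]
  constructor
  · rintro ⟨-, h⟩ j
    exact h (σ.v j, σ.w j) ((List.mem_ofFn' _ _).2 ⟨j, rfl⟩)
  · intro h
    refine ⟨by simp, fun y hy => ?_⟩
    obtain ⟨i, rfl⟩ := (List.mem_ofFn' _ _).1 hy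
    exact h i

lemma PBC.exists_of_adm (hq : q ≤ n) {l : List (Pr R n)}
    (h : Adm orth (SS ([] : List (Pr R n))) q l) : ∃ σ : PBC R n q, σ.toList = l := by
  classical
  obtain ⟨h1, h2, h3⟩ := h
  obtain ⟨f, rfl⟩ : ∃ f : Fin q → Pr R n, l = List.ofFn f := by
    subst h1
    exact ⟨l.get, (List.ofFn_get l).symm⟩
  rw [List.pairwise_ofFn] at h2
  have hd : ∀ i j, (f i).1 ⬝ᵥ (f j).2 = if i = j then 1 else 0 := by
    intro i j
    split_ifs with h
    · subst h
      exact (h3 (f i) ((List.mem_ofFn' _ _).2 ⟨i, rfl⟩)).1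
    · rcases lt_or_gt_of_ne h with h | h
      · exact (h2 h).1
      · exact (h2 h).2
  have hsum : ∀ (a : Fin q → R) (j : Fin q), (∑ i, a i • (f i).1) ⬝ᵥ (f j).2 = a j := by
    intro a j
    rw [sum_dotProduct]
    simp [smul_dotProduct, hd]
  let σ : PBC R n q :=
    { le := hq
      v := fun i => (f i).1
      C :=
        { carrier := {x | ∀ j, x ⬝ᵥ (f j).2 = 0}
          add_mem' := fun {a b} ha hb j => by rw [add_dotProduct, ha j, hb j, add_zero]
          zero_mem' := fun j => by simp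
          smul_mem' := fun r x hx j => by rw [smul_dotProduct, hx j, smul_zero] }
      indep := by
        rw [Fintype.linearIndependent_iff]
        intro g hg i
        rw [← hsum g i, hg, zero_dotProduct]
      compl := by
        constructor
        · rw [Submodule.disjoint_def]
          intro x hx hx'
          obtain ⟨a, rfl⟩ := (Submodule.mem_span_range_iff_exists_fun R).1 hx
          have : ∀ j, a j = 0 := fun j => by rw [← hsum a j]; exact hx' j
          exact Finset.sum_eq_zero fun i _ => by rw [this i, zero_smul]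
        · rw [codisjoint_iff, eq_top_iff]
          intro x _
          rw [Submodule.mem_sup]
          refine ⟨∑ i, (x ⬝ᵥ (f i).2) • (f i).1,
            Submodule.sum_mem _ fun i _ => Submodule.smul_mem _ _ (Submodule.subset_span ⟨i, rfl⟩),
            x - ∑ i, (x ⬝ᵥ (f i).2) • (f i).1, fun j => ?_, by abel⟩
          rw [sub_dotProduct, hsum, sub_self] }
  refine ⟨σ, ?_⟩
  have hw : (fun i => (f i).2) = σ.w := by
    apply σ.w_unique
    · exact hd
    · intro x hx j
      exact hx j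
  unfold PBC.toList
  rw [← hw]

/-- the boundary is compatible with the translation -/
lemma D_mapDomain (c : PBC R n (q + 1) →₀ (Fin n → R)) :
    D (Finsupp.mapDomain PBC.toList c) = Finsupp.mapDomain PBC.toList (bd R n q c) := by
  rw [bd_eq]
  have key : (D.comp (Finsupp.mapDomain.addMonoidHom (PBC.toList (R := R) (n := n) (q := q + 1))) :
      (PBC R n (q + 1) →₀ (Fin n → R)) →+ (List (Pr R n) →₀ (Fin n → R)))
      = (Finsupp.mapDomain.addMonoidHom (PBC.toList (R := R) (n := n) (q := q))).comp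
        (bdL R n q).toAddMonoidHom := by
    apply Finsupp.addHom_ext
    intro σ x
    simp only [AddMonoidHom.comp_apply, Finsupp.mapDomain.addMonoidHom_apply,
      Finsupp.mapDomain_single, LinearMap.toAddMonoidHom_coe]
    rw [D_single, bdL_single]
    rw [← Finsupp.mapDomain.addMonoidHom_apply, map_sum]
    simp only [map_zsmul, Finsupp.mapDomain.addMonoidHom_apply, Finsupp.mapDomain_single,
      PBC.toList_face]
    have hlen : σ.toList.length = q + 1 := by simp [PBC.toList]
    rw [hlen, Finset.sum_range]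
  exact DFunLike.congr_fun key c

lemma mapDomain_mem {c : PBC R n q →₀ (Fin n → R)} (hc : c ∈ tupleChains R n q) :
    Finsupp.mapDomain PBC.toList c ∈ K orth (SS []) (NV []) q := by
  intro l hl
  have hr : l ∈ Set.range (PBC.toList : PBC R n q → List (Pr R n)) := by
    by_contra h
    exact hl (Finsupp.mapDomain_of_notMem_range c l h)
  obtain ⟨σ, rfl⟩ := hr
  refine ⟨σ.toList_adm, ?_⟩
  rw [Finsupp.mapDomain_apply PBC.toList_injective, σ.mem_NV_iff]
  exact hc σ

lemma exists_preimage (hq : q ≤ n) {b : List (Pr R n) →₀ (Fin n → R)}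
    (hb : b ∈ K orth (SS []) (NV []) q) :
    ∃ c ∈ tupleChains R n q, Finsupp.mapDomain PBC.toList c = b := by
  have hinj : Function.Injective (PBC.toList : PBC R n q → List (Pr R n)) := PBC.toList_injective
  refine ⟨Finsupp.comapDomain PBC.toList b hinj.injOn, fun σ => ?_, ?_⟩
  · rw [Finsupp.comapDomain_apply, ← σ.mem_NV_iff]
    by_cases h : b σ.toList = 0
    · rw [h]; exact (NV [] σ.toList).zero_mem
    · exact (hb _ h).2
  · refine Finsupp.mapDomain_comapDomain _ hinj _ fun l hl => ?_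
    obtain ⟨σ, hσ⟩ := PBC.exists_of_adm hq (hb l (Finsupp.mem_support_iff.1 hl)).1
    exact ⟨σ, hσ⟩

theorem vanishes_of_exact (hq : q + 1 ≤ n)
    (h : Ex orth (SS ([] : List (Pr R n))) (NV []) q) : HomologyVanishes n (tupleChains R n) q := by
  have main : ∀ c ∈ tupleChains R n q, D (Finsupp.mapDomain PBC.toList c) = 0 →
      ∃ b ∈ tupleChains R n (q + 1), bd R n q b = c := by
    intro c hc hD
    obtain ⟨b, hb, hbD⟩ := h _ (mapDomain_mem hc) hD
    obtain ⟨b', hb', rfl⟩ := exists_preimage hq hb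
    refine ⟨b', hb', ?_⟩
    rw [D_mapDomain] at hbD
    exact Finsupp.mapDomain_injective PBC.toList_injective hbD
  cases q with
  | zero =>
    intro c hc
    refine main c hc ?_
    rw [← Finsupp.sum_single c, Finsupp.sum, Finsupp.mapDomain_finsetSum, map_sum]
    refine Finset.sum_eq_zero fun σ _ => ?_
    rw [Finsupp.mapDomain_single, D_single]
    simp [PBC.toList]
  | succ q =>
    intro c hc hbd
    refine main c hc ?_
    rw [D_mapDomain, hbd, Finsupp.mapDomain_zero]

/-- rings with bounded reduction of rows and columns -/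
theorem tuple_vanishes {c : ℕ} (hcol : ColRed R c) (hrow : RowRed R c)
    (h : 4 * c * q + 2 * c + 1 ≤ n) (hq : q + 1 ≤ n) : HomologyVanishes n (tupleChains R n) q :=
  vanishes_of_exact hq (exact_vec hcol hrow q [] [] (by simp) (by simpa using h))

/-- rings with bounded reduction of rows and columns: high acyclicity -/
theorem tuple_highlyAcyclic {c : ℕ} (hcol : ColRed R c) (hrow : RowRed R c) :
    HighlyAcyclic (tupleChains R) := by
  have hc : (0 : ℤ) < 4 * c + 1 := by positivity
  refine ⟨fun n => ((n : ℤ) - (2 * c + 1)) / (4 * c + 1) - 1, ?_, fun n _ q hq => ?_⟩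
  · rw [Filter.tendsto_atTop_atTop]
    intro b
    refine ⟨((b + 1) * (4 * c + 1) + (2 * c + 1)).toNat, fun a ha => ?_⟩
    have h1 : (b + 1) * (4 * c + 1) + (2 * c + 1) ≤ (a : ℤ) :=
      (Int.self_le_toNat _).trans (by exact_mod_cast ha)
    have h2 : b + 1 ≤ ((a : ℤ) - (2 * c + 1)) / (4 * c + 1) := by
      rw [Int.le_ediv_iff_mul_le hc]
      linarith
    change b ≤ ((a : ℤ) - (2 * c + 1)) / (4 * c + 1) - 1
    linarith
  · have h1 : (q : ℤ) - 1 ≤ ((n : ℤ) - (2 * c + 1)) / (4 * c + 1) - 1 := hq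
    have h2 : (q : ℤ) ≤ ((n : ℤ) - (2 * c + 1)) / (4 * c + 1) := by linarith
    rw [Int.le_ediv_iff_mul_le hc] at h2
    have h3 : q * (4 * c + 1) + (2 * c + 1) ≤ n := by
      have : (q : ℤ) * (4 * c + 1) + (2 * c + 1) ≤ n := by linarith
      exact_mod_cast this
    have h4 : 0 ≤ q * c := Nat.zero_le _
    exact tuple_vanishes hcol hrow (by nlinarith) (by nlinarith)

end Translate

section PID

open Matrix

variable {R : Type u} [CommRing R] [IsDomain R] [IsPrincipalIdealRing R]

lemma exists_equiv (g : ℕ) (x : Fin (1 + g) → R) : ∃ e : (Fin (1 + g) → R) ≃ₗ[R] (Fin (1 + g) → R),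
    ∀ i : Fin g, e x (Fin.natAdd 1 i) = 0 := by
  classical
  by_cases hx : x = 0
  · exact ⟨LinearEquiv.refl R _, fun i => by simp [hx]⟩
  have hli : LinearIndependent R (fun _ : Fin 1 => x) := by
    rw [Fintype.linearIndependent_iff]
    intro r hr i
    have h1 : r 0 • x = 0 := by simpa using hr
    rw [Subsingleton.elim i 0]
    exact (smul_eq_zero.1 h1).resolve_right hx
  obtain ⟨m, bM, bN, f, a, snf⟩ :=
    Submodule.smithNormalForm (Pi.basisFun R (Fin (1 + g)))
      (Submodule.span R (Set.range fun _ : Fin 1 => x))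
  have hmem : x ∈ Submodule.span R (Set.range fun _ : Fin 1 => x) :=
    Submodule.subset_span ⟨0, rfl⟩
  have hm : m = 1 := by
    have h1 := Module.finrank_eq_card_basis bN
    have h2 := Module.finrank_eq_card_basis (Module.Basis.span hli)
    rw [h1, Fintype.card_fin, Fintype.card_fin] at h2
    exact h2
  subst hm
  let e : (Fin (1 + g) → R) ≃ₗ[R] (Fin (1 + g) → R) :=
    bM.equiv (Pi.basisFun R (Fin (1 + g))) (Equiv.swap (f 0) ⟨0, by omega⟩)
  refine ⟨e, fun i => ?_⟩
  have hx2 : ∃ r : R, x = r • bM (f 0) := by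
    have h2 : (⟨x, hmem⟩ : Submodule.span R (Set.range fun _ : Fin 1 => x))
        = ∑ i, bN.repr ⟨x, hmem⟩ i • bN i := (bN.sum_repr _).symm
    have h3 := congrArg Subtype.val h2
    simp only [Fin.sum_univ_one, Submodule.coe_smul, snf] at h3
    exact ⟨_, h3.trans (smul_smul _ _ _)⟩
  obtain ⟨r, hr⟩ := hx2
  have h4 : e x = r • Pi.single ⟨0, by omega⟩ 1 := by
    conv_lhs => rw [hr]
    rw [map_smul]
    congr 1
    simp only [e, Module.Basis.equiv_apply, Equiv.swap_apply_left, Pi.basisFun_apply]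
  rw [h4, Pi.smul_apply, Pi.single_eq_of_ne, smul_zero]
  intro h
  have := congrArg Fin.val h
  simp at this

lemma colRed_pid : ColRed R 1 := by
  intro g x
  obtain ⟨e, he⟩ := exists_equiv g x
  let e1 : (Fin (1 + g) → R) →ₗ[R] (Fin (1 + g) → R) := e
  let e2 : (Fin (1 + g) → R) →ₗ[R] (Fin (1 + g) → R) := e.symm
  have h12 : e1 ∘ₗ e2 = LinearMap.id := by ext1 y; simp [e1, e2]
  have h21 : e2 ∘ₗ e1 = LinearMap.id := by ext1 y; simp [e1, e2]
  refine ⟨⟨LinearMap.toMatrix' e1, LinearMap.toMatrix' e2, ?_, ?_⟩, fun i => ?_⟩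
  · rw [← LinearMap.toMatrix'_comp, h12, LinearMap.toMatrix'_id]
  · rw [← LinearMap.toMatrix'_comp, h21, LinearMap.toMatrix'_id]
  · change (LinearMap.toMatrix' e1 *ᵥ x) _ = 0
    rw [LinearMap.toMatrix'_mulVec]
    exact he i

lemma rowRed_pid : RowRed R 1 := by
  intro g x
  obtain ⟨Q, hQ⟩ := colRed_pid (R := R) g x
  refine ⟨⟨(Q.val)ᵀ, (Q⁻¹.val)ᵀ, ?_, ?_⟩, fun i => ?_⟩
  · rw [← Matrix.transpose_mul, Units.inv_mul, Matrix.transpose_one]
  · rw [← Matrix.transpose_mul, Units.mul_inv, Matrix.transpose_one]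
  · change (x ᵥ* (Q.val)ᵀ) _ = 0
    rw [Matrix.vecMul_transpose]
    exact hQ i

/-- over a principal ideal domain every tuple with complement is in the standard orbit -/
lemma inOrbit_pid {n q : ℕ} (σ : PBC R n q) : σ.InOrbit := by
  classical
  obtain ⟨m, bC⟩ := Submodule.basisOfPid (Pi.basisFun R (Fin n)) σ.C
  let bS : Module.Basis (Fin q) R (Submodule.span R (Set.range σ.v)) := Module.Basis.span σ.indep
  let b : Module.Basis (Fin q ⊕ Fin m) R (Fin n → R) :=
    (bS.prod bC).map (Submodule.prodEquivOfIsCompl _ _ σ.compl)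
  have hcard : q + m = n := by
    have h1 := Module.finrank_eq_card_basis b
    rw [Module.finrank_fin_fun] at h1
    simpa using h1.symm
  let ι : Fin n ≃ Fin q ⊕ Fin m := (finCongr hcard.symm).trans finSumFinEquiv.symm
  let g : (Fin n → R) ≃ₗ[R] (Fin n → R) := (Pi.basisFun R (Fin n)).equiv b ι
  have hg : ∀ j, g (Pi.single j 1) = b (ι j) := by
    intro j
    rw [← Pi.basisFun_apply R (Fin n) j]
    exact Module.Basis.equiv_apply _ _ _ _
  have hι1 : ∀ i : Fin q, ι (Fin.castLE σ.le i) = Sum.inl i := by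
    intro i
    rw [← Equiv.eq_symm_apply]
    ext
    simp [ι]
  have hι2 : ∀ i : Fin m, ∃ j : Fin n, q ≤ j ∧ ι j = Sum.inr i := by
    intro i
    refine ⟨⟨q + i, by omega⟩, by simp, ?_⟩
    rw [← Equiv.eq_symm_apply]
    ext
    simp [ι]
  have hι3 : ∀ j : Fin n, q ≤ j → ∃ i : Fin m, ι j = Sum.inr i := by
    intro j hj
    refine ⟨⟨j - q, by omega⟩, ?_⟩
    rw [← Equiv.eq_symm_apply]
    ext
    simp [ι]
    omega
  have hb1 : ∀ i : Fin q, b (Sum.inl i) = σ.v i := by
    intro i
    simp [b, bS, Module.Basis.span_apply]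
  have hb2 : ∀ i : Fin m, b (Sum.inr i) = bC i := by
    intro i
    simp [b]
  refine ⟨g, fun i => ?_, ?_⟩
  · rw [hg, hι1, hb1]
  · rw [Submodule.map_span]
    have hset : ((g : (Fin n → R) →ₗ[R] (Fin n → R)) '' {x | ∃ j : Fin n, q ≤ j ∧ x = Pi.single j 1})
        = (σ.C.subtype) '' Set.range bC := by
      ext x
      constructor
      · rintro ⟨_, ⟨j, hj, rfl⟩, rfl⟩
        obtain ⟨i, hi⟩ := hι3 j hj
        refine ⟨bC i, ⟨i, rfl⟩, ?_⟩
        change _ = g (Pi.single j 1)
        rw [hg, hi, hb2]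
        rfl
      · rintro ⟨_, ⟨i, rfl⟩, rfl⟩
        obtain ⟨j, hj, hji⟩ := hι2 i
        refine ⟨Pi.single j 1, ⟨j, hj, rfl⟩, ?_⟩
        change g (Pi.single j 1) = _
        rw [hg, hji, hb2]
        rfl
    rw [hset, ← Submodule.map_span, bC.span_eq, Submodule.map_top, Submodule.range_subtype]

lemma induced_eq_tuple (n q : ℕ) : inducedChains R n q = tupleChains R n q := by
  ext c
  exact ⟨fun h σ => (h σ).1, fun h σ => ⟨h σ, fun _ => inOrbit_pid σ⟩⟩

theorem pid_vanishes {n q : ℕ} (h : 4 * q + 3 ≤ n) :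
    HomologyVanishes n (tupleChains R n) q ∧ HomologyVanishes n (inducedChains R n) q := by
  have h1 : HomologyVanishes n (tupleChains R n) q :=
    tuple_vanishes colRed_pid rowRed_pid (by omega) (by omega)
  refine ⟨h1, ?_⟩
  have : (inducedChains R n) = (tupleChains R n) := by
    funext q; exact induced_eq_tuple n q
  rw [this]; exact h1

omit [IsDomain R] [IsPrincipalIdealRing R] in
lemma highlyAcyclic_of {K : ∀ n q, Set (PBC R n q →₀ (Fin n → R))}
    (h : ∀ n q, 4 * q + 3 ≤ n → HomologyVanishes n (K n) q) : HighlyAcyclic K := by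
  refine ⟨fun n => ((n : ℤ) - 7) / 4, ?_, fun n _ q hq => h n q ?_⟩
  · rw [Filter.tendsto_atTop_atTop]
    intro b
    refine ⟨(4 * b + 7).toNat, fun a ha => ?_⟩
    have : 4 * b + 7 ≤ (a : ℤ) := by omega
    omega
  · have h1 : (q : ℤ) - 1 ≤ ((n : ℤ) - 7) / 4 := hq
    omega

theorem pid_highlyAcyclic : HighlyAcyclic (tupleChains R) ∧ HighlyAcyclic (inducedChains R) :=
  ⟨highlyAcyclic_of fun _ _ h => (pid_vanishes h).1,
    highlyAcyclic_of fun _ _ h => (pid_vanishes h).2⟩

end PID

end Pool.Agent.Helper607.Bases
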