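import Mathlib

/-!
# The complexes of bases with complements, with coefficients in `R^n`

* `PBC R n q`: the tuples `(v_0, ..., v_{q-1}, C)` of size `q = p + 1`;
* `PBC.face σ i`: move `v_i` into the complement;
* `bd`: the differential `(σ, w) ↦ ∑_i (-1)^i (face_i σ, w)`;
* `tupleChains`: `⊕_σ C_σ` over all tuples;
* `inducedChains`: `⊕_σ C_σ` over the `GL_n(R)`-orbit of the standard tuple, which is
  `R GL_n(R) ⊗_{R GL_{n-q}(R)} R^{n-q}`;
* `HighlyAcyclic`.

Section `Sanity` proves that the differential squares to zero and preserves both kinds of chains.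
-/

namespace Pool.Agent.Helper607.Bases

universe u

/-- A basis of a free summand of the left module `R^n` together with a complement, of size `q`
(`q = p + 1` in the usual numbering, so `0 ≤ q ≤ n`): vectors `v_0, ..., v_{q-1}` forming a basis
of the free submodule they span, and a submodule `C` with `R^n = span(v_0, ..., v_{q-1}) ⊕ C`. -/
@[ext]
structure PBC (R : Type u) [Ring R] (n q : ℕ) where
  le : q ≤ n
  v : Fin q → (Fin n → R)
  C : Submodule R (Fin n → R)
  indep : LinearIndependent R v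
  compl : IsCompl (Submodule.span R (Set.range v)) C

section Complex

variable {R : Type u} [Ring R] {n q : ℕ}

/-- After moving `v_i` into the complement one still has a complement. -/
lemma PBC.face_compl (σ : PBC R n (q + 1)) (i : Fin (q + 1)) :
    IsCompl (Submodule.span R (Set.range fun j => σ.v (i.succAbove j)))
      (σ.C ⊔ Submodule.span R {σ.v i}) := by
  have hspan : Submodule.span R (Set.range fun j => σ.v (i.succAbove j))
      ⊔ Submodule.span R {σ.v i} = Submodule.span R (Set.range σ.v) := by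
    rw [← Submodule.span_union]
    congr 1
    ext x
    constructor
    · rintro (⟨j, rfl⟩ | rfl)
      · exact ⟨_, rfl⟩
      · exact ⟨_, rfl⟩
    · rintro ⟨j, rfl⟩
      rcases Fin.eq_self_or_eq_succAbove i j with h | ⟨l, h⟩
      · right; rw [h]; rfl
      · left; exact ⟨l, by rw [h]⟩
  have hdisj : Disjoint (Submodule.span R (Set.range fun j => σ.v (i.succAbove j)))
      (Submodule.span R {σ.v i}) := by
    have h1 : (Set.range fun j => σ.v (i.succAbove j)) = σ.v '' (Set.range i.succAbove) := by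
      rw [← Set.range_comp]; rfl
    have h2 : ({σ.v i} : Set (Fin n → R)) = σ.v '' {i} := by simp
    rw [h1, h2]
    apply σ.indep.disjoint_span_image
    rw [Set.disjoint_singleton_right, Fin.range_succAbove]
    simp
  constructor
  · rw [sup_comm]
    refine Disjoint.disjoint_sup_right_of_disjoint_sup_left hdisj ?_
    rw [hspan]
    exact σ.compl.disjoint
  · rw [codisjoint_iff, sup_comm σ.C, ← sup_assoc, hspan]
    exact σ.compl.sup_eq_top

/-- The `i`-th face: the vector `v_i` is moved into the complement. -/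
def PBC.face (σ : PBC R n (q + 1)) (i : Fin (q + 1)) : PBC R n q where
  le := (Nat.le_succ q).trans σ.le
  v := fun j => σ.v (i.succAbove j)
  C := σ.C ⊔ Submodule.span R {σ.v i}
  indep := σ.indep.comp _ Fin.succAbove_right_injective
  compl := σ.face_compl i

/-- `σ = g · (e_1, ..., e_q, span(e_{q+1}, ..., e_n))` for some automorphism `g ∈ GL_n(R)` of
the left module `R^n`. -/
def PBC.InOrbit (σ : PBC R n q) : Prop :=
  ∃ g : (Fin n → R) ≃ₗ[R] (Fin n → R),
    (∀ i : Fin q, σ.v i = g (Pi.single (Fin.castLE σ.le i) 1)) ∧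
    σ.C = (Submodule.span R {x | ∃ j : Fin n, q ≤ j ∧ x = Pi.single j 1}).map
      (g : (Fin n → R) →ₗ[R] (Fin n → R))

variable (R n q)

/-- The differential, defined on all of `⊕_σ R^n`: `(σ, w) ↦ ∑_i (-1)^i (face_i σ, w)`. -/
noncomputable def bd (c : PBC R n (q + 1) →₀ (Fin n → R)) : PBC R n q →₀ (Fin n → R) :=
  c.sum fun σ w => ∑ i : Fin (q + 1), Finsupp.single (σ.face i) ((-1 : R) ^ (i : ℕ) • w)

/-- Chains in degree `p = q - 1`: the sum of the `C_σ` over all tuples `σ` of size `q`, i.e.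
finitely supported families `σ ↦ w_σ` with `w_σ ∈ C_σ`. -/
def tupleChains : Set (PBC R n q →₀ (Fin n → R)) :=
  {c | ∀ σ, c σ ∈ σ.C}

/-- Chains in degree `p = q - 1` of the induced form `R GL_n ⊗_{R GL_{n-q}} R^{n-q}`: the sum of
the `C_σ` over the `GL_n(R)`-orbit of the standard tuple `(e_1, ..., e_q, span(e_{q+1}, ..., e_n))`
(whose stabiliser is `GL_{n-q}(R)`). -/
def inducedChains : Set (PBC R n q →₀ (Fin n → R)) :=
  {c | ∀ σ, c σ ∈ σ.C ∧ (c σ ≠ 0 → σ.InOrbit)}

variable {R}

/-- Vanishing of the homology in degree `q - 1` of the augmented complex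
`⋯ → K_2 → K_1 → K_0 → 0` (`K_q` sits in degree `q - 1`) inside `⊕_σ R^n`. -/
def HomologyVanishes (n : ℕ) (K : ∀ q, Set (PBC R n q →₀ (Fin n → R))) : ℕ → Prop
  | 0 => ∀ c ∈ K 0, ∃ b ∈ K 1, bd R n 0 b = c
  | q + 1 => ∀ c ∈ K (q + 1), bd R n q c = 0 → ∃ b ∈ K (q + 2), bd R n (q + 1) b = c

/-- A family of complexes (one for each `n ≥ 1`) is highly acyclic if for some `f` with
`f(n) → ∞`, the homology of the `n`-th complex vanishes in all degrees `≤ f(n)`. -/
def HighlyAcyclic (K : ∀ n q, Set (PBC R n q →₀ (Fin n → R))) : Prop :=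
  ∃ f : ℕ → ℤ, Filter.Tendsto f Filter.atTop Filter.atTop ∧
    ∀ n, 1 ≤ n → ∀ q : ℕ, (q : ℤ) - 1 ≤ f n → HomologyVanishes n (K n) q

variable (R)

/-- The differential as a linear map. -/
noncomputable def bdL : (PBC R n (q + 1) →₀ (Fin n → R)) →ₗ[R] (PBC R n q →₀ (Fin n → R)) :=
  Finsupp.lsum ℕ fun σ => ∑ i : Fin (q + 1), ((-1 : ℤ) ^ (i : ℕ)) • Finsupp.lsingle (σ.face i)

/-- Chains as a submodule. -/
def tupleSub : Submodule R (PBC R n q →₀ (Fin n → R)) where
  carrier := tupleChains R n q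
  add_mem' ha hb σ := σ.C.add_mem (ha σ) (hb σ)
  zero_mem' σ := σ.C.zero_mem
  smul_mem' r _ hc σ := σ.C.smul_mem r (hc σ)

/-- Induced chains as a submodule. -/
def inducedSub : Submodule R (PBC R n q →₀ (Fin n → R)) where
  carrier := inducedChains R n q
  add_mem' := by
    intro a b ha hb σ
    refine ⟨σ.C.add_mem (ha σ).1 (hb σ).1, fun h => ?_⟩
    by_cases h0 : a σ = 0
    · refine (hb σ).2 fun h1 => h ?_
      rw [Finsupp.add_apply, h0, h1, add_zero]
    · exact (ha σ).2 h0
  zero_mem' σ := ⟨σ.C.zero_mem, fun h => absurd rfl h⟩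
  smul_mem' := by
    intro r c hc σ
    refine ⟨σ.C.smul_mem r (hc σ).1, fun h => (hc σ).2 fun h1 => h ?_⟩
    rw [Finsupp.smul_apply, h1, smul_zero]

variable {R}

lemma neg_one_pow_smul (i : ℕ) (w : Fin n → R) : (-1 : R) ^ i • w = ((-1 : ℤ) ^ i) • w := by
  rcases Nat.even_or_odd i with h | h
  · rw [h.neg_one_pow, h.neg_one_pow, one_smul, one_smul]
  · rw [h.neg_one_pow, h.neg_one_pow, neg_smul, neg_smul, one_smul, one_smul]

lemma bdL_single (σ : PBC R n (q + 1)) (x : Fin n → R) :
    bdL R n q (Finsupp.single σ x)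
      = ∑ i : Fin (q + 1), ((-1 : ℤ) ^ (i : ℕ)) • Finsupp.single (σ.face i) x := by
  simp [bdL]

lemma bd_eq (c : PBC R n (q + 1) →₀ (Fin n → R)) : bd R n q c = bdL R n q c := by
  rw [bdL, Finsupp.lsum_apply, bd]
  refine Finsupp.sum_congr fun σ _ => ?_
  rw [LinearMap.sum_apply]
  refine Finset.sum_congr rfl fun i _ => ?_
  rw [LinearMap.smul_apply, Finsupp.lsingle_apply, neg_one_pow_smul, Finsupp.smul_single]

end Complex

section Sanity

variable {R : Type u} [Ring R] {n q : ℕ}

lemma face_face (σ : PBC R n (q + 2)) (a : Fin (q + 2)) (b : Fin (q + 1)) (a' : Fin (q + 2))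
    (b' : Fin (q + 1)) (h1 : (b : ℕ) = a') (h2 : (a : ℕ) = b' + 1) (h3 : (b : ℕ) < a) :
    (σ.face a).face b = (σ.face a').face b' := by
  have hfun : ∀ j : Fin q, a.succAbove (b.succAbove j) = a'.succAbove (b'.succAbove j) := by
    intro j
    ext
    simp only [Fin.succAbove, Fin.lt_def]
    split_ifs <;> simp at * <;> omega
  have hb : a.succAbove b = a' := by
    ext
    simp only [Fin.succAbove, Fin.lt_def]
    split_ifs <;> simp at * <;> omega
  have ha : a'.succAbove b' = a := by
    ext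
    simp only [Fin.succAbove, Fin.lt_def]
    split_ifs <;> simp at * <;> omega
  apply PBC.ext
  · funext j
    exact congrArg σ.v (hfun j)
  · change (σ.C ⊔ Submodule.span R {σ.v a}) ⊔ Submodule.span R {σ.v (a.succAbove b)}
      = (σ.C ⊔ Submodule.span R {σ.v a'}) ⊔ Submodule.span R {σ.v (a'.succAbove b')}
    rw [hb, ha, sup_right_comm]

/-- the differential squares to zero -/
theorem bd_bd (c : PBC R n (q + 2) →₀ (Fin n → R)) : bd R n q (bd R n (q + 1) c) = 0 := by
  rw [bd_eq, bd_eq]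
  have : bdL R n q ∘ₗ bdL R n (q + 1) = 0 := by
    apply Finsupp.lhom_ext
    intro σ x
    rw [LinearMap.comp_apply, bdL_single, map_sum, LinearMap.zero_apply]
    simp only [map_zsmul, bdL_single, Finset.smul_sum, smul_smul, ← pow_add]
    rw [← Finset.sum_product', Finset.univ_product_univ]
    let F : Fin (q + 2) × Fin (q + 1) → (PBC R n q →₀ (Fin n → R)) := fun p =>
      ((-1 : ℤ) ^ ((p.1 : ℕ) + (p.2 : ℕ))) • Finsupp.single ((σ.face p.1).face p.2) x
    change ∑ p, F p = 0
    let φ : Fin (q + 2) × Fin (q + 1) → Fin (q + 2) × Fin (q + 1) := fun p =>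
      if h : (p.2 : ℕ) < p.1 then (⟨p.2, by omega⟩, ⟨p.1 - 1, by omega⟩)
      else (⟨p.2 + 1, by omega⟩, ⟨p.1, by omega⟩)
    have hφ1 : ∀ p : Fin (q + 2) × Fin (q + 1), (p.2 : ℕ) < p.1 →
        ((φ p).1 : ℕ) = p.2 ∧ ((φ p).2 : ℕ) = p.1 - 1 := by
      intro p h; simp [φ, h]
    have hφ2 : ∀ p : Fin (q + 2) × Fin (q + 1), ¬ (p.2 : ℕ) < p.1 →
        ((φ p).1 : ℕ) = p.2 + 1 ∧ ((φ p).2 : ℕ) = p.1 := by
      intro p h; simp [φ, h]
    refine Finset.sum_involution (fun p _ => φ p) ?_ ?_ ?_ ?_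
    · intro p _
      by_cases h : (p.2 : ℕ) < p.1
      · obtain ⟨h1, h2⟩ := hφ1 p h
        have h3 : F (φ p) = ((-1 : ℤ) ^ (((φ p).1 : ℕ) + ((φ p).2 : ℕ))) •
            Finsupp.single ((σ.face p.1).face p.2) x := by
          simp only [F]
          rw [face_face σ p.1 p.2 (φ p).1 (φ p).2 h1.symm (by omega) h]
        rw [h3, h1, h2]
        simp only [F]
        rw [← add_zsmul]
        have : (-1 : ℤ) ^ ((p.1 : ℕ) + (p.2 : ℕ)) + (-1) ^ ((p.2 : ℕ) + ((p.1 : ℕ) - 1)) = 0 := by
          obtain ⟨t, ht⟩ : ∃ t, (p.1 : ℕ) = t + 1 := ⟨p.1 - 1, by omega⟩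
          rw [ht, Nat.add_sub_cancel]; ring
        rw [this, zero_zsmul]
      · obtain ⟨h1, h2⟩ := hφ2 p h
        have h3 : F (φ p) = ((-1 : ℤ) ^ (((φ p).1 : ℕ) + ((φ p).2 : ℕ))) •
            Finsupp.single ((σ.face p.1).face p.2) x := by
          simp only [F]
          rw [face_face σ (φ p).1 (φ p).2 p.1 p.2 h2 (by omega) (by omega)]
        rw [h3, h1, h2]
        simp only [F]
        rw [← add_zsmul]
        have : (-1 : ℤ) ^ ((p.1 : ℕ) + (p.2 : ℕ)) + (-1) ^ ((p.2 : ℕ) + 1 + (p.1 : ℕ)) = 0 := by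
          ring
        rw [this, zero_zsmul]
    · intro p _ _ h
      by_cases h0 : (p.2 : ℕ) < p.1
      · obtain ⟨h1, -⟩ := hφ1 p h0
        rw [h] at h1; omega
      · obtain ⟨h1, -⟩ := hφ2 p h0
        rw [h] at h1; omega
    · intro _ _; exact Finset.mem_univ _
    · intro p _
      by_cases h0 : (p.2 : ℕ) < p.1
      · obtain ⟨h1, h2⟩ := hφ1 p h0
        have h3 : ¬ ((φ p).2 : ℕ) < (φ p).1 := by omega
        obtain ⟨h4, h5⟩ := hφ2 _ h3
        ext <;> omega
      · obtain ⟨h1, h2⟩ := hφ2 p h0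
        have h3 : ((φ p).2 : ℕ) < (φ p).1 := by omega
        obtain ⟨h4, h5⟩ := hφ1 _ h3
        ext <;> omega
  exact LinearMap.congr_fun this c

/-- the differential maps chains to chains -/
theorem bd_mem_tupleChains {c : PBC R n (q + 1) →₀ (Fin n → R)}
    (hc : c ∈ tupleChains R n (q + 1)) : bd R n q c ∈ tupleChains R n q := by
  rw [bd_eq, ← Finsupp.sum_single c, Finsupp.sum, map_sum]
  refine Submodule.sum_mem (tupleSub R n q) fun σ _ => ?_
  rw [bdL_single]
  refine Submodule.sum_mem _ fun i _ => Submodule.smul_of_tower_mem _ _ fun τ => ?_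
  classical
  rw [Finsupp.single_apply]
  split_ifs with h
  · rw [← h]; exact Submodule.mem_sup_left (hc σ)
  · exact Submodule.zero_mem _

/-- a face of a tuple in the standard orbit is in the standard orbit -/
lemma inOrbit_face (σ : PBC R n (q + 1)) (hσ : σ.InOrbit) (i : Fin (q + 1)) :
    (σ.face i).InOrbit := by
  obtain ⟨g, h1, h2⟩ := hσ
  have hle := σ.le
  -- the permutation moving `i` behind the first `q + 1` indices
  let f : Fin n → Fin n := fun j =>
    if (j : ℕ) < i then j else if h : (j : ℕ) < q then ⟨j + 1, by omega⟩ else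
      if (j : ℕ) = q then ⟨i, by omega⟩ else j
  have hf1 : ∀ j : Fin n, (j : ℕ) < i → (f j : ℕ) = j := by intro j h; simp [f, h]
  have hf2 : ∀ j : Fin n, ¬ (j : ℕ) < i → (j : ℕ) < q → (f j : ℕ) = j + 1 := by
    intro j h h'; simp [f, h, h']
  have hf3 : ∀ j : Fin n, ¬ (j : ℕ) < i → ¬ (j : ℕ) < q → (j : ℕ) = q → (f j : ℕ) = i := by
    intro j h h' h''
    have : ¬ (q < (i : ℕ)) := by omega
    simp [f, h'', this]
  have hf4 : ∀ j : Fin n, ¬ (j : ℕ) < i → ¬ (j : ℕ) < q → ¬ (j : ℕ) = q → (f j : ℕ) = j := by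
    intro j h h' h''; simp [f, h, h', h'']
  have hfinj : Function.Injective f := by
    intro a b hab
    have hab' : (f a : ℕ) = f b := congrArg Fin.val hab
    have hi := i.isLt
    ext
    have e1 := hf1 a
    have e2 := hf2 a
    have e3 := hf3 a
    have e4 := hf4 a
    have e5 := hf1 b
    have e6 := hf2 b
    have e7 := hf3 b
    have e8 := hf4 b
    omega
  let p : Equiv.Perm (Fin n) := Equiv.ofBijective f (Finite.injective_iff_bijective.1 hfinj)
  have hp : ∀ j, p j = f j := fun j => rfl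
  let e : (Fin n → R) ≃ₗ[R] (Fin n → R) := LinearEquiv.funCongrLeft R R p.symm
  have he : ∀ j, e (Pi.single j 1) = Pi.single (p j) 1 := by
    intro j
    ext l
    simp only [e, LinearEquiv.funCongrLeft_apply, LinearMap.funLeft_apply, Pi.single_apply]
    congr 1
    rw [eq_iff_iff, Equiv.symm_apply_eq]
  refine ⟨e.trans g, fun j => ?_, ?_⟩
  · rw [LinearEquiv.trans_apply, he]
    change σ.v (i.succAbove j) = _
    rw [h1]
    congr 2
    ext
    rw [hp]
    by_cases hj : (j : ℕ) < i
    · rw [hf1 _ (by simpa using hj)]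
      simp [Fin.succAbove, Fin.lt_def, hj]
    · rw [hf2 _ (by simpa using hj) (by simp)]
      simp [Fin.succAbove, Fin.lt_def, hj]
  · change σ.C ⊔ Submodule.span R {σ.v i} = _
    have hcoe : ((e.trans g : (Fin n → R) ≃ₗ[R] (Fin n → R)) : (Fin n → R) →ₗ[R] (Fin n → R))
        = (g : (Fin n → R) →ₗ[R] (Fin n → R)) ∘ₗ (e : (Fin n → R) →ₗ[R] (Fin n → R)) := rfl
    rw [h2, h1 i, hcoe, Submodule.map_comp, Submodule.map_span (e : (Fin n → R) →ₗ[R] (Fin n → R))]
    have h3 : Submodule.span R {(g (Pi.single (Fin.castLE σ.le i) 1) : Fin n → R)}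
        = Submodule.map (g : (Fin n → R) →ₗ[R] (Fin n → R))
          (Submodule.span R {Pi.single (Fin.castLE σ.le i) 1}) := by
      rw [Submodule.map_span, Set.image_singleton]; rfl
    rw [h3, ← Submodule.map_sup, ← Submodule.span_union]
    congr 2
    ext x
    constructor
    · rintro (⟨j, hj, rfl⟩ | rfl)
      · refine ⟨Pi.single j 1, ⟨j, by omega, rfl⟩, ?_⟩
        change e (Pi.single j 1) = _
        rw [he]
        congr 1
        ext
        rw [hp, hf4 _ (by omega) (by omega) (by omega)]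
      · refine ⟨Pi.single ⟨q, by omega⟩ 1, ⟨⟨q, by omega⟩, le_rfl, rfl⟩, ?_⟩
        change e (Pi.single _ 1) = _
        rw [he]
        congr 1
        ext
        have hi := i.isLt
        rw [hp, hf3 ⟨q, by omega⟩ (by simp only; omega) (by simp) rfl]
        simp
    · rintro ⟨_, ⟨j, hj, rfl⟩, rfl⟩
      change e (Pi.single j 1) ∈ _
      rw [he]
      have hi := i.isLt
      by_cases hjq : (j : ℕ) = q
      · right
        rw [Set.mem_singleton_iff]
        congr 1
        ext
        rw [hp, hf3 _ (by omega) (by omega) hjq]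
        simp
      · left
        refine ⟨j, by omega, ?_⟩
        congr 1
        ext
        rw [hp, hf4 _ (by omega) (by omega) hjq]

/-- the differential maps chains of the induced form to such chains -/
theorem bd_mem_inducedChains {c : PBC R n (q + 1) →₀ (Fin n → R)}
    (hc : c ∈ inducedChains R n (q + 1)) : bd R n q c ∈ inducedChains R n q := by
  rw [bd_eq, ← Finsupp.sum_single c, Finsupp.sum, map_sum]
  refine Submodule.sum_mem (inducedSub R n q) fun σ hσ => ?_
  rw [bdL_single]
  refine Submodule.sum_mem _ fun i _ => Submodule.smul_of_tower_mem _ _ fun τ => ?_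
  classical
  rw [Finsupp.single_apply]
  split_ifs with h
  · rw [← h]
    exact ⟨Submodule.mem_sup_left (hc σ).1,
      fun _ => inOrbit_face σ ((hc σ).2 (Finsupp.mem_support_iff.1 hσ)) i⟩
  · exact ⟨Submodule.zero_mem _, fun h => absurd rfl h⟩

end Sanity

end Pool.Agent.Helper607.Bases
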