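import Pool.Agent.Helper607.Bases.Defs

/-!
# A ring for which the complexes are not highly acyclic

The ring is `R = ∏_m A ℚ m`, where `A k m = k ⊕ M_{m+1}(F)` with
`(a, X)(b, Y) = (ab, aY + bX + XPY)`, `F` the free algebra on `(m+1)^2` letters and `P` the
generic traceless matrix over `F`. (`A k m` is the algebra generated by the entries of an
`(m+1) × (m+1)` matrix `E` with relation `E^2 = 0`.)  The matrix `1 + E` is invertible; a weak
algorithm for vectors of length at most `m` (lemma `A.key`) shows that every invertible matrix of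
size at most `m` over `A k m` has determinant in `k` in the dual numbers (`A.all_good`), while
`1 + E` has determinant `1 + ε`.  So the graph of vertices and edges of the complex is
disconnected for `n = m + 1`, and this is detected with coefficients in `R^n`.
-/

namespace Pool.Agent.Helper607.Bases

universe u

section Complex

variable {R : Type u} [Ring R] {n q : ℕ}

/-- dual functionals of a tuple with complement -/
lemma PBC.exists_dual (σ : PBC R n q) : ∃ w : Fin q → (Fin n → R),
    (∀ i j, σ.v i ⬝ᵥ w j = if i = j then 1 else 0) ∧ ∀ x ∈ σ.C, ∀ j, x ⬝ᵥ w j = 0 := by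
  classical
  have h1 : ∀ l : Fin n, ∃ (r : Fin q → R) (c : Fin n → R), c ∈ σ.C ∧
      ∑ i, r i • σ.v i + c = Pi.single l 1 := by
    intro l
    have : (Pi.single l 1 : Fin n → R) ∈ Submodule.span R (Set.range σ.v) ⊔ σ.C := by
      rw [σ.compl.sup_eq_top]; trivial
    obtain ⟨y, hy, c, hc, hyc⟩ := Submodule.mem_sup.1 this
    obtain ⟨r, hr⟩ := (Submodule.mem_span_range_iff_exists_fun R).1 hy
    exact ⟨r, c, hc, by rw [hr, hyc]⟩
  choose r c hc hrc using h1
  have h2 : ∀ x : Fin n → R, ∃ d ∈ σ.C, x = ∑ i, (x ⬝ᵥ fun l => r l i) • σ.v i + d := by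
    intro x
    refine ⟨∑ l, x l • c l, Submodule.sum_mem _ fun l _ => σ.C.smul_mem _ (hc l), ?_⟩
    have h3 : x = ∑ l, x l • (Pi.single l 1 : Fin n → R) := by
      ext j
      simp [Finset.sum_apply, Pi.single_apply]
    conv_lhs => rw [h3]
    simp only [← hrc, smul_add, Finset.sum_add_distrib]
    congr 1
    simp only [Finset.smul_sum, smul_smul, dotProduct, Finset.sum_smul]
    rw [Finset.sum_comm]
  have huniq : ∀ (a : Fin q → R) (d : Fin n → R), d ∈ σ.C → ∑ i, a i • σ.v i + d = 0 →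
      ∀ i, a i = 0 := by
    intro a d hd h
    have h3 : ∑ i, a i • σ.v i ∈ σ.C := by
      rw [eq_neg_of_add_eq_zero_left h]; exact σ.C.neg_mem hd
    have h4 : ∑ i, a i • σ.v i ∈ Submodule.span R (Set.range σ.v) :=
      Submodule.sum_mem _ fun i _ => Submodule.smul_mem _ _ (Submodule.subset_span ⟨i, rfl⟩)
    have h5 := (Submodule.disjoint_def.1 σ.compl.disjoint) _ h4 h3
    exact Fintype.linearIndependent_iff.1 σ.indep a h5
  refine ⟨fun j l => r l j, fun i j => ?_, fun x hx j => ?_⟩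
  · obtain ⟨d, hd, h3⟩ := h2 (σ.v i)
    have h4 := huniq (fun j => (σ.v i ⬝ᵥ fun l => r l j) - if i = j then 1 else 0) d hd (by
      simp only [sub_smul, Finset.sum_sub_distrib, ite_smul, one_smul, zero_smul,
        Finset.sum_ite_eq, Finset.mem_univ, if_true]
      rw [sub_add_eq_add_sub, ← h3, sub_self]) j
    exact sub_eq_zero.1 h4
  · obtain ⟨d, hd, h3⟩ := h2 x
    refine huniq (fun j => (x ⬝ᵥ fun l => r l j)) (d - x) (σ.C.sub_mem hd hx) ?_ j
    rw [← add_sub_assoc, ← h3, sub_self]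

/-- the vertex defined by a dual pair -/
def mkVertex {m : ℕ} (v w : Fin (m + 1) → R) (h : v ⬝ᵥ w = 1) : PBC R (m + 1) 1 where
  le := by omega
  v := fun _ => v
  C :=
    { carrier := {x | x ⬝ᵥ w = 0}
      add_mem' := by
        intro a b ha hb
        simp only [Set.mem_ofPred_eq] at *
        rw [add_dotProduct, ha, hb, add_zero]
      zero_mem' := by simp
      smul_mem' := by
        intro r x hx
        simp only [Set.mem_ofPred_eq] at *
        rw [smul_dotProduct, hx, smul_zero] }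
  indep := by
    rw [Fintype.linearIndependent_iff]
    intro g hg i
    have h1 : g 0 • v = 0 := by simpa using hg
    have h2 : (g 0 • v) ⬝ᵥ w = 0 := by rw [h1, zero_dotProduct]
    rw [smul_dotProduct, h, smul_eq_mul, mul_one] at h2
    rw [Subsingleton.elim i 0]; exact h2
  compl := by
    have hr : Set.range (fun _ : Fin 1 => v) = {v} := by simp
    rw [hr]
    constructor
    · rw [Submodule.disjoint_def]
      intro x hx hx'
      obtain ⟨r, rfl⟩ := Submodule.mem_span_singleton.1 hx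
      have h2 : (r • v) ⬝ᵥ w = 0 := hx'
      rw [smul_dotProduct, h, smul_eq_mul, mul_one] at h2
      rw [h2, zero_smul]
    · rw [codisjoint_iff, eq_top_iff]
      intro x _
      rw [Submodule.mem_sup]
      refine ⟨(x ⬝ᵥ w) • v, Submodule.mem_span_singleton.2 ⟨_, rfl⟩, x - (x ⬝ᵥ w) • v, ?_, by abel⟩
      change (x - (x ⬝ᵥ w) • v) ⬝ᵥ w = 0
      rw [sub_dotProduct, smul_dotProduct, h, smul_eq_mul, mul_one, sub_self]

end Complex

section Free

variable (k : Type) [Field k] (G : Type) [Fintype G] [DecidableEq G]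

/-- The free associative algebra. -/
abbrev FA := FreeAlgebra k G

variable {k G}

/-- augmentation -/
noncomputable def aug : FreeAlgebra k G →ₐ[k] k := FreeAlgebra.algebraMapInv

@[simp] lemma aug_ι (g : G) : aug (FreeAlgebra.ι k g) = 0 := by
  simp [aug, FreeAlgebra.algebraMapInv]

/-- auxiliary algebra map giving the cofactor `∂_g` as its upper right entry -/
noncomputable def auxHom (g : G) :
    FreeAlgebra k G →ₐ[k] Matrix (Fin 2) (Fin 2) (FreeAlgebra k G) :=
  FreeAlgebra.lift k fun h =>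
    Matrix.of ![![FreeAlgebra.ι k h, if h = g then 1 else 0], ![0, 0]]

lemma auxHom_00 (g : G) (x : FreeAlgebra k G) : auxHom g x 0 0 = x ∧ auxHom g x 1 0 = 0 ∧
    auxHom g x 1 1 = algebraMap k _ (aug x) := by
  induction x using FreeAlgebra.induction with
  | grade0 r => simp [auxHom, Algebra.algebraMap_eq_smul_one]
  | grade1 h => simp [auxHom]
  | mul a b ha hb =>
    obtain ⟨ha0, ha1, ha2⟩ := ha
    obtain ⟨hb0, hb1, hb2⟩ := hb
    simp only [map_mul, Matrix.mul_apply, Fin.sum_univ_two, ha0, ha1, ha2, hb0, hb1, hb2]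
    simp
  | add a b ha hb =>
    obtain ⟨ha0, ha1, ha2⟩ := ha
    obtain ⟨hb0, hb1, hb2⟩ := hb
    simp [ha0, ha1, ha2, hb0, hb1, hb2]

/-- the left cofactor of the letter `g`:  `x = aug x + ∑ g, cof g x * ι g` -/
noncomputable def cof (g : G) : FreeAlgebra k G →ₗ[k] FreeAlgebra k G where
  toFun x := auxHom g x 0 1
  map_add' x y := by simp
  map_smul' r x := by simp

lemma cof_mul (g : G) (x y : FreeAlgebra k G) :
    cof g (x * y) = x * cof g y + cof g x * algebraMap k _ (aug y) := by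
  simp only [cof, LinearMap.coe_mk, AddHom.coe_mk, map_mul, Matrix.mul_apply, Fin.sum_univ_two,
    (auxHom_00 g x).1, (auxHom_00 g y).2.2]

lemma cof_algebraMap (g : G) (r : k) : cof g (algebraMap k (FreeAlgebra k G) r) = 0 := by
  simp [cof, Algebra.algebraMap_eq_smul_one]

@[simp] lemma cof_one (g : G) : cof g (1 : FreeAlgebra k G) = 0 := by
  simpa using cof_algebraMap g (1 : k)

lemma cof_ι (g h : G) : cof g (FreeAlgebra.ι k h) = if h = g then 1 else 0 := by
  simp [cof, auxHom]

lemma decomp (x : FreeAlgebra k G) :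
    x = algebraMap k _ (aug x) + ∑ g, cof g x * FreeAlgebra.ι k g := by
  induction x using FreeAlgebra.induction with
  | grade0 r => simp [cof_algebraMap]
  | grade1 h => simp [cof_ι]
  | mul a b ha hb =>
    have : ∑ g, cof g (a * b) * FreeAlgebra.ι k g
        = a * (∑ g, cof g b * FreeAlgebra.ι k g)
          + (∑ g, cof g a * FreeAlgebra.ι k g) * algebraMap k _ (aug b) := by
      simp only [cof_mul, add_mul, Finset.sum_add_distrib, Finset.mul_sum, Finset.sum_mul, mul_assoc,
        Algebra.commutes]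
    rw [this]
    have hb' : ∑ g, cof g b * FreeAlgebra.ι k g = b - algebraMap k _ (aug b) :=
      eq_sub_of_add_eq' hb.symm
    have ha' : ∑ g, cof g a * FreeAlgebra.ι k g = a - algebraMap k _ (aug a) :=
      eq_sub_of_add_eq' ha.symm
    rw [hb', ha', map_mul, map_mul]
    noncomm_ring
  | add a b ha hb =>
    simp only [map_add, add_mul, Finset.sum_add_distrib]
    conv_lhs => rw [ha, hb]
    abel

/-- words of length `< e` -/
noncomputable def Fil : ℕ → Submodule k (FreeAlgebra k G)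
  | 0 => ⊥
  | e + 1 => ⨅ g, (Fil e).comap (cof g)

lemma mem_Fil_zero {x : FreeAlgebra k G} : x ∈ Fil 0 ↔ x = 0 := by simp [Fil]

lemma mem_Fil_succ {e : ℕ} {x : FreeAlgebra k G} : x ∈ Fil (e+1) ↔ ∀ g, cof g x ∈ Fil e := by
  simp [Fil, Submodule.mem_iInf]

lemma Fil_mono_succ (e : ℕ) : (Fil e : Submodule k (FreeAlgebra k G)) ≤ Fil (e+1) := by
  induction e with
  | zero => simp [Fil]
  | succ e ih =>
    intro x hx
    rw [mem_Fil_succ] at hx ⊢
    exact fun g => ih (hx g)

lemma Fil_mono {a b : ℕ} (h : a ≤ b) : (Fil a : Submodule k (FreeAlgebra k G)) ≤ Fil b :=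
  monotone_nat_of_le_succ Fil_mono_succ h

lemma algebraMap_mem_Fil (r : k) : algebraMap k (FreeAlgebra k G) r ∈ Fil (0+1) := by
  rw [mem_Fil_succ]; intro g; rw [cof_algebraMap]; exact Submodule.zero_mem _

lemma eq_of_mem_Fil_one {x : FreeAlgebra k G} (hx : x ∈ Fil (0+1)) :
    x = algebraMap k _ (aug x) := by
  rw [mem_Fil_succ] at hx
  conv_lhs => rw [decomp x]
  have : ∀ g, cof g x = 0 := fun g => by simpa [Fil] using hx g
  simp [this]

lemma mul_mem_Fil {a b : ℕ} {x y : FreeAlgebra k G} (hx : x ∈ Fil a) (hy : y ∈ Fil (b+1)) :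
    x * y ∈ Fil (a + b) := by
  induction b generalizing y with
  | zero =>
    rw [eq_of_mem_Fil_one hy, ← Algebra.commutes, ← Algebra.smul_def]
    exact Submodule.smul_mem _ _ hx
  | succ b ih =>
    have e : a + (b+1) = (a + b) + 1 := by omega
    rw [e, mem_Fil_succ]
    intro g
    rw [cof_mul]
    refine Submodule.add_mem _ (ih ((mem_Fil_succ.1 hy) g)) ?_
    rw [← Algebra.commutes, ← Algebra.smul_def]
    refine Submodule.smul_mem _ _ ?_
    have hx' : x ∈ Fil ((a+b)+1) := Fil_mono (by omega) hx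
    exact mem_Fil_succ.1 hx' g

lemma exists_mem_Fil (x : FreeAlgebra k G) : ∃ e, x ∈ Fil e := by
  induction x using FreeAlgebra.induction with
  | grade0 r => exact ⟨_, algebraMap_mem_Fil r⟩
  | grade1 h =>
    refine ⟨1 + 1, ?_⟩
    rw [mem_Fil_succ]; intro g; rw [cof_ι]
    split_ifs
    · simpa using algebraMap_mem_Fil (G := G) (1 : k)
    · exact Submodule.zero_mem _
  | mul a b ha hb =>
    obtain ⟨s, hs⟩ := ha
    obtain ⟨t, ht⟩ := hb
    exact ⟨s + t, mul_mem_Fil hs (Fil_mono (Nat.le_succ t) ht)⟩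
  | add a b ha hb =>
    obtain ⟨s, hs⟩ := ha
    obtain ⟨t, ht⟩ := hb
    exact ⟨max s t, Submodule.add_mem _ (Fil_mono (le_max_left _ _) hs) (Fil_mono (le_max_right _ _) ht)⟩

end Free


section RingA

variable (k : Type) [Field k] (n : ℕ)

/-- index set of letters -/
abbrev Lt := Fin (n+1) × Fin (n+1)

/-- square matrices over the free algebra -/
abbrev MF := Matrix (Fin (n+1)) (Fin (n+1)) (FreeAlgebra k (Lt n))

variable {n}

/-- the constant traceless matrix attached to a letter -/
def alpha (g : Lt n) : Matrix (Fin (n+1)) (Fin (n+1)) k :=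
  Matrix.single g.1 g.2 1 - (if g.1 = g.2 then Matrix.single 0 0 1 else 0)

/-- the generic traceless matrix -/
noncomputable def P : MF k n :=
  Matrix.of fun j l => ∑ g : Lt n, alpha k g j l • FreeAlgebra.ι k g

lemma cof_P (g : Lt n) (j l : Fin (n+1)) :
    cof g (P k j l) = algebraMap k _ (alpha k g j l) := by
  simp [P, map_sum, cof_ι, Algebra.algebraMap_eq_smul_one]

lemma aug_P (j l : Fin (n+1)) : aug (P k j l) = 0 := by
  simp [P, map_sum]

lemma trace_alpha (g : Lt n) : ∑ j, alpha k g j j = 0 := by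
  have : ∑ j, alpha k g j j = Matrix.trace (alpha k g) := rfl
  rw [this, alpha]
  by_cases h : g.1 = g.2
  · simp [h]
  · simp [h, Matrix.trace_single_eq_of_ne _ _ _ h]

lemma trace_P : ∑ j, P k (n := n) j j = 0 := by
  simp only [P, Matrix.of_apply]
  rw [Finset.sum_comm]
  refine Finset.sum_eq_zero fun g _ => ?_
  rw [← Finset.sum_smul, trace_alpha, zero_smul]

variable (n)

/-- The ring `A = k ⊕ M_{n+1}(F)` with product `(a,X)(b,Y) = (ab, aY + bX + XPY)`. -/
@[ext] structure A where
  s : k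
  M : MF k n

variable {k n}

namespace A

instance : Zero (A k n) := ⟨⟨0, 0⟩⟩
instance : One (A k n) := ⟨⟨1, 0⟩⟩
instance : Add (A k n) := ⟨fun x y => ⟨x.s + y.s, x.M + y.M⟩⟩
instance : Neg (A k n) := ⟨fun x => ⟨-x.s, -x.M⟩⟩
noncomputable instance : Mul (A k n) :=
  ⟨fun x y => ⟨x.s * y.s, x.s • y.M + y.s • x.M + x.M * P k * y.M⟩⟩

@[simp] lemma zero_s : (0 : A k n).s = 0 := rfl
@[simp] lemma zero_M : (0 : A k n).M = 0 := rfl
@[simp] lemma one_s : (1 : A k n).s = 1 := rfl
@[simp] lemma one_M : (1 : A k n).M = 0 := rfl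
@[simp] lemma add_s (x y : A k n) : (x + y).s = x.s + y.s := rfl
@[simp] lemma add_M (x y : A k n) : (x + y).M = x.M + y.M := rfl
@[simp] lemma neg_s (x : A k n) : (-x).s = -x.s := rfl
@[simp] lemma neg_M (x : A k n) : (-x).M = -x.M := rfl
@[simp] lemma mul_s (x y : A k n) : (x * y).s = x.s * y.s := rfl
@[simp] lemma mul_M (x y : A k n) :
    (x * y).M = x.s • y.M + y.s • x.M + x.M * P k * y.M := rfl

noncomputable instance : Ring (A k n) where
  add_assoc x y z := by ext1 <;> simp [add_assoc]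
  zero_add x := by ext1 <;> simp
  add_zero x := by ext1 <;> simp
  add_comm x y := by ext1 <;> simp [add_comm]
  neg_add_cancel x := by ext1 <;> simp
  nsmul := nsmulRec
  zsmul := zsmulRec
  left_distrib x y z := by
    ext1
    · simp [mul_add]
    · simp only [mul_M, add_s, add_M, smul_add, add_smul, mul_add]; abel
  right_distrib x y z := by
    ext1
    · simp [add_mul]
    · simp only [mul_M, add_s, add_M, smul_add, add_smul, add_mul]; abel
  zero_mul x := by ext1 <;> simp
  mul_zero x := by ext1 <;> simp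
  one_mul x := by ext1 <;> simp
  mul_one x := by ext1 <;> simp
  mul_assoc x y z := by
    ext1
    · simp [mul_assoc]
    · simp only [mul_M, mul_s, smul_add, mul_add, add_mul, smul_smul, Matrix.mul_assoc,
        Matrix.smul_mul, Matrix.mul_smul, mul_comm z.s]
      abel

/-- first component as a ring homomorphism -/
def sHom : A k n →+* k where
  toFun x := x.s
  map_one' := rfl
  map_mul' _ _ := rfl
  map_zero' := rfl
  map_add' _ _ := rfl

/-- second component as an additive map -/
def MHom : A k n →+ MF k n where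
  toFun x := x.M
  map_zero' := rfl
  map_add' _ _ := rfl

lemma sum_s {ι : Type} (t : Finset ι) (f : ι → A k n) : (∑ i ∈ t, f i).s = ∑ i ∈ t, (f i).s :=
  map_sum sHom f t

lemma sum_M {ι : Type} (t : Finset ι) (f : ι → A k n) : (∑ i ∈ t, f i).M = ∑ i ∈ t, (f i).M :=
  map_sum MHom f t

/-- the homomorphism to the dual numbers reading off the constant term of the (0,0) entry -/
noncomputable def phi : A k n →+* DualNumber k where
  toFun x := TrivSqZeroExt.inl x.s + TrivSqZeroExt.inr (aug (x.M 0 0))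
  map_one' := by ext <;> simp
  map_zero' := by ext <;> simp
  map_add' x y := by ext <;> simp
  map_mul' x y := by
    have : aug ((x.M * P k * y.M : MF k n) 0 0) = 0 := by
      simp only [Matrix.mul_apply, map_sum, map_mul, aug_P, mul_zero, Finset.sum_const_zero, zero_mul]
    ext
    · simp
    · simp [this, mul_comm]

/-- constants -/
noncomputable def C (r : k) : A k n := ⟨r, 0⟩

@[simp] lemma C_s (r : k) : (C r : A k n).s = r := rfl
@[simp] lemma C_M (r : k) : (C r : A k n).M = 0 := rfl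

/-- the matrix of the augmented element: `Z x = x.s • 1 + x.M * P` -/
noncomputable def Z (x : A k n) : MF k n := x.s • (1 : MF k n) + x.M * P k

/-- the generic square zero matrix over `A` -/
noncomputable def E : Matrix (Fin (n+1)) (Fin (n+1)) (A k n) :=
  Matrix.of fun i j => ⟨0, Matrix.single i j 1⟩

lemma E_mul_E : (E : Matrix (Fin (n+1)) (Fin (n+1)) (A k n)) * E = 0 := by
  refine Matrix.ext fun i l => ?_
  rw [Matrix.mul_apply]
  apply A.ext
  · rw [sum_s]; simp [E]
  · rw [sum_M]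
    simp only [E, Matrix.of_apply, mul_M, zero_smul, add_zero, zero_add, Matrix.zero_apply, zero_M]
    have h : ∀ j : Fin (n+1), (Matrix.single i j (1 : FreeAlgebra k (Lt n))) * P k
        * Matrix.single j l 1 = Matrix.single i l (P k j j) := by
      intro j
      rw [Matrix.single_mul_mul_single]
      simp
    simp only [h]
    ext a b
    rw [Matrix.sum_apply]
    simp only [Matrix.single_apply]
    split_ifs with hc
    · exact trace_P k
    · simp

end A

end RingA

section Key

variable {k : Type} [Field k] {n : ℕ}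

open Matrix

namespace A

/-- constant combination of the columns of `X` -/
noncomputable def sm (X : MF k n) (c : Fin (n+1) → k) : Fin (n+1) → FreeAlgebra k (Lt n) :=
  fun a => ∑ j, c j • X a j

lemma cof_Z (g : Lt n) (x : A k n) (a b : Fin (n+1)) :
    cof g (Z x a b) = ∑ j, alpha k g j b • x.M a j := by
  simp only [Z, Matrix.add_apply, Matrix.smul_apply, Matrix.mul_apply, map_add, map_sum, map_smul,
    cof_mul, cof_P, aug_P, map_zero, mul_zero, add_zero]
  have h1 : cof g ((1 : MF k n) a b) = 0 := by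
    rw [Matrix.one_apply]; split_ifs <;> simp
  rw [h1, smul_zero, zero_add]
  refine Finset.sum_congr rfl fun j _ => ?_
  rw [← Algebra.commutes, ← Algebra.smul_def]

lemma cof_Z_mulVec (g : Lt n) (x : A k n) (y : Fin (n+1) → FreeAlgebra k (Lt n)) (a : Fin (n+1)) :
    cof g ((Z x *ᵥ y) a) = (Z x *ᵥ fun b => cof g (y b)) a
      + sm x.M (alpha k g *ᵥ fun b => aug (y b)) a := by
  simp only [Matrix.mulVec, dotProduct, map_sum, cof_mul, Finset.sum_add_distrib, sm, cof_Z]
  congr 1
  simp only [Finset.sum_smul, Finset.sum_mul]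
  rw [Finset.sum_comm]
  refine Finset.sum_congr rfl fun j _ => ?_
  refine Finset.sum_congr rfl fun b _ => ?_
  rw [← Algebra.commutes, ← Algebra.smul_def, smul_smul, mul_comm]

lemma sm_mem {X : MF k n} {s : ℕ} (h : ∀ a b, X a b ∈ Fil s) (c : Fin (n+1) → k) (a : Fin (n+1)) :
    sm X c a ∈ Fil s :=
  Submodule.sum_mem _ fun j _ => Submodule.smul_mem _ _ (h a j)

lemma alpha_mulVec_off {j l : Fin (n+1)} (h : j ≠ l) (c : Fin (n+1) → k) :
    alpha k (j, l) *ᵥ c = Pi.single j (c l) := by
  ext a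
  simp [alpha, h, Matrix.mulVec, dotProduct, Matrix.single_apply, Pi.single_apply, eq_comm,
    ite_and]

lemma alpha_mulVec_diag (j : Fin (n+1)) (c : Fin (n+1) → k) :
    alpha k (j, j) *ᵥ c = Pi.single j (c j) - Pi.single 0 (c 0) := by
  ext a
  simp [alpha, Matrix.mulVec, dotProduct, Matrix.single_apply, Pi.single_apply, eq_comm,
    ite_and, sub_mul, Finset.sum_sub_distrib]

lemma sm_single (X : MF k n) (j : Fin (n+1)) (r : k) (a : Fin (n+1)) :
    sm X (Pi.single j r) a = r • X a j := by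
  simp [sm, Pi.single_apply]

lemma sm_sub (X : MF k n) (c d : Fin (n+1) → k) (a : Fin (n+1)) :
    sm X (c - d) a = sm X c a - sm X d a := by
  simp [sm, sub_smul, Finset.sum_sub_distrib]

variable {ι : Type} [Fintype ι] [DecidableEq ι]

lemma peel (x : ι → A k n) (s : ι → ℕ) (hs : ∀ i a b, (x i).M a b ∈ Fil (s i)) (i0 : ι) (r : ℕ) :
    ∀ (y : ι → Fin (n+1) → FreeAlgebra k (Lt n)) (e : ι → ℕ) (_ : ∀ i a, y i a ∈ Fil (e i))
      (_ : ∀ i, e i = 0 ∨ (s i ≤ s i0 ∧ s i + e i ≤ s i0 + (r+1)) ∨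
        (s i0 < s i ∧ s i + e i < s i0 + (r+1)))
      (_ : ¬ ∀ a, y i0 a ∈ Fil r)
      (_ : ∀ a, ∑ i, (Z (x i) *ᵥ y i) a ∈ Fil (s i0 + r)),
      ∃ (y' : ι → Fin (n+1) → FreeAlgebra k (Lt n)) (e' : ι → ℕ), (∀ i a, y' i a ∈ Fil (e' i)) ∧
        (∀ i, e' i = 0 ∨ s i + e' i ≤ s i0 + 1) ∧ (¬ ∀ a, y' i0 a = 0) ∧
        (∀ a, ∑ i, (Z (x i) *ᵥ y' i) a ∈ Fil (s i0)) := by
  induction r with
  | zero =>
    intro y e hy hc ht hsum
    refine ⟨y, e, hy, ?_, ?_, ?_⟩
    · intro i; rcases hc i with h | h | h <;> omega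
    · simpa [mem_Fil_zero] using ht
    · simpa using hsum
  | succ r ih =>
    intro y e hy hc ht hsum
    push Not at ht
    obtain ⟨a0, ha0⟩ := ht
    rw [mem_Fil_succ] at ha0
    push Not at ha0
    obtain ⟨g, hg⟩ := ha0
    refine ih (fun i b => cof g (y i b)) (fun i => e i - 1) ?_ ?_ ?_ ?_
    · intro i a
      have := hy i a
      rcases Nat.eq_zero_or_pos (e i) with h | h
      · rw [h, mem_Fil_zero] at this
        rw [this, map_zero]; exact Submodule.zero_mem _
      · obtain ⟨e', he'⟩ : ∃ e', e i = e' + 1 := ⟨e i - 1, by omega⟩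
        rw [he'] at this ⊢
        exact mem_Fil_succ.1 this g
    · intro i; rcases hc i with h | h | h
      · left; omega
      · right; left; constructor <;> omega
      · by_cases h0 : e i = 0
        · left; omega
        · right; right; constructor <;> omega
    · push Not; exact ⟨a0, hg⟩
    · intro a
      have h1 : cof g (∑ i, (Z (x i) *ᵥ y i) a) ∈ Fil (s i0 + r) :=
        mem_Fil_succ.1 (hsum a) g
      rw [map_sum] at h1
      simp only [cof_Z_mulVec, Finset.sum_add_distrib] at h1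
      have h2 : ∑ i, sm (x i).M (alpha k g *ᵥ fun b => aug (y i b)) a ∈ Fil (s i0 + r) := by
        refine Submodule.sum_mem _ fun i _ => ?_
        by_cases h0 : e i = 0
        · have : ∀ b, y i b = 0 := fun b => by
            have := hy i b; rwa [h0, mem_Fil_zero] at this
          have h3 : sm (x i).M (alpha k g *ᵥ fun b => aug (y i b)) a = 0 := by
            simp [this, sm, Matrix.mulVec, dotProduct]
          rw [h3]; exact Submodule.zero_mem _
        · refine Fil_mono ?_ (sm_mem (hs i) _ a)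
          rcases hc i with h | h | h <;> omega
      exact (Submodule.add_mem_iff_left _ h2).1 h1

/-- vectors that are combinations of the `Z (x i)`, `s i < δ`, up to degree `< δ'` -/
noncomputable def Lsub (x : ι → A k n) (S : Finset ι) (d : ℕ) :
    Submodule k (Fin (n+1) → FreeAlgebra k (Lt n)) where
  carrier := {u | ∃ η : ι → Fin (n+1) → FreeAlgebra k (Lt n),
    ∀ a, u a - ∑ i ∈ S, (Z (x i) *ᵥ η i) a ∈ Fil d}
  zero_mem' := ⟨0, fun a => by simp⟩
  add_mem' := by
    rintro u v ⟨η, hη⟩ ⟨θ, hθ⟩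
    refine ⟨fun i => η i + θ i, fun a => ?_⟩
    have := Submodule.add_mem _ (hη a) (hθ a)
    convert this using 1
    simp only [Pi.add_apply, Matrix.mulVec_add, Finset.sum_add_distrib]
    abel
  smul_mem' := by
    rintro c u ⟨η, hη⟩
    refine ⟨fun i => c • η i, fun a => ?_⟩
    have := Submodule.smul_mem _ c (hη a)
    convert this using 1
    simp only [Pi.smul_apply, Matrix.mulVec_smul, smul_sub, Finset.smul_sum]

lemma key (hcard : Fintype.card ι ≤ n) (x : ι → A k n) (s : ι → ℕ)
    (hs : ∀ i a b, (x i).M a b ∈ Fil (s i)) (i0 : ι) (d : ℕ) (hd : s i0 = d + 1)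
    (y : ι → Fin (n+1) → FreeAlgebra k (Lt n)) (e : ι → ℕ) (hy : ∀ i a, y i a ∈ Fil (e i))
    (hc : ∀ i, e i = 0 ∨ s i + e i ≤ s i0 + 1) (hne : ¬ ∀ a, y i0 a = 0)
    (hsum : ∀ a, ∑ i, (Z (x i) *ᵥ y i) a ∈ Fil (s i0)) :
    ∃ c : ι → A k n, c i0 = 0 ∧ ∀ a b, (x i0 - ∑ i, x i * c i).M a b ∈ Fil d := by
  classical
  set S : Finset ι := Finset.univ.filter fun i => s i < d + 1 with hS
  set T : Finset ι := Finset.univ.filter fun i => s i = d + 1 with hT
  have hi0T : i0 ∈ T := by simp [hT, hd]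
  set c : ι → Fin (n+1) → k := fun i b => aug (y i b) with hcdef
  set L := Lsub x S d with hL
  -- the basic relation
  have hrel : ∀ g : Lt n, (fun a => ∑ i ∈ T, sm (x i).M (alpha k g *ᵥ c i) a) ∈ L := by
    intro g
    refine ⟨fun i => - fun b => cof g (y i b), fun a => ?_⟩
    have h1 : cof g (∑ i, (Z (x i) *ᵥ y i) a) ∈ Fil d := by
      have := hsum a
      rw [hd] at this
      exact mem_Fil_succ.1 this g
    rw [map_sum] at h1
    simp only [cof_Z_mulVec] at h1
    have h2 : ∑ i, ((Z (x i) *ᵥ fun b => cof g (y i b)) a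
          + sm (x i).M (alpha k g *ᵥ fun b => aug (y i b)) a)
        = (∑ i ∈ T, sm (x i).M (alpha k g *ᵥ c i) a
            + ∑ i ∈ S, (Z (x i) *ᵥ fun b => cof g (y i b)) a)
          + ∑ i ∈ S, sm (x i).M (alpha k g *ᵥ c i) a := by
      have hsplit : ∀ f : ι → FreeAlgebra k (Lt n), (∀ i, d + 1 < s i → f i = 0) →
          ∑ i, f i = ∑ i ∈ T, f i + ∑ i ∈ S, f i := by
        intro f hf
        rw [← Finset.sum_union]
        · symm
          apply Finset.sum_subset (Finset.subset_univ _)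
          intro i _ hi
          apply hf
          simp only [hS, hT, Finset.mem_union, Finset.mem_filter, Finset.mem_univ, true_and,
            not_or] at hi
          omega
        · rw [Finset.disjoint_left]
          intro i hi hi'
          simp only [hS, hT, Finset.mem_filter, Finset.mem_univ, true_and] at hi hi'
          omega
      rw [hsplit]
      · rw [Finset.sum_add_distrib, Finset.sum_add_distrib]
        have hT0 : ∑ i ∈ T, (Z (x i) *ᵥ fun b => cof g (y i b)) a = 0 := by
          refine Finset.sum_eq_zero fun i hi => ?_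
          have hsi : s i = d + 1 := by simpa [hT] using hi
          have hei : e i ≤ 1 := by
            rcases hc i with h | h
            · omega
            · rw [hd, hsi] at h; omega
          have : ∀ b, cof g (y i b) = 0 := fun b => by
            have h3 : y i b ∈ Fil (0+1) := Fil_mono (by omega) (hy i b)
            have := mem_Fil_succ.1 h3 g
            rwa [mem_Fil_zero] at this
          simp [this, Matrix.mulVec, dotProduct]
        rw [hT0, zero_add, add_assoc]
      · intro i hi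
        have hei : e i = 0 := by
          rcases hc i with h | h
          · exact h
          · rw [hd] at h; omega
        have : ∀ b, y i b = 0 := fun b => by
          have h3 := hy i b; rwa [hei, mem_Fil_zero] at h3
        simp [this, sm, Matrix.mulVec, dotProduct]
    rw [h2] at h1
    have h3 : ∑ i ∈ S, sm (x i).M (alpha k g *ᵥ c i) a ∈ Fil d := by
      refine Submodule.sum_mem _ fun i hi => ?_
      refine Fil_mono ?_ (sm_mem (hs i) _ a)
      have : s i < d + 1 := by simpa [hS] using hi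
      omega
    have h4 := (Submodule.add_mem_iff_left _ h3).1 h1
    convert h4 using 1
    simp only [Matrix.mulVec_neg, Pi.neg_apply, Finset.sum_neg_distrib, sub_neg_eq_add]
  -- the vectors D j l
  set D : Fin (n+1) → Fin (n+1) → (Fin (n+1) → FreeAlgebra k (Lt n)) :=
    fun j l a => ∑ i ∈ T, c i l • (x i).M a j with hD
  have hoff : ∀ j l, j ≠ l → D j l ∈ L := by
    intro j l hjl
    have := hrel (j, l)
    convert this using 1
    ext1 a
    simp only [hD]
    refine Finset.sum_congr rfl fun i _ => ?_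
    rw [alpha_mulVec_off hjl, sm_single]
  have hdiag : ∀ j, D j j - D 0 0 ∈ L := by
    intro j
    have := hrel (j, j)
    convert this using 1
    ext1 a
    simp only [hD, Pi.sub_apply, ← Finset.sum_sub_distrib]
    refine Finset.sum_congr rfl fun i _ => ?_
    rw [alpha_mulVec_diag, sm_sub, sm_single, sm_single]
  -- a vector orthogonal to all the c i
  obtain ⟨γ, hγ0, hγ⟩ : ∃ γ : Fin (n+1) → k, γ ≠ 0 ∧ ∀ i, ∑ l, γ l * c i l = 0 := by
    have hlt : Module.finrank k (ι → k) < Module.finrank k (Fin (n+1) → k) := by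
      rw [Module.finrank_fintype_fun_eq_card, Module.finrank_fintype_fun_eq_card, Fintype.card_fin]
      omega
    have := LinearMap.ker_ne_bot_of_finrank_lt (f := Matrix.mulVecLin (Matrix.of c)) hlt
    obtain ⟨γ, h1, h2⟩ := Submodule.exists_mem_ne_zero_of_ne_bot this
    refine ⟨γ, h2, fun i => ?_⟩
    have h3 := congrFun (LinearMap.mem_ker.1 h1) i
    simp only [Matrix.mulVecLin_apply, Matrix.mulVec, dotProduct, Matrix.of_apply,
      Pi.zero_apply] at h3
    simpa [mul_comm] using h3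
  have hDsum : ∀ j, ∑ l, γ l • D j l = 0 := by
    intro j
    ext1 a
    simp only [hD, Finset.sum_apply, Pi.smul_apply, Finset.smul_sum, Pi.zero_apply]
    rw [Finset.sum_comm]
    refine Finset.sum_eq_zero fun i _ => ?_
    simp only [smul_smul]
    rw [← Finset.sum_smul, hγ i, zero_smul]
  obtain ⟨j0, hj0⟩ : ∃ j, γ j ≠ 0 := by
    by_contra h
    push Not at h
    exact hγ0 (funext h)
  have hj0L : D j0 j0 ∈ L := by
    have h1 : γ j0 • D j0 j0 ∈ L := by
      have h2 := hDsum j0
      rw [← Finset.add_sum_erase _ _ (Finset.mem_univ j0)] at h2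
      rw [eq_neg_of_add_eq_zero_left h2]
      refine Submodule.neg_mem _ (Submodule.sum_mem _ fun l hl => Submodule.smul_mem _ _ ?_)
      exact hoff j0 l (Finset.ne_of_mem_erase hl).symm
    exact (Submodule.smul_mem_iff _ hj0).1 h1
  have h00 : D 0 0 ∈ L := by
    have := Submodule.sub_mem _ hj0L (hdiag j0)
    simpa using this
  have hall : ∀ j l, D j l ∈ L := by
    intro j l
    by_cases h : j = l
    · subst h
      have := Submodule.add_mem _ (hdiag j) h00
      simpa using this
    · exact hoff j l h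
  -- a nonzero entry of c i0
  obtain ⟨l0, hl0⟩ : ∃ l, c i0 l ≠ 0 := by
    by_contra h
    push Not at h
    apply hne
    intro a
    have hei : e i0 ≤ 1 := by
      rcases hc i0 with h' | h' <;> omega
    have h3 : y i0 a ∈ Fil (0+1) := Fil_mono (by omega) (hy i0 a)
    rw [eq_of_mem_Fil_one h3]
    have : aug (y i0 a) = 0 := h a
    rw [this, map_zero]
  have hfin : ∀ j, (fun a => (x i0).M a j + ∑ i ∈ T.erase i0, ((c i0 l0)⁻¹ * c i l0) • (x i).M a j)
      ∈ L := by
    intro j
    have h1 := Submodule.smul_mem _ ((c i0 l0)⁻¹) (hall j l0)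
    convert h1 using 1
    ext1 a
    simp only [hD, Pi.smul_apply, Finset.smul_sum, smul_smul]
    rw [← Finset.add_sum_erase _ _ hi0T, inv_mul_cancel₀ hl0, one_smul]
  choose η hη using hfin
  set N : ι → MF k n := fun i => if i ∈ S then Matrix.of fun a j => η j i a else 0 with hN
  set cc : ι → A k n := fun i => ⟨if i ∈ T.erase i0 then -((c i0 l0)⁻¹ * c i l0) else 0, N i⟩
    with hcc
  refine ⟨cc, ?_, ?_⟩
  · have : i0 ∉ S := by simp [hS, hd]
    simp only [hcc, hN, this, Finset.mem_erase, if_false, ne_eq, not_true, false_and]; rfl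
  · intro a b
    have h1 := hη b a
    convert h1 using 1
    have h3 : ∀ i, ((x i).s • N i + (x i).M * P k * N i : MF k n) a b
          = (if i ∈ S then (Z (x i) *ᵥ η b i) a else 0) := by
      intro i
      simp only [hN]
      split_ifs with hi
      · simp only [Z, Matrix.add_mulVec, Pi.add_apply, Matrix.smul_mulVec, Matrix.one_mulVec,
          Pi.smul_apply, Matrix.smul_apply, Matrix.of_apply, Matrix.add_apply]
        congr 1
      · simp
    have h2 : ∀ i, (x i * cc i).M a b
        = (if i ∈ T.erase i0 then -(((c i0 l0)⁻¹ * c i l0) • (x i).M a b) else 0)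
          + (if i ∈ S then (Z (x i) *ᵥ η b i) a else 0) := by
      intro i
      rw [← h3 i]
      simp only [mul_M, hcc, Matrix.add_apply, Matrix.smul_apply]
      split_ifs with hi
      · rw [neg_smul]; abel
      · rw [zero_smul]; abel
    have h4 : (x i0 - ∑ i, x i * cc i).M a b = (x i0).M a b - ∑ i, (x i * cc i).M a b := by
      rw [sub_eq_add_neg, add_M, neg_M, sum_M, Matrix.add_apply, Matrix.neg_apply, Matrix.sum_apply,
        sub_eq_add_neg]
    rw [h4]
    simp only [h2, Finset.sum_add_distrib, Finset.sum_ite_mem, Finset.univ_inter,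
      Finset.sum_neg_distrib]
    abel

end A

end Key

section Reduction

variable {k : Type} [Field k] {n : ℕ}

open Matrix

namespace A

variable {ι : Type} [Fintype ι] [DecidableEq ι]

/-- invertible matrices over `A` whose image in the dual numbers has determinant in `k` -/
def Good (g : (Matrix ι ι (A k n))ˣ) : Prop :=
  (Matrix.det ((phi (k := k) (n := n)).mapMatrix (g : Matrix ι ι (A k n)))).snd = 0

lemma good_one : Good (1 : (Matrix ι ι (A k n))ˣ) := by
  simp [Good]

lemma Good.mul {g h : (Matrix ι ι (A k n))ˣ} (hg : Good g) (hh : Good h) : Good (g * h) := by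
  unfold Good at *
  rw [Units.val_mul, map_mul, Matrix.det_mul, TrivSqZeroExt.snd_mul, hg, hh]
  simp

lemma Good.inv {g : (Matrix ι ι (A k n))ˣ} (hg : Good g) : Good g⁻¹ := by
  unfold Good at *
  set a := Matrix.det ((phi (k := k) (n := n)).mapMatrix (g : Matrix ι ι (A k n))) with ha
  set b := Matrix.det ((phi (k := k) (n := n)).mapMatrix ((g⁻¹ : (Matrix ι ι (A k n))ˣ) :
    Matrix ι ι (A k n))) with hb
  have hab : a * b = 1 := by
    rw [ha, hb, ← Matrix.det_mul, ← map_mul, Units.mul_inv, map_one, Matrix.det_one]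
  have h1 := congrArg TrivSqZeroExt.snd hab
  have h0 := congrArg TrivSqZeroExt.fst hab
  simp [hg] at h1 h0
  rcases h1 with h | h
  · rw [h, zero_mul] at h0; exact absurd h0 zero_ne_one
  · exact h

lemma good_of_mul_good {g h : (Matrix ι ι (A k n))ˣ} (hg : Good (g * h)) (hh : Good h) :
    Good g := by
  have := hg.mul hh.inv
  rwa [mul_inv_cancel_right] at this

/-- transvections -/
noncomputable def tv (a b : ι → A k n) (h : b ⬝ᵥ a = 0) : (Matrix ι ι (A k n))ˣ where
  val := 1 + Matrix.vecMulVec a b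
  inv := 1 - Matrix.vecMulVec a b
  val_inv := by
    have : Matrix.vecMulVec a b * Matrix.vecMulVec a b = 0 := by
      ext i j : 1
      simp only [Matrix.mul_apply, Matrix.vecMulVec_apply, Matrix.zero_apply]
      have h2 : ∀ l, a i * b l * (a l * b j) = a i * (b l * a l) * b j := fun l => by
        simp only [mul_assoc]
      simp only [h2]
      rw [← Finset.sum_mul, ← Finset.mul_sum]
      have : ∑ l, b l * a l = 0 := h
      rw [this, mul_zero, zero_mul]
    rw [mul_sub, add_mul, add_mul, this]; simp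
  inv_val := by
    have : Matrix.vecMulVec a b * Matrix.vecMulVec a b = 0 := by
      ext i j : 1
      simp only [Matrix.mul_apply, Matrix.vecMulVec_apply, Matrix.zero_apply]
      have h2 : ∀ l, a i * b l * (a l * b j) = a i * (b l * a l) * b j := fun l => by
        simp only [mul_assoc]
      simp only [h2]
      rw [← Finset.sum_mul, ← Finset.mul_sum]
      have : ∑ l, b l * a l = 0 := h
      rw [this, mul_zero, zero_mul]
    rw [mul_add, sub_mul, sub_mul, this]; simp

lemma good_tv (a b : ι → A k n) (h : b ⬝ᵥ a = 0) : Good (tv a b h) := by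
  unfold Good tv
  have h1 : (phi (k := k) (n := n)).mapMatrix (1 + Matrix.vecMulVec a b)
      = 1 + Matrix.replicateCol Unit (fun i => phi (a i)) *
          Matrix.replicateRow Unit (fun i => phi (b i)) := by
    rw [map_add, map_one]
    congr 1
    ext i j : 1
    simp [Matrix.vecMulVec_apply, Matrix.mul_apply]
  have h2 : (fun i => phi (b i)) ⬝ᵥ (fun i => phi (a i)) = 0 := by
    have : (fun i => phi (b i)) ⬝ᵥ (fun i => phi (a i)) = phi (b ⬝ᵥ a) := by
      simp [dotProduct, map_sum]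
    rw [this, h, map_zero]
  simp only [h1]
  rw [Matrix.det_one_add_replicateCol_mul_replicateRow, h2]
  simp

lemma tv_vecMul (a b : ι → A k n) (h : b ⬝ᵥ a = 0) (v : ι → A k n) :
    v ᵥ* (tv a b h : Matrix ι ι (A k n)) = fun j => v j + (v ⬝ᵥ a) * b j := by
  ext j : 1
  simp only [tv, Matrix.vecMul_add, Matrix.vecMul_one, Pi.add_apply]
  congr 1
  simp [Matrix.vecMul, dotProduct, Matrix.vecMulVec_apply, Finset.sum_mul, mul_assoc]

/-- two pairs in the same orbit of the group of good matrices -/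
def Rel (v w v' w' : ι → A k n) : Prop :=
  ∃ g : (Matrix ι ι (A k n))ˣ, Good g ∧ v ᵥ* (g : Matrix ι ι (A k n)) = v' ∧
    ((g⁻¹ : (Matrix ι ι (A k n))ˣ) : Matrix ι ι (A k n)) *ᵥ w = w'

lemma Rel.trans {v w v' w' v'' w'' : ι → A k n} (h : Rel v w v' w') (h' : Rel v' w' v'' w'') :
    Rel v w v'' w'' := by
  obtain ⟨g, hg, h1, h2⟩ := h
  obtain ⟨g', hg', h1', h2'⟩ := h'
  refine ⟨g * g', hg.mul hg', ?_, ?_⟩
  · rw [Units.val_mul, ← Matrix.vecMul_vecMul, h1, h1']
  · rw [_root_.mul_inv_rev, Units.val_mul, ← Matrix.mulVec_mulVec, h2, h2']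

lemma Rel.symm {v w v' w' : ι → A k n} (h : Rel v w v' w') : Rel v' w' v w := by
  obtain ⟨g, hg, h1, h2⟩ := h
  refine ⟨g⁻¹, hg.inv, ?_, ?_⟩
  · rw [← h1, Matrix.vecMul_vecMul, Units.mul_inv, Matrix.vecMul_one]
  · rw [← h2, inv_inv, Matrix.mulVec_mulVec, Units.mul_inv, Matrix.one_mulVec]

lemma Rel.dot {v w v' w' : ι → A k n} (h : Rel v w v' w') : v' ⬝ᵥ w' = v ⬝ᵥ w := by
  obtain ⟨g, hg, h1, h2⟩ := h
  rw [← h1, ← h2, ← Matrix.dotProduct_mulVec, Matrix.mulVec_mulVec, Units.mul_inv,
    Matrix.one_mulVec]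

lemma rel_tv (a b : ι → A k n) (h : b ⬝ᵥ a = 0) (v w : ι → A k n) :
    Rel v w (fun j => v j + (v ⬝ᵥ a) * b j) (((tv a b h)⁻¹ : (Matrix ι ι (A k n))ˣ).val *ᵥ w) :=
  ⟨tv a b h, good_tv a b h, tv_vecMul a b h v, rfl⟩

lemma tv_inv_mulVec (a b : ι → A k n) (h : b ⬝ᵥ a = 0) (w : ι → A k n) :
    ((tv a b h)⁻¹ : (Matrix ι ι (A k n))ˣ).val *ᵥ w = fun i => w i - a i * (b ⬝ᵥ w) := by
  have : ((tv a b h)⁻¹ : (Matrix ι ι (A k n))ˣ).val = 1 - Matrix.vecMulVec a b := rfl
  rw [this]
  ext i : 1
  rw [Matrix.sub_mulVec, Matrix.one_mulVec, Pi.sub_apply]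
  congr 1
  simp [Matrix.mulVec, dotProduct, Matrix.vecMulVec_apply, Finset.mul_sum, mul_assoc]

@[simp] lemma C_mul_C (r s : k) : (C r : A k n) * C s = C (r * s) := by
  apply A.ext <;> simp [C]

@[simp] lemma C_one : (C 1 : A k n) = 1 := rfl
@[simp] lemma C_zero : (C 0 : A k n) = 0 := rfl

/-- if a constant nonzero entry exists, clear everything -/
lemma finish (v w : ι → A k n) (i : ι) (r : k) (hr : r ≠ 0) (hi : v i = C r) (i0 : ι) :
    ∃ (w' : ι → A k n) (r' : k), r' ≠ 0 ∧ Rel v w (Pi.single i0 (C r')) w' := by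
  -- clear the other entries
  have hb1 : (fun j => if j = i then 0 else - (C r⁻¹ * v j)) ⬝ᵥ (Pi.single i (1 : A k n)) = 0 := by
    simp
  have h1 := rel_tv (Pi.single i (1 : A k n)) (fun j => if j = i then 0 else - (C r⁻¹ * v j)) hb1 v w
  have e1 : (fun j => v j + (v ⬝ᵥ (Pi.single i (1 : A k n)))
      * (if j = i then 0 else - (C r⁻¹ * v j))) = Pi.single i (C r) := by
    ext j : 1
    by_cases hj : j = i
    · subst hj; simp [hi]
    · simp only [hj, if_false, Pi.single_eq_of_ne hj, dotProduct_single, mul_one, hi, mul_neg,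
        ← mul_assoc, C_mul_C, mul_inv_cancel₀ hr, C_one, one_mul]
      abel
  rw [e1] at h1
  by_cases hii : i = i0
  · subst hii
    exact ⟨_, r, hr, h1⟩
  · set w1 := ((tv (Pi.single i (1 : A k n)) _ hb1)⁻¹ : (Matrix ι ι (A k n))ˣ).val *ᵥ w with hw1
    have hb2 : (Pi.single i0 (C r⁻¹) : ι → A k n) ⬝ᵥ (Pi.single i (1 : A k n)) = 0 := by
      simp [Pi.single_eq_of_ne hii]
    have h2 := rel_tv (Pi.single i (1 : A k n)) (Pi.single i0 (C r⁻¹)) hb2 (Pi.single i (C r)) w1
    set v2 : ι → A k n := fun j => (Pi.single i (C r) : ι → A k n) j +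
      ((Pi.single i (C r) : ι → A k n) ⬝ᵥ (Pi.single i (1 : A k n))) *
        (Pi.single i0 (C r⁻¹) : ι → A k n) j with hv2
    set w2 := ((tv _ _ hb2)⁻¹ : (Matrix ι ι (A k n))ˣ).val *ᵥ w1 with hw2
    have e2i : v2 i = C r := by
      simp [hv2, Pi.single_eq_of_ne hii]
    have e2i0 : v2 i0 = 1 := by
      simp [hv2, Pi.single_eq_of_ne (Ne.symm hii), mul_inv_cancel₀ hr]
    have e2j : ∀ j, j ≠ i → j ≠ i0 → v2 j = 0 := by
      intro j hj hj'
      simp [hv2, Pi.single_eq_of_ne hj, Pi.single_eq_of_ne hj']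
    have hb3 : (Pi.single i (- C r) : ι → A k n) ⬝ᵥ (Pi.single i0 (1 : A k n)) = 0 := by
      simp [Pi.single_eq_of_ne (Ne.symm hii)]
    have h3 := rel_tv (Pi.single i0 (1 : A k n)) (Pi.single i (- C r)) hb3 v2 w2
    have e3 : (fun j => v2 j + (v2 ⬝ᵥ (Pi.single i0 (1 : A k n)))
        * (Pi.single i (- C r) : ι → A k n) j) = Pi.single i0 (C 1) := by
      ext j : 1
      by_cases hj : j = i
      · subst hj
        simp [e2i, e2i0, Pi.single_eq_of_ne hii]
      · by_cases hj' : j = i0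
        · subst hj'
          simp [e2i0, Pi.single_eq_of_ne hj]
        · simp [e2j j hj hj', Pi.single_eq_of_ne hj, Pi.single_eq_of_ne hj']
    rw [e3] at h3
    exact ⟨_, 1, one_ne_zero, (h1.trans h2).trans h3⟩

end A

end Reduction

section Main

variable {k : Type} [Field k] {n : ℕ}

open Matrix

namespace A

lemma exists_deg (X : MF k n) : ∃ e, ∀ a b, X a b ∈ Fil e := by
  choose f hf using fun p : Fin (n+1) × Fin (n+1) => exists_mem_Fil (X p.1 p.2)
  refine ⟨Finset.univ.sup f, fun a b => Fil_mono ?_ (hf (a, b))⟩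
  exact Finset.le_sup (Finset.mem_univ _)

open Classical in
/-- degree (plus one) of a matrix -/
noncomputable def dg (X : MF k n) : ℕ := Nat.find (exists_deg X)

lemma dg_spec (X : MF k n) : ∀ a b, X a b ∈ Fil (dg X) := by
  classical
  exact Nat.find_spec (exists_deg X)

lemma dg_le {X : MF k n} {e : ℕ} (h : ∀ a b, X a b ∈ Fil e) : dg X ≤ e := by
  classical
  exact Nat.find_min' (exists_deg X) h

lemma dg_zero : dg (0 : MF k n) = 0 :=
  Nat.le_zero.1 (dg_le fun a b => by simp)

lemma eq_zero_of_dg {X : MF k n} (h : dg X = 0) : X = 0 := by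
  ext a b
  have := dg_spec X a b
  rwa [h, mem_Fil_zero] at this

lemma eq_C {x : A k n} (h : x.M = 0) : x = C x.s := A.ext rfl h

variable {ι : Type} [Fintype ι] [DecidableEq ι]

lemma reduce (hcard : Fintype.card ι ≤ n) (i0 : ι) (N : ℕ) :
    ∀ (v w : ι → A k n), ∑ i, dg (v i).M ≤ N → v ⬝ᵥ w = 1 →
      ∃ (w' : ι → A k n) (r' : k), r' ≠ 0 ∧ Rel v w (Pi.single i0 (C r')) w' := by
  classical
  induction N with
  | zero =>
    intro v w hN hvw
    have h0 : ∀ i, (v i).M = 0 := by
      intro i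
      apply eq_zero_of_dg
      have := Finset.single_le_sum (f := fun i => dg (v i).M) (fun _ _ => Nat.zero_le _)
        (Finset.mem_univ i)
      omega
    obtain ⟨i, hi⟩ : ∃ i, (v i).s ≠ 0 := by
      by_contra h
      push Not at h
      have : v = 0 := by
        ext1 i
        rw [eq_C (h0 i), h i]; simp
      rw [this, zero_dotProduct] at hvw
      have := congrArg A.s hvw
      simp at this
    exact finish v w i _ hi (eq_C (h0 i)) i0
  | succ N ih =>
    intro v w hN hvw
    by_cases hA : ∃ i, (v i).M = 0 ∧ (v i).s ≠ 0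
    · obtain ⟨i, h0, h1⟩ := hA
      exact finish v w i _ h1 (eq_C h0) i0
    push Not at hA
    have hv0 : ∀ i, (v i).M = 0 → v i = 0 := fun i h => by
      rw [eq_C h, hA i h]; simp
    set W : Finset ι := Finset.univ.filter fun i => v i ≠ 0 ∧ w i ≠ 0 with hW
    have hWne : W.Nonempty := by
      by_contra h
      rw [Finset.not_nonempty_iff_eq_empty] at h
      have : v ⬝ᵥ w = 0 := by
        refine Finset.sum_eq_zero fun i _ => ?_
        have : i ∉ W := by simp [h]
        simp only [hW, Finset.mem_filter, Finset.mem_univ, true_and, not_and_or, not_not] at this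
        rcases this with h | h <;> simp [h]
      rw [this] at hvw
      have := congrArg A.s hvw
      simp at this
    obtain ⟨i1, hi1W, hi1⟩ := Finset.exists_max_image W (fun i => dg (v i).M + dg (w i).M) hWne
    set T : Finset ι := W.filter fun i => dg (v i).M + dg (w i).M
      = dg (v i1).M + dg (w i1).M with hT
    have hTne : T.Nonempty := ⟨i1, by simp [hT, hi1W]⟩
    obtain ⟨j0, hj0T, hj0⟩ := Finset.exists_max_image T (fun i => dg (v i).M) hTne
    have hj0W : j0 ∈ W := (Finset.mem_filter.1 hj0T).1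
    have hj0e : dg (v j0).M + dg (w j0).M = dg (v i1).M + dg (w i1).M :=
      (Finset.mem_filter.1 hj0T).2
    have hvj0 : v j0 ≠ 0 := by
      have := hj0W; simp only [hW, Finset.mem_filter] at this; exact this.2.1
    have hwj0 : w j0 ≠ 0 := by
      have := hj0W; simp only [hW, Finset.mem_filter] at this; exact this.2.2
    have hmax : ∀ i ∈ W, dg (v i).M + dg (w i).M ≤ dg (v j0).M + dg (w j0).M ∧
        (dg (v j0).M < dg (v i).M → dg (v i).M + dg (w i).M < dg (v j0).M + dg (w j0).M) := by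
      intro i hi
      have h1 := hi1 i hi
      refine ⟨by rw [hj0e]; exact h1, fun h2 => ?_⟩
      rcases Nat.lt_or_eq_of_le h1 with h3 | h3
      · rw [hj0e]; exact h3
      · have : i ∈ T := Finset.mem_filter.2 ⟨hi, h3⟩
        have := hj0 i this
        omega
    obtain ⟨d, hd⟩ : ∃ d, dg (v j0).M = d + 1 := by
      refine ⟨dg (v j0).M - 1, ?_⟩
      have : dg (v j0).M ≠ 0 := fun h => hvj0 (hv0 _ (eq_zero_of_dg h))
      omega
    rcases Nat.eq_zero_or_eq_succ_pred (dg (w j0).M) with hr | hr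
    · -- `w j0` is a nonzero constant
      have hwM := eq_zero_of_dg hr
      have hwC := eq_C hwM
      set μ := (w j0).s with hμ
      have hμ0 : μ ≠ 0 := by
        intro h; apply hwj0; rw [hwC, h]; simp
      have hb : (Pi.single j0 (1 : A k n) : ι → A k n) ⬝ᵥ
          (fun i => if i = j0 then 0 else w i * C μ⁻¹) = 0 := by
        simp
      have h1 := rel_tv (fun i => if i = j0 then 0 else w i * C μ⁻¹) (Pi.single j0 (1 : A k n))
        hb v w
      set v1 := (fun j => v j + (v ⬝ᵥ fun i => if i = j0 then 0 else w i * C μ⁻¹) *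
        (Pi.single j0 (1 : A k n) : ι → A k n) j) with hv1
      have h2 : v1 j0 = C μ⁻¹ := by
        have h3 : (v ⬝ᵥ fun i => if i = j0 then 0 else w i * C μ⁻¹)
            = (∑ i ∈ Finset.univ.erase j0, v i * w i) * C μ⁻¹ := by
          rw [dotProduct, ← Finset.add_sum_erase _ _ (Finset.mem_univ j0), Finset.sum_mul]
          simp only [if_true, mul_zero, zero_add]
          refine Finset.sum_congr rfl fun i hi => ?_
          rw [if_neg (Finset.ne_of_mem_erase hi), mul_assoc]
        have h4 : v j0 * w j0 + ∑ i ∈ Finset.univ.erase j0, v i * w i = 1 := by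
          rw [Finset.add_sum_erase _ (fun i => v i * w i) (Finset.mem_univ j0)]; exact hvw
        have h5 : v j0 = v j0 * w j0 * C μ⁻¹ := by
          rw [mul_assoc, hwC, C_mul_C, mul_inv_cancel₀ hμ0]; simp
        simp only [hv1, Pi.single_eq_same, mul_one]
        rw [h3, eq_sub_iff_add_eq'.2 h4, sub_mul, ← h5]
        simp
      obtain ⟨w', r', hr', h6⟩ := finish v1 _ j0 _ (inv_ne_zero hμ0) h2 i0
      exact ⟨w', r', hr', h1.trans h6⟩
    · -- the main case
      set r := (dg (w j0).M).pred with hrdef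
      have hcol : ∃ q, ¬ ∀ a, (w j0).M a q ∈ Fil r := by
        by_contra h
        push Not at h
        have := dg_le (X := (w j0).M) (e := r) (fun a b => h b a)
        omega
      obtain ⟨q, hq⟩ := hcol
      set y : ι → Fin (n+1) → FreeAlgebra k (Lt n) :=
        fun i a => if v i = 0 then 0 else (w i).M a q with hy
      set e : ι → ℕ := fun i => if v i = 0 then 0 else dg (w i).M with he
      have hsum : ∀ a, ∑ i, (Z (v i) *ᵥ y i) a ∈ Fil (dg (v j0).M + r) := by
        intro a
        have h1 : ∀ i, (v i * w i).M a q = (Z (v i) *ᵥ y i) a + (w i).s • (v i).M a q := by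
          intro i
          simp only [hy]
          split_ifs with hvi
          · simp [hvi, Z, Matrix.mulVec, dotProduct]
          · simp only [mul_M, Matrix.add_apply, Matrix.smul_apply, Z, Matrix.add_mulVec,
              Pi.add_apply, Matrix.smul_mulVec, Matrix.one_mulVec, Pi.smul_apply]
            rw [add_right_comm]
            congr 1
        have h2 : ∑ i, (v i * w i).M a q = 0 := by
          rw [← Matrix.sum_apply, ← sum_M]
          have : (∑ i, v i * w i) = 1 := hvw
          rw [this]; simp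
        simp only [h1, Finset.sum_add_distrib] at h2
        rw [eq_neg_of_add_eq_zero_left h2]
        refine Submodule.neg_mem _ (Submodule.sum_mem _ fun i _ => ?_)
        by_cases hi : i ∈ W
        · refine Submodule.smul_mem _ _ (Fil_mono ?_ (dg_spec (v i).M a q))
          obtain ⟨h3, h4⟩ := hmax i hi
          by_cases h5 : dg (v j0).M < dg (v i).M
          · have := h4 h5; omega
          · omega
        · simp only [hW, Finset.mem_filter, Finset.mem_univ, true_and, not_and_or, not_not] at hi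
          rcases hi with h | h
          · simp [h]
          · simp [h]
      obtain ⟨y', e', hy', he', hne', hsum'⟩ := peel v (fun i => dg (v i).M)
        (fun i => dg_spec (v i).M) j0 r y e
        (by
          intro i a
          simp only [hy, he]
          split_ifs with h
          · exact Submodule.zero_mem _
          · exact dg_spec _ a q)
        (by
          intro i
          simp only [he]
          by_cases h : v i = 0
          · left; simp [h]
          · by_cases h' : w i = 0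
            · left; simp [h, h', dg_zero]
            · have hi : i ∈ W := by simp [hW, h, h']
              obtain ⟨h3, h4⟩ := hmax i hi
              rw [if_neg h]
              right
              by_cases h5 : dg (v j0).M < dg (v i).M
              · right; have := h4 h5; exact ⟨h5, by omega⟩
              · left; exact ⟨by omega, by omega⟩)
        (by
          simp only [hy, hvj0, if_false]; exact hq)
        hsum
      obtain ⟨c, hc0, hc⟩ := key hcard v (fun i => dg (v i).M) (fun i => dg_spec (v i).M) j0 d hd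
        y' e' hy' he' hne' hsum'
      have hb : (Pi.single j0 (1 : A k n) : ι → A k n) ⬝ᵥ (fun i => - c i) = 0 := by
        simp [hc0]
      have h1 := rel_tv (fun i => - c i) (Pi.single j0 (1 : A k n)) hb v w
      set v1 := (fun j => v j + (v ⬝ᵥ fun i => - c i) *
        (Pi.single j0 (1 : A k n) : ι → A k n) j) with hv1
      have hv1j0 : v1 j0 = v j0 - ∑ i, v i * c i := by
        simp [hv1, dotProduct, sub_eq_add_neg]
      have hv1j : ∀ j, j ≠ j0 → v1 j = v j := by
        intro j hj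
        simp [hv1, Pi.single_eq_of_ne hj]
      have hN1 : ∑ i, dg (v1 i).M ≤ N := by
        have h2 : dg (v1 j0).M ≤ d := by
          rw [hv1j0]; exact dg_le hc
        rw [← Finset.add_sum_erase _ _ (Finset.mem_univ j0)] at hN ⊢
        have h3 : ∑ i ∈ Finset.univ.erase j0, dg (v1 i).M
            = ∑ i ∈ Finset.univ.erase j0, dg (v i).M :=
          Finset.sum_congr rfl fun i hi => by rw [hv1j i (Finset.ne_of_mem_erase hi)]
        omega
      obtain ⟨w', r', hr', h6⟩ := ih v1 _ hN1 (by rw [h1.dot]; exact hvw)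
      exact ⟨w', r', hr', h1.trans h6⟩

/-- the scaling matrix -/
lemma rel_scale (i0 : ι) (r : k) (hr : r ≠ 0) (w : ι → A k n) :
    ∃ w', Rel (Pi.single i0 (C r)) w (Pi.single i0 1) w' := by
  classical
  let g : (Matrix ι ι (A k n))ˣ :=
    { val := Matrix.diagonal fun i => C (if i = i0 then r⁻¹ else 1)
      inv := Matrix.diagonal fun i => C (if i = i0 then r else 1)
      val_inv := by
        rw [Matrix.diagonal_mul_diagonal, ← Matrix.diagonal_one]
        congr 1; ext1 i
        split_ifs <;> simp [hr]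
      inv_val := by
        rw [Matrix.diagonal_mul_diagonal, ← Matrix.diagonal_one]
        congr 1; ext1 i
        split_ifs <;> simp [hr] }
  refine ⟨_, g, ?_, ?_, rfl⟩
  · have h1 : (phi (k := k) (n := n)).mapMatrix (g : Matrix ι ι (A k n))
        = Matrix.diagonal fun i => TrivSqZeroExt.inl (if i = i0 then r⁻¹ else 1) := by
      ext i j : 1
      simp only [g, RingHom.mapMatrix_apply, Matrix.map_apply, Matrix.diagonal_apply]
      split_ifs <;> simp [phi, C]
    unfold Good
    rw [h1, Matrix.det_diagonal]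
    have h2 : ∏ i, (TrivSqZeroExt.inl (if i = i0 then r⁻¹ else 1) : DualNumber k)
        = TrivSqZeroExt.inl (∏ i, if i = i0 then r⁻¹ else 1) :=
      (map_prod (TrivSqZeroExt.inlHom k k) _ _).symm
    rw [h2, TrivSqZeroExt.snd_inl]
  · ext1 j
    simp only [g, Matrix.vecMul_diagonal]
    by_cases hj : j = i0
    · subst hj; simp [hr]
    · simp [Pi.single_eq_of_ne hj]

lemma complete (i0 : ι) (v w : ι → A k n) (h : v ⬝ᵥ w = 1)
    (hred : ∃ (w' : ι → A k n) (r' : k), r' ≠ 0 ∧ Rel v w (Pi.single i0 (C r')) w') :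
    Rel v w (Pi.single i0 1) (Pi.single i0 1) := by
  classical
  obtain ⟨w1, r, hr, h1⟩ := hred
  obtain ⟨w2, h2⟩ := rel_scale i0 r hr w1
  have h12 := h1.trans h2
  have hd : (Pi.single i0 (1 : A k n) : ι → A k n) ⬝ᵥ w2 = 1 := by rw [h12.dot]; exact h
  have hw2 : w2 i0 = 1 := by simpa using hd
  have hb : (Pi.single i0 (1 : A k n) : ι → A k n) ⬝ᵥ (fun i => if i = i0 then 0 else w2 i) = 0 := by
    simp
  have h3 := rel_tv (fun i => if i = i0 then 0 else w2 i) (Pi.single i0 (1 : A k n)) hb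
    (Pi.single i0 1) w2
  rw [tv_inv_mulVec] at h3
  have e1 : (fun j => (Pi.single i0 (1 : A k n) : ι → A k n) j +
      ((Pi.single i0 (1 : A k n) : ι → A k n) ⬝ᵥ fun i => if i = i0 then 0 else w2 i) *
        (Pi.single i0 (1 : A k n) : ι → A k n) j) = Pi.single i0 1 := by
    rw [hb]; ext1 j; simp
  have e2 : (fun i => w2 i - (if i = i0 then 0 else w2 i) *
      ((Pi.single i0 (1 : A k n) : ι → A k n) ⬝ᵥ w2)) = Pi.single i0 1 := by
    ext1 j
    rw [hd]
    by_cases hj : j = i0
    · subst hj; simp [hw2]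
    · simp [hj]
  rw [e1, e2] at h3
  exact h12.trans h3

/-- Reduction of a short dual pair to the standard one. -/
theorem reduce_pair (hcard : Fintype.card ι ≤ n) (i0 : ι) (v w : ι → A k n) (h : v ⬝ᵥ w = 1) :
    Rel v w (Pi.single i0 1) (Pi.single i0 1) :=
  complete i0 v w h (reduce hcard i0 _ v w le_rfl h)

lemma rel_single (i i0 : ι) :
    Rel (Pi.single i (1 : A k n)) (Pi.single i 1) (Pi.single i0 1) (Pi.single i0 1) :=
  complete i0 _ _ (by simp) (finish _ _ i 1 one_ne_zero (by simp) i0)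

end A

end Main

section Block

variable {k : Type} [Field k] {n : ℕ}

open Matrix

namespace A

/-- `diag(1, g)` -/
def bext {m : ℕ} (g : Matrix (Fin m) (Fin m) (A k n)) : Matrix (Fin (m+1)) (Fin (m+1)) (A k n) :=
  Matrix.of (Fin.cons (Fin.cons 1 0) fun i => Fin.cons 0 (g i))

lemma bext_one {m : ℕ} : bext (1 : Matrix (Fin m) (Fin m) (A k n)) = 1 := by
  ext i j : 1
  refine Fin.cases ?_ (fun i => ?_) i <;> refine Fin.cases ?_ (fun j => ?_) j
  · simp [bext]
  · simp [bext, Matrix.one_apply, (Fin.succ_ne_zero j).symm]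
  · simp [bext, Matrix.one_apply]
  · simp [bext, Matrix.one_apply]

lemma bext_mul {m : ℕ} (g h : Matrix (Fin m) (Fin m) (A k n)) : bext g * bext h = bext (g * h) := by
  ext i j : 1
  rw [Matrix.mul_apply, Fin.sum_univ_succ]
  refine Fin.cases ?_ (fun i => ?_) i <;> refine Fin.cases ?_ (fun j => ?_) j
  · simp [bext]
  · simp [bext]
  · simp [bext]
  · simp [bext, Matrix.mul_apply]

lemma vecMul_bext {m : ℕ} (g : Matrix (Fin m) (Fin m) (A k n)) (a : A k n) (v : Fin m → A k n) :
    (Fin.cons a v : Fin (m+1) → A k n) ᵥ* bext g = Fin.cons a (v ᵥ* g) := by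
  ext j : 1
  rw [Matrix.vecMul, dotProduct, Fin.sum_univ_succ]
  refine Fin.cases ?_ (fun j => ?_) j
  · simp [bext]
  · simp [bext, Matrix.vecMul, dotProduct]

lemma bext_mulVec {m : ℕ} (g : Matrix (Fin m) (Fin m) (A k n)) (a : A k n) (v : Fin m → A k n) :
    bext g *ᵥ (Fin.cons a v : Fin (m+1) → A k n) = Fin.cons a (g *ᵥ v) := by
  ext j : 1
  rw [Matrix.mulVec, dotProduct, Fin.sum_univ_succ]
  refine Fin.cases ?_ (fun j => ?_) j
  · simp [bext]
  · simp [bext, Matrix.mulVec, dotProduct]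

lemma det_row {m : ℕ} (h : Matrix (Fin (m+1)) (Fin (m+1)) (A k n))
    (h0 : (Pi.single 0 1 : Fin (m+1) → A k n) ᵥ* h = Pi.single 0 1) :
    Matrix.det ((phi (k := k) (n := n)).mapMatrix h)
      = Matrix.det ((phi (k := k) (n := n)).mapMatrix (h.submatrix Fin.succ Fin.succ)) := by
  have hrow : ∀ j, h 0 j = (Pi.single 0 1 : Fin (m+1) → A k n) j := by
    intro j
    have := congrFun h0 j
    simpa using this
  rw [Matrix.det_succ_row_zero, Fin.sum_univ_succ]
  rw [Finset.sum_eq_zero]
  · simp only [RingHom.mapMatrix_apply, Matrix.map_apply, hrow, Pi.single_eq_same, map_one,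
      Fin.val_zero, pow_zero, one_mul, add_zero, Fin.succAbove_zero, mul_one]
    rfl
  · intro j _
    simp only [RingHom.mapMatrix_apply, Matrix.map_apply, hrow]
    rw [Pi.single_eq_of_ne (Fin.succ_ne_zero j), map_zero, mul_zero, zero_mul]

/-- the lower right block of a matrix fixing `e_0` -/
noncomputable def lower {m : ℕ} (h : (Matrix (Fin (m+1)) (Fin (m+1)) (A k n))ˣ)
    (h0 : (Pi.single 0 1 : Fin (m+1) → A k n) ᵥ* (h : Matrix (Fin (m+1)) (Fin (m+1)) (A k n))
      = Pi.single 0 1) : (Matrix (Fin m) (Fin m) (A k n))ˣ where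
  val := (h : Matrix (Fin (m+1)) (Fin (m+1)) (A k n)).submatrix Fin.succ Fin.succ
  inv := ((h⁻¹ : (Matrix (Fin (m+1)) (Fin (m+1)) (A k n))ˣ) :
    Matrix (Fin (m+1)) (Fin (m+1)) (A k n)).submatrix Fin.succ Fin.succ
  val_inv := by
    have h0' : (Pi.single 0 1 : Fin (m+1) → A k n) ᵥ*
        ((h⁻¹ : (Matrix (Fin (m+1)) (Fin (m+1)) (A k n))ˣ) :
          Matrix (Fin (m+1)) (Fin (m+1)) (A k n)) = Pi.single 0 1 := by
      conv_lhs => rw [← h0]
      rw [Matrix.vecMul_vecMul, Units.mul_inv, Matrix.vecMul_one]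
    ext i j : 1
    have h1 := congrFun (congrFun (Units.mul_inv h) i.succ) j.succ
    rw [Matrix.mul_apply, Fin.sum_univ_succ] at h1
    have h2 := congrFun h0' j.succ
    rw [Matrix.single_one_vecMul, Pi.single_eq_of_ne (Fin.succ_ne_zero j)] at h2
    have h2' : ((h⁻¹ : (Matrix (Fin (m+1)) (Fin (m+1)) (A k n))ˣ) :
          Matrix (Fin (m+1)) (Fin (m+1)) (A k n)) 0 j.succ = 0 := h2
    rw [h2', mul_zero, zero_add] at h1
    rw [Matrix.mul_apply]
    simp only [Matrix.submatrix_apply]
    rw [h1]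
    simp [Matrix.one_apply]
  inv_val := by
    ext i j : 1
    have h1 := congrFun (congrFun (Units.inv_mul h) i.succ) j.succ
    rw [Matrix.mul_apply, Fin.sum_univ_succ] at h1
    have h2 := congrFun h0 j.succ
    rw [Matrix.single_one_vecMul, Pi.single_eq_of_ne (Fin.succ_ne_zero j)] at h2
    have h2' : (h : Matrix (Fin (m+1)) (Fin (m+1)) (A k n)) 0 j.succ = 0 := h2
    rw [h2', mul_zero, zero_add] at h1
    rw [Matrix.mul_apply]
    simp only [Matrix.submatrix_apply]
    rw [h1]
    simp [Matrix.one_apply]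

lemma good_of_fix {m : ℕ} (hm : ∀ g : (Matrix (Fin m) (Fin m) (A k n))ˣ, Good g)
    (h : (Matrix (Fin (m+1)) (Fin (m+1)) (A k n))ˣ)
    (h0 : (Pi.single 0 1 : Fin (m+1) → A k n) ᵥ* (h : Matrix (Fin (m+1)) (Fin (m+1)) (A k n))
      = Pi.single 0 1) : Good h := by
  have := hm (lower h h0)
  unfold Good at *
  rw [det_row _ h0]
  exact this

/-- every invertible matrix of size at most `n` over `A k n` is good -/
theorem all_good : ∀ m ≤ n, ∀ g : (Matrix (Fin m) (Fin m) (A k n))ˣ, Good g := by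
  intro m
  induction m with
  | zero =>
    intro _ g
    unfold Good
    rw [Matrix.det_isEmpty]; simp
  | succ m ih =>
    intro hm g
    have hdot : ((Pi.single 0 1 : Fin (m+1) → A k n) ᵥ* (g : Matrix (Fin (m+1)) (Fin (m+1)) (A k n)))
        ⬝ᵥ (((g⁻¹ : (Matrix (Fin (m+1)) (Fin (m+1)) (A k n))ˣ) :
          Matrix (Fin (m+1)) (Fin (m+1)) (A k n)) *ᵥ (Pi.single 0 1 : Fin (m+1) → A k n)) = 1 := by
      rw [← Matrix.dotProduct_mulVec, Matrix.mulVec_mulVec, Units.mul_inv, Matrix.one_mulVec]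
      simp
    obtain ⟨γ, hγ, h1, -⟩ := reduce_pair (by simpa using hm) (0 : Fin (m+1)) _ _ hdot
    have h2 : Good (g * γ) := by
      apply good_of_fix (ih (by omega))
      rw [Units.val_mul, ← Matrix.vecMul_vecMul]
      exact h1
    exact good_of_mul_good h2 hγ

lemma Rel.bext {m : ℕ} {v w v' w' : Fin m → A k n} (h : Rel v w v' w') (a b : A k n) :
    Rel (Fin.cons a v : Fin (m+1) → A k n) (Fin.cons b w) (Fin.cons a v') (Fin.cons b w') := by
  obtain ⟨g, hg, h1, h2⟩ := h
  let γ : (Matrix (Fin (m+1)) (Fin (m+1)) (A k n))ˣ :=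
    { val := A.bext g
      inv := A.bext ((g⁻¹ : (Matrix (Fin m) (Fin m) (A k n))ˣ) : Matrix (Fin m) (Fin m) (A k n))
      val_inv := by rw [bext_mul, Units.mul_inv, bext_one]
      inv_val := by rw [bext_mul, Units.inv_mul, bext_one] }
  refine ⟨γ, ?_, ?_, ?_⟩
  · unfold Good at *
    have h0 : (Pi.single 0 1 : Fin (m+1) → A k n) ᵥ* (γ : Matrix (Fin (m+1)) (Fin (m+1)) (A k n))
      = Pi.single 0 1 := by
      have := vecMul_bext (g : Matrix (Fin m) (Fin m) (A k n)) 1 0
      rw [Matrix.zero_vecMul] at this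
      have e : (Pi.single 0 1 : Fin (m+1) → A k n) = Fin.cons 1 0 := by
        ext j : 1
        refine Fin.cases ?_ (fun j => ?_) j
        · simp
        · simp
      rw [e]; exact this
    rw [det_row _ h0]
    have : (γ : Matrix (Fin (m+1)) (Fin (m+1)) (A k n)).submatrix Fin.succ Fin.succ = g := by
      ext i j : 1
      simp [γ, A.bext]
    rw [this]; exact hg
  · change (Fin.cons a v : Fin (m+1) → A k n) ᵥ* A.bext g = _
    rw [vecMul_bext, h1]
  · change A.bext ((g⁻¹ : (Matrix (Fin m) (Fin m) (A k n))ˣ) : Matrix (Fin m) (Fin m) (A k n)) *ᵥ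
      (Fin.cons b w : Fin (m+1) → A k n) = _
    rw [bext_mulVec, h2]

/-- adjacent vertices: the property of being equivalent to the base vertex is preserved -/
theorem edge (hn : 1 ≤ n) (v0 w0 v1 w1 : Fin (n+1) → A k n) (h01 : v0 ⬝ᵥ w1 = 0)
    (h10 : v1 ⬝ᵥ w0 = 0) (h11 : v1 ⬝ᵥ w1 = 1)
    (h : Rel v0 w0 (Pi.single 0 1) (Pi.single 0 1)) :
    Rel v1 w1 (Pi.single 0 1) (Pi.single 0 1) := by
  obtain ⟨g, hg, h1, h2⟩ := h
  set v1' := v1 ᵥ* (g : Matrix (Fin (n+1)) (Fin (n+1)) (A k n)) with hv1'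
  set w1' := ((g⁻¹ : (Matrix (Fin (n+1)) (Fin (n+1)) (A k n))ˣ) :
    Matrix (Fin (n+1)) (Fin (n+1)) (A k n)) *ᵥ w1 with hw1'
  have hr : Rel v1 w1 v1' w1' := ⟨g, hg, rfl, rfl⟩
  have e1 : v1' 0 = 0 := by
    have h3 : v1' ⬝ᵥ (((g⁻¹ : (Matrix (Fin (n+1)) (Fin (n+1)) (A k n))ˣ) :
      Matrix (Fin (n+1)) (Fin (n+1)) (A k n)) *ᵥ w0) = 0 := by
      rw [hv1', ← Matrix.dotProduct_mulVec, Matrix.mulVec_mulVec, Units.mul_inv,
        Matrix.one_mulVec, h10]
    rw [h2] at h3
    simpa using h3
  have e2 : w1' 0 = 0 := by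
    have h3 : (v0 ᵥ* (g : Matrix (Fin (n+1)) (Fin (n+1)) (A k n))) ⬝ᵥ w1' = 0 := by
      rw [hw1', ← Matrix.dotProduct_mulVec, Matrix.mulVec_mulVec, Units.mul_inv,
        Matrix.one_mulVec, h01]
    rw [h1] at h3
    simpa using h3
  have e3 : v1' ⬝ᵥ w1' = 1 := by rw [hr.dot, h11]
  have e4 : (fun j : Fin n => v1' j.succ) ⬝ᵥ (fun j : Fin n => w1' j.succ) = 1 := by
    rw [dotProduct, Fin.sum_univ_succ, e1, zero_mul, zero_add] at e3
    exact e3
  have e5 := reduce_pair (by simp) (⟨0, hn⟩ : Fin n) _ _ e4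
  have e6 := e5.bext 0 0
  have c1 : (Fin.cons 0 (fun j : Fin n => v1' j.succ) : Fin (n+1) → A k n) = v1' := by
    rw [← e1]; exact Fin.cons_self_tail v1'
  have c2 : (Fin.cons 0 (fun j : Fin n => w1' j.succ) : Fin (n+1) → A k n) = w1' := by
    rw [← e2]; exact Fin.cons_self_tail w1'
  have c3 : (Fin.cons 0 (Pi.single (⟨0, hn⟩ : Fin n) 1) : Fin (n+1) → A k n)
      = Pi.single (Fin.succ ⟨0, hn⟩) 1 := by
    ext j : 1
    refine Fin.cases ?_ (fun j => ?_) j
    · rw [Fin.cons_zero, Pi.single_eq_of_ne (Fin.succ_ne_zero _).symm]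
    · rw [Fin.cons_succ]
      by_cases hj : j = ⟨0, hn⟩
      · subst hj; simp
      · rw [Pi.single_eq_of_ne hj, Pi.single_eq_of_ne (fun h => hj (Fin.succ_injective _ h))]
  rw [c1, c2, c3] at e6
  exact (hr.trans e6).trans (rel_single _ 0)

/-- the unipotent matrix `1 + E` -/
noncomputable def uE : (Matrix (Fin (n+1)) (Fin (n+1)) (A k n))ˣ where
  val := 1 + E
  inv := 1 - E
  val_inv := by rw [mul_sub, add_mul, add_mul, E_mul_E]; simp
  inv_val := by rw [mul_add, sub_mul, sub_mul, E_mul_E]; simp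

lemma not_good_uE : ¬ Good (uE (k := k) (n := n)) := by
  unfold Good
  have h1 : (phi (k := k) (n := n)).mapMatrix ((uE (k := k) (n := n) :
      (Matrix (Fin (n+1)) (Fin (n+1)) (A k n))ˣ) : Matrix (Fin (n+1)) (Fin (n+1)) (A k n))
      = Matrix.diagonal fun i => if i = 0 then 1 + TrivSqZeroExt.inr 1 else 1 := by
    ext i j : 1
    simp only [uE, E, RingHom.mapMatrix_apply, Matrix.map_apply, Matrix.add_apply,
      Matrix.one_apply, Matrix.diagonal_apply, Matrix.of_apply, map_add]
    by_cases hij : i = j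
    · subst hij
      by_cases hi : i = 0
      · subst hi
        simp [phi]
      · simp [phi, hi, Matrix.single_apply]
    · by_cases hi : i = 0
      · subst hi
        simp [phi, hij, Matrix.single_apply, (Ne.symm hij)]
      · simp [phi, hij, hi, Matrix.single_apply]
  rw [h1, Matrix.det_diagonal, Finset.prod_ite_eq' Finset.univ (0 : Fin (n+1))]
  simp

theorem not_rel (i : Fin (n+1)) :
    ¬ Rel ((Pi.single i 1 : Fin (n+1) → A k n) ᵥ*
        ((uE : (Matrix (Fin (n+1)) (Fin (n+1)) (A k n))ˣ) :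
          Matrix (Fin (n+1)) (Fin (n+1)) (A k n)))
      (((uE⁻¹ : (Matrix (Fin (n+1)) (Fin (n+1)) (A k n))ˣ) :
          Matrix (Fin (n+1)) (Fin (n+1)) (A k n)) *ᵥ
        (Pi.single i 1 : Fin (n+1) → A k n)) (Pi.single 0 1) (Pi.single 0 1) := by
  rintro ⟨γ, hγ, h1, -⟩
  obtain ⟨s, hs, h2, -⟩ := rel_single (k := k) (n := n) (0 : Fin (n+1)) i
  have h3 : Good (s * uE * γ) := by
    apply good_of_fix (all_good n le_rfl)
    rw [Units.val_mul, Units.val_mul, ← Matrix.vecMul_vecMul, ← Matrix.vecMul_vecMul, h2, h1]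
  have h4 : Good (s * uE) := good_of_mul_good h3 hγ
  have h5 : Good (uE (k := k) (n := n)) := by
    have := hs.inv.mul h4
    rwa [inv_mul_cancel_left] at this
  exact not_good_uE h5

end A

end Block

section Final

open Matrix

section Chain

variable {R : Type u} [Ring R] {n q : ℕ}

instance subsingleton_PBC_zero : Subsingleton (PBC R n 0) := by
  constructor
  have key : ∀ σ : PBC R n 0, σ.C = ⊤ := by
    intro σ
    have := σ.compl.sup_eq_top
    have hr : Set.range σ.v = ∅ := Set.range_eq_empty _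
    rw [hr, Submodule.span_empty, bot_sup_eq] at this
    exact this
  intro σ τ
  apply PBC.ext
  · exact Subsingleton.elim _ _
  · rw [key σ, key τ]

/-- dual functionals are unique -/
lemma dual_unique (σ : PBC R n 1) {w w' : Fin n → R} (h : σ.v 0 ⬝ᵥ w = 1)
    (hC : ∀ x ∈ σ.C, x ⬝ᵥ w = 0) (h' : σ.v 0 ⬝ᵥ w' = 1) (hC' : ∀ x ∈ σ.C, x ⬝ᵥ w' = 0) :
    w = w' := by
  ext l
  have h1 : (Pi.single l 1 : Fin n → R) ∈ Submodule.span R (Set.range σ.v) ⊔ σ.C := by
    rw [σ.compl.sup_eq_top]; trivial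
  obtain ⟨y, hy, c, hc, hyc⟩ := Submodule.mem_sup.1 h1
  have hr : Set.range σ.v = {σ.v 0} := by
    ext x; simp [Fin.exists_fin_one, eq_comm]
  rw [hr] at hy
  obtain ⟨r, rfl⟩ := Submodule.mem_span_singleton.1 hy
  have e1 : (Pi.single l (1 : R) : Fin n → R) ⬝ᵥ w = r := by
    rw [← hyc, add_dotProduct, smul_dotProduct, h, hC c hc]; simp
  have e2 : (Pi.single l (1 : R) : Fin n → R) ⬝ᵥ w' = r := by
    rw [← hyc, add_dotProduct, smul_dotProduct, h', hC' c hc]; simp
  rw [single_one_dotProduct] at e1 e2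
  rw [e1, e2]

/-- An abstract criterion: if some property of dual pairs is constant along edges, holds for the
standard vertex and fails for two translates of it, then the homology in degree `0` is nonzero. -/
lemma nonvanishing {m : ℕ} (hm : 1 ≤ m)
    (κ : (Fin (m + 1) → R) → (Fin (m + 1) → R) → Prop)
    (hedge : ∀ v0 w0 v1 w1 : Fin (m + 1) → R, v0 ⬝ᵥ w0 = 1 → v1 ⬝ᵥ w1 = 1 → v0 ⬝ᵥ w1 = 0 →
      v1 ⬝ᵥ w0 = 0 → κ v0 w0 → κ v1 w1)
    (hbase : κ (Pi.single 0 1) (Pi.single 0 1))
    (g : (Matrix (Fin (m + 1)) (Fin (m + 1)) R)ˣ)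
    (hg : ∀ i, ¬ κ ((Pi.single i 1 : Fin (m + 1) → R) ᵥ* (g : Matrix (Fin (m + 1)) (Fin (m + 1)) R))
      (((g⁻¹ : (Matrix (Fin (m + 1)) (Fin (m + 1)) R)ˣ) : Matrix (Fin (m + 1)) (Fin (m + 1)) R) *ᵥ
        (Pi.single i 1 : Fin (m + 1) → R)))
    (hR : Nontrivial R) :
    ¬ HomologyVanishes (m + 1) (tupleChains R (m + 1)) 1 ∧
      ¬ HomologyVanishes (m + 1) (inducedChains R (m + 1)) 1 := by
  classical
  -- the property on vertices
  set K : PBC R (m + 1) 1 → Prop := fun σ => ∃ w : Fin (m + 1) → R, σ.v 0 ⬝ᵥ w = 1 ∧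
    (∀ x ∈ σ.C, x ⬝ᵥ w = 0) ∧ κ (σ.v 0) w with hK
  have hKiff : ∀ (σ : PBC R (m + 1) 1) (w : Fin (m + 1) → R), σ.v 0 ⬝ᵥ w = 1 →
      (∀ x ∈ σ.C, x ⬝ᵥ w = 0) → (K σ ↔ κ (σ.v 0) w) := by
    intro σ w h1 h2
    constructor
    · rintro ⟨w', h1', h2', h3'⟩
      rwa [dual_unique σ h1 h2 h1' h2']
    · intro h3; exact ⟨w, h1, h2, h3⟩
  -- faces of an edge
  have hKedge : ∀ τ : PBC R (m + 1) 2, K (τ.face 0) ↔ K (τ.face 1) := by
    intro τ
    obtain ⟨w, hw, hwC⟩ := τ.exists_dual
    have h00 : τ.v 0 ⬝ᵥ w 0 = 1 := by simpa using hw 0 0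
    have h11 : τ.v 1 ⬝ᵥ w 1 = 1 := by simpa using hw 1 1
    have h01 : τ.v 0 ⬝ᵥ w 1 = 0 := by simpa using hw 0 1
    have h10 : τ.v 1 ⬝ᵥ w 0 = 0 := by simpa using hw 1 0
    have f0 : (τ.face 0).v 0 = τ.v 1 := rfl
    have f1 : (τ.face 1).v 0 = τ.v 0 := rfl
    have c0 : ∀ x ∈ (τ.face 0).C, x ⬝ᵥ w 1 = 0 := by
      intro x hx
      obtain ⟨y, hy, z, hz, rfl⟩ := Submodule.mem_sup.1 hx
      obtain ⟨r, rfl⟩ := Submodule.mem_span_singleton.1 hz
      rw [add_dotProduct, hwC y hy, smul_dotProduct, h01, smul_zero, add_zero]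
    have c1 : ∀ x ∈ (τ.face 1).C, x ⬝ᵥ w 0 = 0 := by
      intro x hx
      obtain ⟨y, hy, z, hz, rfl⟩ := Submodule.mem_sup.1 hx
      obtain ⟨r, rfl⟩ := Submodule.mem_span_singleton.1 hz
      rw [add_dotProduct, hwC y hy, smul_dotProduct, h10, smul_zero, add_zero]
    rw [hKiff (τ.face 0) (w 1) (by rw [f0, h11]) c0, hKiff (τ.face 1) (w 0) (by rw [f1, h00]) c1,
      f0, f1]
    exact ⟨fun h => hedge _ _ _ _ h11 h00 h10 h01 h, fun h => hedge _ _ _ _ h00 h11 h01 h10 h⟩
  -- the detecting map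
  let Ψ : (PBC R (m + 1) 1 →₀ (Fin (m + 1) → R)) →ₗ[R] (Fin (m + 1) → R) :=
    Finsupp.lsum ℕ fun σ => if K σ then LinearMap.id else 0
  have hΨs : ∀ σ x, Ψ (Finsupp.single σ x) = if K σ then x else 0 := by
    intro σ x
    simp only [Ψ, Finsupp.lsum_single]
    split_ifs <;> rfl
  have hΨ : ∀ b : PBC R (m + 1) 2 →₀ (Fin (m + 1) → R), Ψ (bdL R (m + 1) 1 b) = 0 := by
    intro b
    have : Ψ ∘ₗ bdL R (m + 1) 1 = 0 := by
      apply Finsupp.lhom_ext
      intro τ x
      rw [LinearMap.comp_apply, bdL_single, Fin.sum_univ_two]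
      simp only [Fin.val_zero, pow_zero, one_smul, Fin.val_one, pow_one, map_add, neg_smul, map_neg,
        hΨs, hKedge τ, LinearMap.zero_apply, add_neg_cancel]
    exact LinearMap.congr_fun this b
  -- three vertices
  have hd : ∀ i j : Fin (m + 1), ((Pi.single i 1 : Fin (m + 1) → R) ᵥ*
        (g : Matrix (Fin (m + 1)) (Fin (m + 1)) R)) ⬝ᵥ
      (((g⁻¹ : (Matrix (Fin (m + 1)) (Fin (m + 1)) R)ˣ) : Matrix (Fin (m + 1)) (Fin (m + 1)) R) *ᵥ
        (Pi.single j 1 : Fin (m + 1) → R)) = if i = j then 1 else 0 := by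
    intro i j
    rw [← Matrix.dotProduct_mulVec, Matrix.mulVec_mulVec, Units.mul_inv, Matrix.one_mulVec]
    by_cases h : i = j
    · subst h; simp
    · simp [h]
  let σ1 : PBC R (m + 1) 1 := mkVertex (Pi.single 0 1) (Pi.single 0 1) (by simp)
  let σg : Fin (m + 1) → PBC R (m + 1) 1 := fun i => mkVertex _ _ ((hd i i).trans (if_pos rfl))
  have hKσ1 : K σ1 := (hKiff σ1 (Pi.single 0 1) (by simp [σ1, mkVertex]) (fun x hx => hx)).2 hbase
  have hKσg : ∀ i, ¬ K (σg i) := fun i h =>
    hg i ((hKiff (σg i) _ ((hd i i).trans (if_pos rfl)) (fun x hx => hx)).1 h)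
  -- orbits
  have horb : ∀ (γ : (Matrix (Fin (m + 1)) (Fin (m + 1)) R)ˣ) (i : Fin (m + 1))
      (h : ((Pi.single i 1 : Fin (m + 1) → R) ᵥ* (γ : Matrix (Fin (m + 1)) (Fin (m + 1)) R)) ⬝ᵥ
      (((γ⁻¹ : (Matrix (Fin (m + 1)) (Fin (m + 1)) R)ˣ) : Matrix (Fin (m + 1)) (Fin (m + 1)) R) *ᵥ
        (Pi.single i 1 : Fin (m + 1) → R)) = 1), (mkVertex _ _ h).InOrbit := by
    intro γ i h
    let e1 : (Fin (m + 1) → R) ≃ₗ[R] (Fin (m + 1) → R) :=
      LinearEquiv.funCongrLeft R R (Equiv.swap i 0)
    let e2 : (Fin (m + 1) → R) ≃ₗ[R] (Fin (m + 1) → R) :=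
      { toFun := fun x => x ᵥ* (γ : Matrix (Fin (m + 1)) (Fin (m + 1)) R)
        map_add' := fun x y => Matrix.add_vecMul _ x y
        map_smul' := fun r x => Matrix.smul_vecMul r x _
        invFun := fun x => x ᵥ* ((γ⁻¹ : (Matrix (Fin (m + 1)) (Fin (m + 1)) R)ˣ) :
          Matrix (Fin (m + 1)) (Fin (m + 1)) R)
        left_inv := fun x => by
          change (x ᵥ* (γ : Matrix (Fin (m + 1)) (Fin (m + 1)) R)) ᵥ*
            ((γ⁻¹ : (Matrix (Fin (m + 1)) (Fin (m + 1)) R)ˣ) :
              Matrix (Fin (m + 1)) (Fin (m + 1)) R) = x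
          rw [Matrix.vecMul_vecMul, Units.mul_inv, Matrix.vecMul_one]
        right_inv := fun x => by
          change (x ᵥ* ((γ⁻¹ : (Matrix (Fin (m + 1)) (Fin (m + 1)) R)ˣ) :
              Matrix (Fin (m + 1)) (Fin (m + 1)) R)) ᵥ*
              (γ : Matrix (Fin (m + 1)) (Fin (m + 1)) R) = x
          rw [Matrix.vecMul_vecMul, Units.inv_mul, Matrix.vecMul_one] }
    have he1 : ∀ j, e1 (Pi.single j 1) = Pi.single (Equiv.swap i 0 j) 1 := by
      intro j
      ext l
      simp only [e1, LinearEquiv.funCongrLeft_apply, LinearMap.funLeft_apply, Pi.single_apply]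
      congr 1
      rw [eq_iff_iff, Equiv.swap_apply_eq_iff]
    refine ⟨e1.trans e2, fun j => ?_, ?_⟩
    · have hj : Fin.castLE (mkVertex _ _ h).le j = 0 := by
        rw [Subsingleton.elim j 0]; rfl
      rw [hj, LinearEquiv.trans_apply, he1]
      simp only [Equiv.swap_apply_right]
      rfl
    · ext x
      constructor
      · intro hx
        have hx' : x ⬝ᵥ (((γ⁻¹ : (Matrix (Fin (m + 1)) (Fin (m + 1)) R)ˣ) :
          Matrix (Fin (m + 1)) (Fin (m + 1)) R) *ᵥ (Pi.single i 1 : Fin (m + 1) → R)) = 0 := hx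
        refine ⟨(e1.trans e2).symm x, ?_, LinearEquiv.apply_symm_apply _ _⟩
        set y := (e1.trans e2).symm x with hy
        have hy0 : y 0 = 0 := by
          have h1 : y = e1.symm (e2.symm x) := rfl
          have h2 : e2.symm x = x ᵥ* ((γ⁻¹ : (Matrix (Fin (m + 1)) (Fin (m + 1)) R)ˣ) :
            Matrix (Fin (m + 1)) (Fin (m + 1)) R) := rfl
          rw [Matrix.dotProduct_mulVec] at hx'
          rw [h1, h2]
          simp only [e1, LinearEquiv.funCongrLeft_symm, LinearEquiv.funCongrLeft_apply,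
            LinearMap.funLeft_apply, Equiv.symm_swap, Equiv.swap_apply_right]
          simpa using hx'
        have hy1 : y = ∑ j, y j • (Pi.single j 1 : Fin (m + 1) → R) := by
          ext j
          simp [Finset.sum_apply, Pi.single_apply]
        rw [hy1]
        refine Submodule.sum_mem _ fun j _ => ?_
        by_cases hj : j = 0
        · rw [hj, hy0, zero_smul]; exact Submodule.zero_mem _
        · exact Submodule.smul_mem _ _ (Submodule.subset_span ⟨j, by
            rcases Nat.eq_zero_or_pos (j : ℕ) with h0 | h0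
            · exact absurd (Fin.ext h0) hj
            · exact h0, rfl⟩)
      · rintro ⟨y, hy, rfl⟩
        change ((e1.trans e2) y) ⬝ᵥ (((γ⁻¹ : (Matrix (Fin (m + 1)) (Fin (m + 1)) R)ˣ) :
          Matrix (Fin (m + 1)) (Fin (m + 1)) R) *ᵥ (Pi.single i 1 : Fin (m + 1) → R)) = 0
        refine Submodule.span_induction (p := fun y _ => ((e1.trans e2) y) ⬝ᵥ
          (((γ⁻¹ : (Matrix (Fin (m + 1)) (Fin (m + 1)) R)ˣ) :
          Matrix (Fin (m + 1)) (Fin (m + 1)) R) *ᵥ (Pi.single i 1 : Fin (m + 1) → R)) = 0)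
          ?_ ?_ ?_ ?_ hy
        · rintro _ ⟨j, hj, rfl⟩
          rw [LinearEquiv.trans_apply, he1]
          change (Pi.single (Equiv.swap i 0 j) 1 ᵥ* (γ : Matrix (Fin (m + 1)) (Fin (m + 1)) R)) ⬝ᵥ _
            = 0
          rw [← Matrix.dotProduct_mulVec, Matrix.mulVec_mulVec, Units.mul_inv, Matrix.one_mulVec]
          have hj0 : j ≠ 0 := by
            rintro rfl
            simp at hj
          have : Equiv.swap i 0 j ≠ i := by
            intro h'
            rw [Equiv.swap_apply_eq_iff, Equiv.swap_apply_left] at h'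
            exact hj0 h'
          simp [Pi.single_eq_of_ne this.symm]
        · rw [map_zero, zero_dotProduct]
        · intro a b _ _ ha hb
          rw [map_add, add_dotProduct, ha, hb, add_zero]
        · intro r a _ ha
          rw [map_smul, smul_dotProduct, ha, smul_zero]
  have horb1 : σ1.InOrbit := by
    have h := horb 1 0 (by simp)
    have e : (mkVertex ((Pi.single 0 1 : Fin (m + 1) → R) ᵥ*
        ((1 : (Matrix (Fin (m + 1)) (Fin (m + 1)) R)ˣ) : Matrix (Fin (m + 1)) (Fin (m + 1)) R))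
        ((((1 : (Matrix (Fin (m + 1)) (Fin (m + 1)) R)ˣ)⁻¹ :
          (Matrix (Fin (m + 1)) (Fin (m + 1)) R)ˣ) : Matrix (Fin (m + 1)) (Fin (m + 1)) R) *ᵥ
        (Pi.single 0 1 : Fin (m + 1) → R)) (by simp) : PBC R (m + 1) 1) = σ1 := by
      simp only [σ1, inv_one, Units.val_one, Matrix.vecMul_one, Matrix.one_mulVec]
    rw [← e]; exact h
  have horbg : ∀ i, (σg i).InOrbit := fun i => horb g i _
  -- the cycle
  let i1 : Fin (m + 1) := ⟨1, by omega⟩
  have hi1 : i1 ≠ 0 := by
    intro h; have := congrArg Fin.val h; simp [i1] at this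
  let x : Fin (m + 1) → R := Pi.single i1 1
  let t : R := x ⬝ᵥ (((g⁻¹ : (Matrix (Fin (m + 1)) (Fin (m + 1)) R)ˣ) :
      Matrix (Fin (m + 1)) (Fin (m + 1)) R) *ᵥ (Pi.single 0 1 : Fin (m + 1) → R))
  let y2 : Fin (m + 1) → R := t • ((Pi.single 0 1 : Fin (m + 1) → R) ᵥ*
    (g : Matrix (Fin (m + 1)) (Fin (m + 1)) R))
  let y1 : Fin (m + 1) → R := x - y2
  have hx1 : x ∈ σ1.C := by
    change x ⬝ᵥ (Pi.single 0 1 : Fin (m + 1) → R) = 0
    simp [x, Pi.single_eq_of_ne hi1.symm]
  have hy1 : y1 ∈ (σg 0).C := by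
    change y1 ⬝ᵥ _ = 0
    simp only [y1, y2]
    rw [sub_dotProduct, smul_dotProduct, hd 0 0, if_pos rfl, smul_eq_mul, mul_one]
    exact sub_self _
  have hy2 : y2 ∈ (σg i1).C := by
    change y2 ⬝ᵥ _ = 0
    simp only [y2]
    rw [smul_dotProduct, hd 0 i1, if_neg hi1.symm, smul_zero]
  let z : PBC R (m + 1) 1 →₀ (Fin (m + 1) → R) :=
    Finsupp.single σ1 x - Finsupp.single (σg 0) y1 - Finsupp.single (σg i1) y2
  have hmem : z ∈ inducedChains R (m + 1) 1 := by
    have hs : ∀ (σ : PBC R (m + 1) 1) (y : Fin (m + 1) → R), y ∈ σ.C → σ.InOrbit →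
        Finsupp.single σ y ∈ inducedChains R (m + 1) 1 := by
      intro σ y hy ho τ
      rw [Finsupp.single_apply]
      split_ifs with h
      · subst h; exact ⟨hy, fun _ => ho⟩
      · exact ⟨Submodule.zero_mem _, fun h => absurd rfl h⟩
    exact Submodule.sub_mem (inducedSub R (m + 1) 1) (Submodule.sub_mem (inducedSub R (m + 1) 1)
      (hs _ _ hx1 horb1) (hs _ _ hy1 (horbg _))) (hs _ _ hy2 (horbg _))
  have hmem' : z ∈ tupleChains R (m + 1) 1 := fun σ => (hmem σ).1
  have hbd : bd R (m + 1) 0 z = 0 := by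
    rw [bd_eq]
    have h1 : ∀ (σ : PBC R (m + 1) 1) (y : Fin (m + 1) → R),
        bdL R (m + 1) 0 (Finsupp.single σ y) = Finsupp.single (σ1.face 0) y := by
      intro σ y
      rw [bdL_single, Fin.sum_univ_one]
      simp only [Fin.val_zero, pow_zero, one_smul]
      congr 1
      exact Subsingleton.elim _ _
    simp only [z, map_sub, h1]
    rw [← Finsupp.single_sub, ← Finsupp.single_sub]
    simp [y1]
  have hΨz : Ψ z ≠ 0 := by
    have : Ψ z = x := by
      simp only [z, map_sub, hΨs, hKσ1, hKσg, if_true, if_false, sub_zero]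
    rw [this]
    intro h
    have := congrFun h i1
    simp [x] at this
  constructor
  · intro h
    obtain ⟨b, -, hb⟩ := h z hmem' hbd
    exact hΨz (by rw [← hb, bd_eq, hΨ])
  · intro h
    obtain ⟨b, -, hb⟩ := h z hmem hbd
    exact hΨz (by rw [← hb, bd_eq, hΨ])

end Chain

/-- The ring: the product over all `m` of the rings `A ℚ m`, the latter being isomorphic to the
algebra generated by the `(m+1)^2` entries of a matrix `E` subject to `E^2 = 0`. -/
abbrev BigRing : Type := ∀ m : ℕ, A ℚ m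

lemma nonvanishing_bigRing (m : ℕ) (hm : 1 ≤ m) :
    ¬ HomologyVanishes (m + 1) (tupleChains BigRing (m + 1)) 1 ∧
      ¬ HomologyVanishes (m + 1) (inducedChains BigRing (m + 1)) 1 := by
  let π : BigRing →+* A ℚ m := Pi.evalRingHom (fun m => A ℚ m) m
  have hπ1 : ∀ i : Fin (m + 1), (fun j => π ((Pi.single i 1 : Fin (m + 1) → BigRing) j))
      = (Pi.single i 1 : Fin (m + 1) → A ℚ m) := by
    intro i
    ext1 j
    by_cases h : j = i
    · subst h; simp
    · simp [Pi.single_eq_of_ne h]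
  let Eh : Matrix (Fin (m + 1)) (Fin (m + 1)) BigRing :=
    Matrix.of fun i j => Pi.single m ((A.E : Matrix (Fin (m + 1)) (Fin (m + 1)) (A ℚ m)) i j)
  have hEh : Eh * Eh = 0 := by
    ext i j : 1
    rw [Matrix.mul_apply]
    simp only [Eh, Matrix.of_apply, Matrix.zero_apply]
    have h1 : ∀ l, (Pi.single m ((A.E : Matrix (Fin (m + 1)) (Fin (m + 1)) (A ℚ m)) i l) : BigRing) *
        Pi.single m ((A.E : Matrix (Fin (m + 1)) (Fin (m + 1)) (A ℚ m)) l j)
        = Pi.single m ((A.E : Matrix (Fin (m + 1)) (Fin (m + 1)) (A ℚ m)) i l *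
          (A.E : Matrix (Fin (m + 1)) (Fin (m + 1)) (A ℚ m)) l j) := by
      intro l
      rw [Pi.single_mul]
    simp only [h1]
    have h2 := congrFun (congrFun (A.E_mul_E (k := ℚ) (n := m)) i) j
    rw [Matrix.mul_apply, Matrix.zero_apply] at h2
    have h3 : ∑ l, (Pi.single m ((A.E : Matrix (Fin (m + 1)) (Fin (m + 1)) (A ℚ m)) i l *
          (A.E : Matrix (Fin (m + 1)) (Fin (m + 1)) (A ℚ m)) l j) : BigRing)
        = Pi.single m (∑ l, (A.E : Matrix (Fin (m + 1)) (Fin (m + 1)) (A ℚ m)) i l *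
          (A.E : Matrix (Fin (m + 1)) (Fin (m + 1)) (A ℚ m)) l j) :=
      (map_sum (AddMonoidHom.single (fun m => A ℚ m) m) _ _).symm
    rw [h3, h2, Pi.single_zero]
  let g : (Matrix (Fin (m + 1)) (Fin (m + 1)) BigRing)ˣ :=
    { val := 1 + Eh
      inv := 1 - Eh
      val_inv := by rw [mul_sub, add_mul, add_mul, hEh]; simp
      inv_val := by rw [mul_add, sub_mul, sub_mul, hEh]; simp }
  have hπE : ∀ i j, π (Eh i j) = (A.E : Matrix (Fin (m + 1)) (Fin (m + 1)) (A ℚ m)) i j := by
    intro i j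
    simp [Eh, π]
  have hdot : ∀ v w : Fin (m + 1) → BigRing, (fun j => π (v j)) ⬝ᵥ (fun j => π (w j))
      = π (v ⬝ᵥ w) := by
    intro v w
    simp [dotProduct, map_sum]
  refine nonvanishing hm (fun v w => A.Rel (fun j => π (v j)) (fun j => π (w j))
    (Pi.single 0 1) (Pi.single 0 1)) ?_ ?_ g ?_ ?_
  · intro v0 w0 v1 w1 _ h11 h01 h10 h
    refine A.edge hm _ _ _ _ ?_ ?_ ?_ h
    · rw [hdot, h01, map_zero]
    · rw [hdot, h10, map_zero]
    · rw [hdot, h11, map_one]
  · simp only [hπ1]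
    exact A.rel_single 0 0
  · intro i h
    apply A.not_rel (k := ℚ) (n := m) i
    have e1 : (fun j => π (((Pi.single i 1 : Fin (m + 1) → BigRing) ᵥ*
        (g : Matrix (Fin (m + 1)) (Fin (m + 1)) BigRing)) j))
        = (Pi.single i 1 : Fin (m+1) → A ℚ m) ᵥ*
        ((A.uE : (Matrix (Fin (m+1)) (Fin (m+1)) (A ℚ m))ˣ) :
          Matrix (Fin (m+1)) (Fin (m+1)) (A ℚ m)) := by
      ext1 j
      rw [Matrix.single_one_vecMul, Matrix.single_one_vecMul]
      change π ((1 + Eh) i j) = (1 + A.E : Matrix (Fin (m+1)) (Fin (m+1)) (A ℚ m)) i j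
      rw [Matrix.add_apply, Matrix.add_apply, map_add, hπE]
      congr 1
      rw [Matrix.one_apply, Matrix.one_apply]
      split_ifs <;> simp
    have e2 : (fun j => π ((((g⁻¹ : (Matrix (Fin (m + 1)) (Fin (m + 1)) BigRing)ˣ) :
        Matrix (Fin (m + 1)) (Fin (m + 1)) BigRing) *ᵥ
          (Pi.single i 1 : Fin (m + 1) → BigRing)) j))
        = (((A.uE⁻¹ : (Matrix (Fin (m+1)) (Fin (m+1)) (A ℚ m))ˣ) :
          Matrix (Fin (m+1)) (Fin (m+1)) (A ℚ m)) *ᵥ (Pi.single i 1 : Fin (m+1) → A ℚ m)) := by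
      ext1 j
      rw [Matrix.mulVec_single_one, Matrix.mulVec_single_one]
      change π ((1 - Eh) j i) = (1 - A.E : Matrix (Fin (m+1)) (Fin (m+1)) (A ℚ m)) j i
      rw [Matrix.sub_apply, Matrix.sub_apply, map_sub, hπE]
      congr 1
      rw [Matrix.one_apply, Matrix.one_apply]
      split_ifs <;> simp
    rw [← e1, ← e2]
    exact h
  · refine ⟨⟨0, 1, fun h => ?_⟩⟩
    have := congrArg A.s (congrFun h 0)
    simp at this

/-- There is an associative ring with unit (a countable product of algebras over `ℚ`) for which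
neither of the two forms of the complexes is highly acyclic; indeed the homology in degree `0` is
nonzero for every `n ≥ 2`. -/
theorem exists_ring_not_highlyAcyclic : ∃ (R : Type) (_ : Ring R),
    (∃ φ : R →+* ℚ, Function.Surjective φ) ∧
    (∀ n, 2 ≤ n → ¬ HomologyVanishes n (tupleChains R n) 1 ∧
      ¬ HomologyVanishes n (inducedChains R n) 1) ∧
    ¬ HighlyAcyclic (tupleChains R) ∧ ¬ HighlyAcyclic (inducedChains R) := by
  have h : ∀ n, 2 ≤ n → ¬ HomologyVanishes n (tupleChains BigRing n) 1 ∧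
      ¬ HomologyVanishes n (inducedChains BigRing n) 1 := by
    intro n hn
    obtain ⟨m, rfl⟩ : ∃ m, n = m + 1 := ⟨n - 1, by omega⟩
    exact nonvanishing_bigRing m (by omega)
  have hφ : ∃ φ : BigRing →+* ℚ, Function.Surjective φ := by
    refine ⟨(A.sHom (k := ℚ) (n := 0)).comp (Pi.evalRingHom (fun m => A ℚ m) 0), fun r => ?_⟩
    exact ⟨fun m => A.C r, rfl⟩
  refine ⟨BigRing, inferInstance, hφ, h, ?_, ?_⟩
  · rintro ⟨f, hf, hv⟩
    obtain ⟨N, hN⟩ := (Filter.tendsto_atTop_atTop.1 hf) 0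
    have h0 := hN (N + 2) (by omega)
    exact (h (N + 2) (by omega)).1 (hv (N + 2) (by omega) 1 (by simpa using h0))
  · rintro ⟨f, hf, hv⟩
    obtain ⟨N, hN⟩ := (Filter.tendsto_atTop_atTop.1 hf) 0
    have h0 := hN (N + 2) (by omega)
    exact (h (N + 2) (by omega)).2 (hv (N + 2) (by omega) 1 (by simpa using h0))

end Final

end Pool.Agent.Helper607.Bases
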